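import Pool.Agent.W206.CT.Stm

/-!
# Transcendence bases among the coordinates
-/

set_option autoImplicit false

namespace Pool.Agent.W206.CT

namespace CO

open Set

theorem alg_up {K L : Type} [Field K] [Field L] [Algebra K L] (S : Set L) {a : L}
    (h : IsAlgebraic (Algebra.adjoin K S) a) : IsAlgebraic (IntermediateField.adjoin K S) a := by
  let _ : Algebra (Algebra.adjoin K S) (IntermediateField.adjoin K S) :=
    (Subalgebra.inclusion (IntermediateField.algebra_adjoin_le_adjoin K S)).toRingHom.toAlgebra
  have : IsScalarTower (Algebra.adjoin K S) (IntermediateField.adjoin K S) L :=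
    IsScalarTower.of_algebraMap_eq (congrFun rfl)
  exact h.extendScalars (Subalgebra.inclusion_injective _)

theorem alg_adjoin {K L : Type} [Field K] [Field L] [Algebra K L] (S T : Set L)
    (h : ∀ t ∈ T, IsAlgebraic (Algebra.adjoin K S) t) {a : L}
    (ha : a ∈ IntermediateField.adjoin K T) : IsAlgebraic (Algebra.adjoin K S) a := by
  induction ha using IntermediateField.adjoin_induction with
  | mem x hx => exact h x hx
  | algebraMap x =>
    rw [IsScalarTower.algebraMap_apply K (Algebra.adjoin K S) L]
    exact isAlgebraic_algebraMap _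
  | add x y _ _ hx hy => exact hx.add hy
  | inv x _ hx => exact hx.inv
  | mul x y _ _ hx hy => exact hx.mul hy

end CO

theorem t_co : S_CO := by
  classical
  intro K L ι _ _ _ _ ω
  obtain ⟨I, hI, hmax⟩ : ∃ I : Finset ι, AlgebraicIndepOn K ω (I : Set ι) ∧
      ∀ J : Finset ι, AlgebraicIndepOn K ω (J : Set ι) → J.card ≤ I.card := by
    have hne : (Finset.univ.filter fun J : Finset ι =>
        AlgebraicIndepOn K ω (J : Set ι)).Nonempty := by
      refine ⟨∅, Finset.mem_filter.mpr ⟨Finset.mem_univ _, ?_⟩⟩
      rw [Finset.coe_empty]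
      exact algebraicIndependent_empty_type_iff.mpr (algebraMap K L).injective
    obtain ⟨I, hI, hm⟩ := Finset.exists_max_image _ Finset.card hne
    exact ⟨I, (Finset.mem_filter.mp hI).2, fun J hJ =>
      hm J (Finset.mem_filter.mpr ⟨Finset.mem_univ _, hJ⟩)⟩
  have halg : ∀ j, IsAlgebraic (Algebra.adjoin K (ω '' (I : Set ι))) (ω j) := by
    intro j
    by_cases hj : j ∈ I
    · exact isAlgebraic_algebraMap
        (⟨ω j, Algebra.subset_adjoin ⟨j, hj, rfl⟩⟩ : Algebra.adjoin K (ω '' (I : Set ι)))
    · by_contra hn
      have h1 : AlgebraicIndepOn K ω (insert j (I : Set ι)) :=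
        (AlgebraicIndepOn.insert_iff (by simpa using hj)).mpr ⟨hI, hn⟩
      rw [← Finset.coe_insert] at h1
      have h2 := hmax _ h1
      rw [Finset.card_insert_of_notMem hj] at h2
      omega
  refine ⟨I, hI, fun j => CO.alg_up _ (halg j), fun m => ⟨?_, ?_⟩⟩
  · rintro ⟨y, hy, hmem⟩
    have h1 : (AlgebraicIndependent.matroid K L).Indep (Set.range y) := hy.to_subtype_range
    have h2 : Set.range y ⊆ (AlgebraicIndependent.matroid K L).closure (ω '' (I : Set ι)) := by
      rw [AlgebraicIndependent.matroid_closure_eq]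
      rintro _ ⟨i, rfl⟩
      exact CO.alg_adjoin _ _ (by rintro _ ⟨j, rfl⟩; exact halg j) (hmem i)
    have h3 := h1.encard_le_eRk_of_subset h2
    rw [Matroid.eRk_closure_eq] at h3
    have h4 := h3.trans (Matroid.eRk_le_encard _ _)
    have h5 := h4.trans (Set.encard_image_le _ _)
    rw [Set.encard_coe_eq_coe_finsetCard] at h5
    have h6 : (Set.range y).encard = m := by
      rw [← Set.image_univ, (hy.injective).injOn.encard_image]
      simp
    rw [h6] at h5
    exact_mod_cast h5
  · intro hm
    have e : Fin m ↪ I := (Fin.castLEEmb (by simpa using hm)).trans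
      (Fintype.equivFin I).symm.toEmbedding
    refine ⟨fun i => ω (e i), ?_, fun i => IntermediateField.subset_adjoin _ _ ⟨_, rfl⟩⟩
    exact AlgebraicIndependent.comp hI e e.injective

end Pool.Agent.W206.CT

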