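import Pool.Agent.W206.CT.Stm

/-!
# CT-E1: Jacobian inequality at a specialisation
-/

set_option autoImplicit false


namespace Pool.Agent.W206.CT

open MvPolynomial
open scoped KaehlerDifferential

namespace E1

/-- `r` independent rows: an invertible square submatrix. -/
theorem minor {ι L : Type} [Fintype ι] [Field L] {r : ℕ} (a : Matrix (Fin r) ι L)
    (h : LinearIndependent L a.row) : ∃ e : Fin r → ι, (a.submatrix id e).det ≠ 0 := by
  classical
  have h1 : a.rank = r := by rw [h.rank_matrix, Fintype.card_fin]
  rw [Matrix.rank_eq_finrank_span_cols] at h1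
  obtain ⟨f, hf1, -, hf3⟩ := Submodule.exists_fun_fin_finrank_span_eq L (Set.range a.col)
  choose e he using hf1
  let g : Fin r → ι := fun k => e (Fin.cast h1.symm k)
  refine ⟨g, ?_⟩
  have h2 : LinearIndependent L (a.submatrix id g).col := by
    have h4 : (a.submatrix id g).col = f ∘ Fin.cast h1.symm := by
      funext k
      exact he _
    rw [h4]
    exact hf3.comp _ (Fin.cast_injective _)
  have h3 := Matrix.linearIndependent_cols_iff_isUnit.1 h2
  exact ((Matrix.isUnit_iff_isUnit_det _).1 h3).ne_zero

/-- The chain rule. -/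
theorem chain {k ι R M Ω : Type} [Field k] [Fintype ι] [CommRing R] [Field M] [Algebra k R]
    [Algebra R M] [Algebra k M] [IsScalarTower k R M] [AddCommGroup Ω] [Module R Ω] [Module M Ω]
    (D : Derivation R M Ω) (v : ι → M) (p : MvPolynomial ι k) :
    D (aeval v p) = ∑ j, aeval v (pderiv j p) • D (v j) := by
  classical
  induction p using MvPolynomial.induction_on with
  | C a =>
    rw [aeval_C, IsScalarTower.algebraMap_apply k R M, D.map_algebraMap]
    simp
  | add p q hp hq =>
    rw [map_add, map_add, hp, hq, ← Finset.sum_add_distrib]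
    refine Finset.sum_congr rfl fun j _ => ?_
    rw [map_add, map_add, add_smul]
  | mul_X p n hp =>
    rw [map_mul, aeval_X, D.leibniz, hp, Finset.smul_sum]
    have h1 : ∀ j, aeval v (pderiv j (p * X n)) • D (v j) =
        v n • aeval v (pderiv j p) • D (v j) + (if j = n then aeval v p • D (v n) else 0) := by
      intro j
      rw [pderiv_mul, pderiv_X, map_add, map_mul, map_mul, aeval_X, add_smul, smul_smul,
        mul_comm (v n)]
      congr 1
      by_cases hj : j = n
      · subst hj
        simp
      · rw [if_neg hj, Pi.single_eq_of_ne (Ne.symm hj)]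
        simp
    rw [Finset.sum_congr rfl (fun j _ => h1 j), Finset.sum_add_distrib, Finset.sum_ite_eq']
    simp [add_comm]

theorem inj {ι L : Type} [Field L] {r : ℕ} (g : Fin r → ι → L) (e : Fin r → ι)
    (h : (Matrix.of fun i k => g i (e k)).det ≠ 0) : Function.Injective e := by
  intro k l hkl
  by_contra hne
  apply h
  refine Matrix.det_zero_of_column_eq hne fun i => ?_
  simp [hkl]

/-- Cardinality of the coordinates outside `e`. -/
theorem card_aux {ι M : Type} [Fintype ι] (v : ι → M) {r : ℕ} (e : Fin r → ι)
    (hinj : Function.Injective e) {m : ℕ}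
    (h : (m : Cardinal) ≤ Cardinal.mk (v '' (Set.range e)ᶜ)) : m + r ≤ Fintype.card ι := by
  classical
  have h5 : Cardinal.mk (v '' (Set.range e)ᶜ) ≤ Cardinal.mk ((Set.range e)ᶜ : Set ι) :=
    Cardinal.mk_image_le
  have h6 := h.trans h5
  have h7 : Cardinal.mk ((Set.range e)ᶜ : Set ι) = (((Finset.univ.image e)ᶜ : Finset ι).card : ℕ) := by
    rw [← Cardinal.mk_coe_finset]
    congr 2
    ext x
    simp
  rw [h7] at h6
  have h8 : m ≤ ((Finset.univ.image e)ᶜ : Finset ι).card := by exact_mod_cast h6
  rw [Finset.card_compl, Finset.card_image_of_injective _ hinj, Finset.card_univ,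
    Fintype.card_fin] at h8
  have h9 : r ≤ Fintype.card ι := by
    have := Fintype.card_le_of_injective e hinj
    rwa [Fintype.card_fin] at this
  omega

theorem key {k ι M : Type} [Field k] [Fintype ι] [Field M] [Algebra k M] (v : ι → M)
    (htop : IntermediateField.adjoin k (Set.range v) = ⊤) {r : ℕ} (f : Fin r → MvPolynomial ι k)
    (hf : ∀ i, aeval v (f i) = 0) (e : Fin r → ι)
    (hdet : (Matrix.of fun i k => aeval v (pderiv (e k) (f i))).det ≠ 0) :
    Algebra.trdeg k M ≤ Cardinal.mk (v '' (Set.range e)ᶜ) := by
  classical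
  set s : Set M := v '' (Set.range e)ᶜ with hs
  set K : IntermediateField k M := IntermediateField.adjoin k s with hK
  have hKs : ∀ j, j ∉ Set.range e → v j ∈ K := fun j hj =>
    IntermediateField.subset_adjoin k s ⟨j, hj, rfl⟩
  have hinj : Function.Injective e := inj (fun i j => aeval v (pderiv j (f i))) e hdet
  -- the derivation
  set D := KaehlerDifferential.D K M with hD
  have hDK : ∀ x ∈ K, D x = 0 := fun x hx => D.map_algebraMap (⟨x, hx⟩ : K)
  have hsum : ∀ i, ∑ k, aeval v (pderiv (e k) (f i)) • D (v (e k)) = 0 := by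
    intro i
    have h1 := chain D v (f i)
    rw [hf i, map_zero] at h1
    have h2 : ∑ j, aeval v (pderiv j (f i)) • D (v j) =
        ∑ j ∈ Finset.univ.image e, aeval v (pderiv j (f i)) • D (v j) := by
      symm
      refine Finset.sum_subset (Finset.subset_univ _) fun j _ hj => ?_
      rw [hDK (v j) (hKs j ?_), smul_zero]
      rintro ⟨k, rfl⟩
      exact hj (Finset.mem_image_of_mem e (Finset.mem_univ k))
    rw [h2, Finset.sum_image (fun x _ y _ h => hinj h)] at h1
    exact h1.symm
  have hDe : ∀ k, D (v (e k)) = 0 := by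
    intro k
    rw [← Module.forall_dual_apply_eq_zero_iff M]
    intro φ
    have h1 : (Matrix.of fun i k => aeval v (pderiv (e k) (f i))).mulVec
        (fun k => φ (D (v (e k)))) = 0 := by
      funext i
      have h2 := congrArg φ (hsum i)
      rw [map_sum, map_zero] at h2
      simp only [map_smul, smul_eq_mul] at h2
      exact h2
    have h3 := Matrix.eq_zero_of_mulVec_eq_zero hdet h1
    exact congrFun h3 k
  have hDv : ∀ j, D (v j) = 0 := by
    intro j
    by_cases hj : j ∈ Set.range e
    · obtain ⟨k, rfl⟩ := hj
      exact hDe k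
    · exact hDK _ (hKs j hj)
  have hall : ∀ x : M, D x = 0 := by
    intro x
    have hx : x ∈ IntermediateField.adjoin k (Set.range v) := by
      rw [htop]; exact IntermediateField.mem_top
    refine IntermediateField.adjoin_induction (F := k) (p := fun y _ => D y = 0) ?_ ?_ ?_ ?_ ?_ hx
    · rintro _ ⟨j, rfl⟩
      exact hDv j
    · intro q
      exact hDK _ (K.algebraMap_mem q)
    · intro a b _ _ ha hb
      rw [map_add, ha, hb, add_zero]
    · intro a _ ha
      rw [D.leibniz_inv, ha, smul_zero]
    · intro a b _ _ ha hb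
      rw [D.leibniz, ha, hb, smul_zero, smul_zero, add_zero]
  have hsub : Subsingleton (Ω[M⁄K]) := by
    have h1 := KaehlerDifferential.span_range_derivation K M
    have h2 : Submodule.span M (Set.range (KaehlerDifferential.D K M)) = ⊥ := by
      rw [Submodule.span_eq_bot]
      rintro _ ⟨x, rfl⟩
      exact hall x
    rw [h2] at h1
    exact (Submodule.subsingleton_iff M).1 (subsingleton_of_bot_eq_top h1)
  have hfu : Algebra.FormallyUnramified K M := ⟨hsub⟩
  have hfg : (⊤ : IntermediateField K M).FG := by
    refine ⟨Finset.univ.image v, ?_⟩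
    rw [eq_top_iff]
    intro x _
    have hx : x ∈ IntermediateField.adjoin k (Set.range v) := by
      rw [htop]; exact IntermediateField.mem_top
    refine IntermediateField.adjoin_induction (F := k)
      (p := fun y _ => y ∈ IntermediateField.adjoin K ((Finset.univ.image v : Finset M) : Set M))
      ?_ ?_ ?_ ?_ ?_ hx
    · rintro _ ⟨j, rfl⟩
      exact IntermediateField.subset_adjoin _ _ (by simp)
    · intro q
      exact IntermediateField.algebraMap_mem _ (⟨_, K.algebraMap_mem q⟩ : K)
    · intro a b _ _ ha hb
      exact add_mem ha hb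
    · intro a _ ha
      exact inv_mem ha
    · intro a b _ _ ha hb
      exact mul_mem ha hb
  have hess : Algebra.EssFiniteType K M := IntermediateField.fg_top_iff.1 hfg
  have hsep : Algebra.IsSeparable K M := Algebra.FormallyUnramified.isSeparable K M
  have halg : Algebra.IsAlgebraic K M := inferInstance
  have halg2 : Algebra.IsAlgebraic (Algebra.adjoin k s) M := by
    open scoped IntermediateField.algebraAdjoinAdjoin in
    exact (IsFractionRing.comap_isAlgebraic_iff (A := Algebra.adjoin k s) (K := K) (C := M)).2 halg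
  exact Algebra.IsAlgebraic.trdeg_le_cardinalMk k s

theorem detmap {k ι N : Type} [Field k] [Field N] [Algebra k N] {r : ℕ}
    (f : Fin r → MvPolynomial ι k) (e : Fin r → ι) (w : ι → N) :
    aeval w (Matrix.of fun i k => pderiv (e k) (f i)).det =
      (Matrix.of fun i k => aeval w (pderiv (e k) (f i))).det := by
  rw [AlgHom.map_det]
  rfl

theorem gen (k ι L L' : Type) [Field k] [Fintype ι] [Field L] [Algebra k L] [Field L']
    [Algebra k L'] (r m : ℕ) (ω : ι → L) (ω' : ι → L')
    (hspec : ∀ g : MvPolynomial ι k, aeval ω' g = 0 → aeval ω g = 0)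
    (f : Fin r → MvPolynomial ι k) (hf : ∀ i, aeval ω' (f i) = 0)
    (hlin : LinearIndependent L (fun i : Fin r => fun j : ι => aeval ω (pderiv j (f i))))
    (htr : TrGe k ω' m) : m + r ≤ Fintype.card ι := by
  classical
  obtain ⟨e, he⟩ := minor (Matrix.of fun i j => aeval ω (pderiv j (f i))) hlin
  obtain ⟨y, hy, hyF⟩ := htr
  set F : IntermediateField k L' := IntermediateField.adjoin k (Set.range ω') with hF
  let v : ι → F := fun j => ⟨ω' j, IntermediateField.subset_adjoin _ _ ⟨j, rfl⟩⟩
  have hval : ∀ p : MvPolynomial ι k, ((aeval v p : F) : L') = aeval ω' p := by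
    intro p
    have h1 := (MvPolynomial.comp_aeval_apply (f := v) F.val p)
    exact h1
  have hv0 : ∀ p : MvPolynomial ι k, aeval ω' p = 0 ↔ aeval v p = 0 := by
    intro p
    rw [← hval p]
    exact ZeroMemClass.coe_eq_zero
  have h1 : aeval ω (Matrix.of fun i k => pderiv (e k) (f i)).det ≠ 0 := by
    rw [detmap]
    exact he
  have h2 : aeval v (Matrix.of fun i k => pderiv (e k) (f i)).det ≠ 0 :=
    fun h => h1 (hspec _ ((hv0 _).2 h))
  rw [detmap] at h2
  have htop : IntermediateField.adjoin k (Set.range v) = ⊤ := by
    have h3 : (IntermediateField.adjoin k (Set.range v)).map F.val =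
        (⊤ : IntermediateField k F).map F.val := by
      rw [IntermediateField.adjoin_map, ← Set.range_comp]
      have h4 : (F.val : F → L') ∘ v = ω' := rfl
      rw [h4, ← hF]
      ext x
      constructor
      · intro hx
        exact ⟨⟨x, hx⟩, trivial, rfl⟩
      · rintro ⟨x, -, rfl⟩
        exact x.2
    exact IntermediateField.map_injective F.val h3
  have hinj : Function.Injective e := inj (fun i j => aeval v (pderiv j (f i))) e h2
  have h3 := key v htop f (fun i => (hv0 _).1 (hf i)) e h2
  let y' : Fin m → F := fun i => ⟨y i, hyF i⟩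
  have hy' : AlgebraicIndependent k y' := by
    have : AlgebraicIndependent k (F.val ∘ y') := hy
    exact this.of_comp F.val
  have h4 := hy'.cardinalMk_le_trdeg.trans h3
  rw [Cardinal.mk_fin] at h4
  exact card_aux v e hinj h4

end E1

theorem t_e1 : S_E1 := by
  intro ι L L' _ _ _ _ _ r m ω ω' hspec f hf hlin htr
  exact E1.gen ℚ ι L L' r m ω ω' hspec f hf hlin htr

end Pool.Agent.W206.CT
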