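import Pool.Agent.W206.CT.Stm

set_option autoImplicit false

namespace Pool.Agent.W206.CT

open MvPolynomial

namespace FQ

/-- a transcendence basis among the coordinates gives `TrGe` -/
lemma trge_of_indep (K : Type) {ι L : Type} [Field K] [Field L] [Algebra K L] (ω : ι → L)
    (I : Finset ι) (hI : AlgebraicIndependent K (fun i : I => ω i)) (m : ℕ) (hm : m ≤ I.card) :
    TrGe K ω m := by
  have e : Fin I.card ≃ I := I.equivFin.symm
  let f : Fin m → I := fun i => e (Fin.castLE hm i)
  have hf : Function.Injective f := fun a b h => by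
    have := e.injective h
    exact Fin.castLE_injective hm this
  refine ⟨fun i => ω (f i), ?_, fun i => ?_⟩
  · exact hI.comp f hf
  · exact IntermediateField.subset_adjoin _ _ ⟨_, rfl⟩

/-- a homomorphism and characters -/
lemma chr_map {ι K L : Type} [Fintype ι] [Field K] [Field L] (φ : K →+* L) (z : ι → K)
    (a : ι ⊕ ι → ℤ) : chr (fun i => φ (z i)) a = φ (chr z a) := by
  simp only [chr, map_mul, map_prod, map_zpow₀, map_sub, map_one]

/-- an algebraically closed extension of `ℂ` with an algebraically independent family -/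
lemma exField (I : Type) : ∃ (L2 : Type) (_ : Field L2) (_ : Algebra ℂ L2) (_ : IsAlgClosed L2)
    (x : I → L2), AlgebraicIndependent ℂ x := by
  refine ⟨AlgebraicClosure (FractionRing (MvPolynomial I ℂ)), inferInstance, inferInstance,
    inferInstance, fun i => algebraMap (FractionRing (MvPolynomial I ℂ)) _
      (algebraMap (MvPolynomial I ℂ) (FractionRing (MvPolynomial I ℂ)) (X i)), ?_⟩
  have h0 : AlgebraicIndependent ℂ (X : I → MvPolynomial I ℂ) :=
    MvPolynomial.algebraicIndependent_X I ℂ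
  have h1 := h0.map' (f := IsScalarTower.toAlgHom ℂ (MvPolynomial I ℂ)
    (FractionRing (MvPolynomial I ℂ))) (IsFractionRing.injective _ _)
  have h2 := h1.map' (f := IsScalarTower.toAlgHom ℂ (FractionRing (MvPolynomial I ℂ))
    (AlgebraicClosure (FractionRing (MvPolynomial I ℂ)))) (RingHom.injective _)
  exact h2

/-- the embedding of `k(y)` sending the `y_i` to the `x_i` -/
lemma exHom (k L L2 I : Type) [Field k] [Field L] [Algebra k L] [Field L2] [Algebra k L2]
    (y : I → L) (hy : AlgebraicIndependent k y) (x : I → L2) (hx : AlgebraicIndependent k x)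
    (s : Set L) (hs : Set.range y = s) :
    ∃ φ0 : IntermediateField.adjoin k s →+* L2,
      ∀ (i : I) (h : y i ∈ IntermediateField.adjoin k s), φ0 ⟨y i, h⟩ = x i := by
  subst hs
  refine ⟨(((IntermediateField.adjoin k (Set.range x)).val.comp
    hx.aevalEquivField.toAlgHom).comp hy.aevalEquivField.symm.toAlgHom).toRingHom,
    fun i hi => ?_⟩
  have h1 : hy.aevalEquivField.symm ⟨y i, hi⟩ = algebraMap _ _ (X i : MvPolynomial I k) := by
    rw [AlgEquiv.symm_apply_eq]
    apply Subtype.ext
    have := hy.aevalEquivField_algebraMap_apply_coe (X i)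
    rw [aeval_X] at this
    exact this.symm
  change ((hx.aevalEquivField (hy.aevalEquivField.symm ⟨y i, hi⟩) :
    IntermediateField.adjoin k (Set.range x)) : L2) = x i
  rw [h1]
  have := hx.aevalEquivField_algebraMap_apply_coe (X i)
  rw [aeval_X] at this
  exact this

/-- extension of a homomorphism to the relative algebraic closure -/
lemma exLift (K L L2 : Type) [Field K] [Field L] [Algebra K L] [Field L2] [IsAlgClosed L2]
    (φ0 : K →+* L2) :
    ∃ (E : Type) (_ : Field E) (ψ : E →+* L) (φ : E →+* L2) (j : K →+* E),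
      (∀ a, ψ (j a) = algebraMap K L a) ∧ (∀ a, φ (j a) = φ0 a) ∧
      ∀ y : L, IsAlgebraic K y → ∃ e, ψ e = y := by
  letI : Algebra K L2 := φ0.toAlgebra
  let φ : algebraicClosure K L →ₐ[K] L2 := IsAlgClosed.lift
  refine ⟨algebraicClosure K L, inferInstance, (algebraicClosure K L).val.toRingHom,
    φ.toRingHom, algebraMap K _, fun a => rfl, fun a => ?_, fun y hy => ?_⟩
  · exact φ.commutes a
  · exact ⟨⟨y, mem_algebraicClosure_iff.mpr hy⟩, rfl⟩

/-- evaluation and homomorphisms -/
lemma aeval_hom {ι E L : Type} [Field E] [Field L] [Algebra ℚ L] (c : ℚ →+* E) (ψ : E →+* L)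
    (z : ι → E) (g : MvPolynomial ι ℚ) :
    aeval (fun j => ψ (z j)) g = ψ (eval₂ c z g) := by
  rw [aeval_def, hom_eval₂]
  have h1 : algebraMap ℚ L = ψ.comp c := Subsingleton.elim _ _
  rw [h1]

end FQ

open FQ in
/-- **FQ** (descent from `ℂ` to `ℚ`). -/
theorem t_fq : S_FQ := by
  intro hCO ι _ ⟨S, hS1, hS2⟩
  classical
  refine ⟨S.image (fun p => p.comap (MvPolynomial.map (algebraMap ℚ ℂ))), ?_, ?_⟩
  · intro q hq
    obtain ⟨p, hp, rfl⟩ := Finset.mem_image.mp hq
    obtain ⟨L, iF, iA, ω, ⟨hω, m, Λ, hm, hΛ, hd⟩, rfl⟩ := hS1 p hp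
    letI : Algebra ℚ L := ((algebraMap ℂ L).comp (algebraMap ℚ ℂ)).toAlgebra
    haveI : IsScalarTower ℚ ℂ L := IsScalarTower.of_algebraMap_eq (fun _ => rfl)
    refine ⟨L, inferInstance, inferInstance, ω, ⟨hω, m, Λ, ?_, hΛ, hd⟩, ?_⟩
    · obtain ⟨I, hI, _, hI3⟩ := hCO ℂ L ι ω
      exact trge_of_indep ℚ ω I (hI.restrictScalars (algebraMap ℚ ℂ).injective) m
        ((hI3 m).mp hm)
    · ext f
      simp only [Ideal.mem_comap, RingHom.mem_ker]
      rw [MvPolynomial.aeval_map_algebraMap]
  · intro L _ _ ω ⟨hω, m, Λ, hm, hΛ, hd⟩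
    obtain ⟨I, hI, hI2, hI3⟩ := hCO ℚ L ι ω
    have hmI := (hI3 m).mp hm
    obtain ⟨L2, iF2, iA2, iC2, x, hx⟩ := exField I
    letI : Algebra ℚ L2 := ((algebraMap ℂ L2).comp (algebraMap ℚ ℂ)).toAlgebra
    haveI : IsScalarTower ℚ ℂ L2 := IsScalarTower.of_algebraMap_eq (fun _ => rfl)
    have hxQ : AlgebraicIndependent ℚ x := hx.restrictScalars (algebraMap ℚ ℂ).injective
    -- the embedding of `ℚ(ω_I)`
    have hrange : Set.range (fun i : I => ω i) = ω '' (I : Set ι) := by
      ext y
      simp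
    obtain ⟨φ0, hφ0⟩ := exHom ℚ L L2 I (fun i : I => ω i) hI x hxQ _ hrange
    obtain ⟨E, iE, ψ, φ, j, hψj, hφj, hE⟩ := exLift _ L L2 φ0
    choose ω' hωE using fun i => hE (ω i) (hI2 i)
    let ω2 : ι → L2 := fun j => φ (ω' j)
    have hω2I : ∀ i : I, ω2 i = x i := by
      intro i
      have hmem : ω i ∈ IntermediateField.adjoin ℚ (ω '' (I : Set ι)) :=
        IntermediateField.subset_adjoin _ _ ⟨i, i.2, rfl⟩
      have h1 : ω' i = j ⟨ω i, hmem⟩ := by
        apply ψ.injective
        rw [hωE, hψj]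
        rfl
      change φ (ω' i) = x i
      rw [h1, hφj]
      exact hφ0 i _
    have hrel : ∀ g : MvPolynomial ι ℚ, aeval ω2 g = 0 ↔ aeval ω g = 0 := by
      intro g
      let c : ℚ →+* E := j.comp (algebraMap ℚ _)
      have h1 : aeval ω2 g = φ (eval₂ c ω' g) := aeval_hom c φ ω' g
      have h2 : aeval ω g = ψ (eval₂ c ω' g) := by
        rw [← aeval_hom c ψ ω' g]
        congr 2
        exact funext fun i => (hωE i).symm
      rw [h1, h2, map_eq_zero_iff _ φ.injective, map_eq_zero_iff _ ψ.injective]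
    have hat : AtypPt ℂ ω2 := by
      refine ⟨fun i => ⟨fun h => ?_, fun h => ?_⟩, m, Λ, ?_, ?_, hd⟩
      · have h1 : ω' i = 0 := (map_eq_zero_iff _ φ.injective).mp h
        have h2 := hωE i
        rw [h1, map_zero] at h2
        exact (hω i).1 h2.symm
      · have h1 : φ (ω' i) = φ 1 := by
          rw [map_one]; exact h
        have h1 : ω' i = 1 := φ.injective h1
        have h2 := hωE i
        rw [h1, map_one] at h2
        exact (hω i).2 h2.symm
      · refine trge_of_indep ℂ ω2 I ?_ m hmI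
        have : (fun i : I => ω2 i) = x := funext hω2I
        rw [this]
        exact hx
      · intro a ha
        have h1 : chr ω a = 1 := hΛ a ha
        have h0 : ω = fun i => ψ (ω' i) := funext fun i => (hωE i).symm
        have h3 : chr ω' a = 1 := by
          apply ψ.injective
          rw [← chr_map, ← h0, h1, map_one]
        change chr (fun i => φ (ω' i)) a = 1
        rw [chr_map, h3, map_one]
    obtain ⟨p, hp, hle⟩ := hS2 L2 ω2 hat
    refine ⟨_, Finset.mem_image.mpr ⟨p, hp, rfl⟩, fun f hf => ?_⟩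
    have h1 := hle (Ideal.mem_comap.mp hf)
    rw [RingHom.mem_ker] at h1 ⊢
    have h2 : aeval ω2 (MvPolynomial.map (algebraMap ℚ ℂ) f) = aeval ω2 f :=
      MvPolynomial.aeval_map_algebraMap ℂ ω2 f
    exact (hrel f).mp (by rw [← h2]; exact h1)

end Pool.Agent.W206.CT
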