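import Mathlib

/-!
# Zilber's conjecture on intersections with tori and the powers of the line `x + y = 1`

Definitions and exact statements of the parts.
-/

set_option autoImplicit false

namespace Pool.Agent.W206.CT

open MvPolynomial

/-- The value `∏ z_i ^ a_i * ∏ (1 - z_i) ^ b_i` of the character `(a, b)` at the point
`(z_i, 1 - z_i)_i`. -/
noncomputable def chr {ι K : Type} [Fintype ι] [Field K] (z : ι → K) (a : ι ⊕ ι → ℤ) : K :=
  (∏ i, z i ^ a (Sum.inl i)) * ∏ i, (1 - z i) ^ a (Sum.inr i)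

/-- `K(ω)` contains `m` algebraically independent elements over `K`. -/
def TrGe (K : Type) {ι L : Type} [Field K] [Field L] [Algebra K L] (ω : ι → L) (m : ℕ) : Prop :=
  ∃ y : Fin m → L, AlgebraicIndependent K y ∧
    ∀ i, y i ∈ IntermediateField.adjoin K (Set.range ω)

/-- `ω` (with coordinates `≠ 0, 1`) satisfies
`trdeg K(ω) + rank {multiplicative relations between the ω_i, 1 - ω_i} > #ι`. -/
def AtypPt (K : Type) {ι L : Type} [Fintype ι] [Field K] [Field L] [Algebra K L] (ω : ι → L) :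
    Prop :=
  (∀ i, ω i ≠ 0 ∧ ω i ≠ 1) ∧ ∃ (m : ℕ) (Λ : Submodule ℤ (ι ⊕ ι → ℤ)), TrGe K ω m ∧
    (∀ a ∈ Λ, chr ω a = 1) ∧ Fintype.card ι < m + Module.finrank ℤ Λ

/-- Finitely many maximal atypical `K`-subvarieties of the `ι`-th power of the line. -/
def FinAtyp (K ι : Type) [Field K] [Fintype ι] : Prop :=
  ∃ S : Finset (Ideal (MvPolynomial ι K)),
    (∀ p ∈ S, ∃ (L : Type) (_ : Field L) (_ : Algebra K L) (ω : ι → L), AtypPt K ω ∧
      p = RingHom.ker (aeval ω : MvPolynomial ι K →ₐ[K] L)) ∧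
    ∀ (L : Type) [Field L] [Algebra K L] (ω : ι → L), AtypPt K ω →
      ∃ p ∈ S, p ≤ RingHom.ker (aeval ω : MvPolynomial ι K →ₐ[K] L)

/-- Pointwise form of Zilber's conjecture. -/
def PW : Prop :=
  ∀ (ι L : Type) [Fintype ι] [Field L] [Algebra ℚ L] (w : ι → L), (∀ i, w i ≠ 0) →
    (∀ a : ι → ℤ, ∏ i, w i ^ a i = 1 → a = 0) →
    ∃ f : MvPolynomial ι ℚ, aeval w f ≠ 0 ∧
      ∀ (L' : Type) [Field L'] [Algebra ℚ L'] (w' : ι → L'), (∀ i, w' i ≠ 0) →
        (∀ g : MvPolynomial ι ℚ, aeval w g = 0 → aeval w' g = 0) →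
        ∀ (m m' : ℕ) (Λ : Submodule ℤ (ι → ℤ)), ¬ TrGe ℚ w m → TrGe ℚ w' m' →
          (∀ a ∈ Λ, ∏ i, w' i ^ a i = 1) → m ≤ m' + Module.finrank ℤ Λ → aeval w' f = 0

/-- **D1** (specialisation to roots of unity). -/
def S_D1 : Prop :=
  ∀ (k : ℕ) (P : Ideal (MvPolynomial (Fin k) ℂ)), P.IsPrime → ∀ I : Finset (Fin k),
    AlgebraicIndependent ℂ (fun i : I => (Ideal.Quotient.mk P (X (i : Fin k)) :
      MvPolynomial (Fin k) ℂ ⧸ P)) →
    ∀ f : MvPolynomial (Fin k) ℂ, f ∉ P →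
      ∃ z : Fin k → ℂ, (∀ g ∈ P, eval z g = 0) ∧ eval z f ≠ 0 ∧
        ∀ i ∈ I, ∃ N : ℕ, 0 < N ∧ z i ^ N = 1

/-- **E1** (Jacobian inequality at a specialisation). -/
def S_E1 : Prop :=
  ∀ (ι L L' : Type) [Fintype ι] [Field L] [Algebra ℚ L] [Field L'] [Algebra ℚ L'] (r m : ℕ)
    (ω : ι → L) (ω' : ι → L'),
    (∀ g : MvPolynomial ι ℚ, aeval ω' g = 0 → aeval ω g = 0) →
    ∀ f : Fin r → MvPolynomial ι ℚ, (∀ i, aeval ω' (f i) = 0) →
      LinearIndependent L (fun i : Fin r => fun j : ι => aeval ω (pderiv j (f i))) →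
      TrGe ℚ ω' m → m + r ≤ Fintype.card ι

/-- **MI** (multiplicative independence of translates of a transcendental element). -/
def S_MI : Prop :=
  ∀ (K L J : Type) [Field K] [Field L] [Algebra K L] [Fintype J] (t : L), Transcendental K t →
    ∀ c : J → K, Function.Injective c → ∀ κ : K, κ ≠ 0 → ∀ n : J → ℤ,
      algebraMap K L κ * ∏ j, (t + algebraMap K L (c j)) ^ n j = 1 → n = 0

/-- **LI** (signed monomials with distinct partial sums). -/
def S_LI : Prop :=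
  ∀ (ι L : Type) [Fintype ι] [Field L] [Algebra ℚ L] (w : ι → L) (I : Finset ι) (l : ι),
    l ∉ I → (∀ i, w i ≠ 0) →
    IsAlgebraic (IntermediateField.adjoin ℚ (w '' (I : Set ι))) (w l) →
    ∃ (r : ℕ) (ε : Fin r → ℤ) (e : Fin r → ι → ℕ),
      (∀ j, ε j = 1 ∨ ε j = -1) ∧ (∀ j i, i ∉ I → i ≠ l → e j i = 0) ∧
      (∑ j, (ε j : L) * ∏ i, w i ^ e j i = 0) ∧
      (∑ j, (e j l : L) * ((ε j : L) * ∏ i, w i ^ e j i) ≠ 0) ∧
      Function.Injective (fun j : Fin r =>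
        ∑ i ∈ Finset.univ.filter (fun i : Fin r => i < j), (ε i : L) * ∏ s, w s ^ e i s)

/-- **NU** (numerator of a polynomial in fractions). -/
def S_NU : Prop :=
  ∀ (G R : Type) [Fintype G] [CommRing R] [Algebra ℚ R] (num den : G → R)
    (g : MvPolynomial G ℚ), ∃ (D : ℕ) (N : R),
      ∀ (F : Type) [Field F] [Algebra ℚ F] (φ : R →ₐ[ℚ] F), (∀ x, φ (den x) ≠ 0) →
        φ N = (∏ x, φ (den x)) ^ D * aeval (fun x => φ (num x) / φ (den x)) g

/-- **CO** (transcendence bases among the coordinates). -/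
def S_CO : Prop :=
  ∀ (K L ι : Type) [Field K] [Field L] [Algebra K L] [Fintype ι] (ω : ι → L),
    ∃ I : Finset ι, AlgebraicIndependent K (fun i : I => ω i) ∧
      (∀ j, IsAlgebraic (IntermediateField.adjoin K (ω '' (I : Set ι))) (ω j)) ∧
      ∀ m, TrGe K ω m ↔ m ≤ I.card

/-- **TD** (the transcendence degree does not change when the field of definition is replaced
by `ℂ`). -/
def S_TD : Prop :=
  ∀ (n : ℕ) (L : Type) [Field L] [Algebra ℂ L] [Algebra ℚ L] [IsScalarTower ℚ ℂ L]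
    (x : Fin n → L) (K₀ : IntermediateField ℚ ℂ) (T : Set (MvPolynomial (Fin n) ℂ)),
    RingHom.ker (aeval x : MvPolynomial (Fin n) ℂ →ₐ[ℂ] L) = Ideal.span T →
    (∀ f ∈ T, ∀ s, coeff s f ∈ K₀) →
    ∃ J : Finset (Fin n), AlgebraicIndependent ℂ (fun j : J => x j) ∧
      ∀ i, IsAlgebraic (IntermediateField.adjoin ℚ
        ((algebraMap ℂ L) '' (K₀ : Set ℂ) ∪ x '' (J : Set (Fin n)))) (x i)

/-- **FQ** (descent from `ℂ` to `ℚ`). -/
def S_FQ : Prop :=
  S_CO → ∀ (ι : Type) [Fintype ι], FinAtyp ℂ ι → FinAtyp ℚ ι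

/-- **TR** (change of the index set). -/
def S_TR : Prop :=
  ∀ (K ι ι' : Type) [Field K] [Fintype ι] [Fintype ι'], (ι ≃ ι') → FinAtyp K ι → FinAtyp K ι' 

/-- **JS** (coordinates complementary to a lattice). -/
def S_JS : Prop :=
  ∀ (T : Type) [Fintype T] (Λ : Submodule ℤ (T → ℤ)), ∃ J : Finset T,
    J.card + Module.finrank ℤ Λ = Fintype.card T ∧
    ∀ a ∈ Λ, (∀ t, t ∉ J → a t = 0) → a = 0

/-- **RK** (rank of the intersection of a lattice with a coordinate subspace). -/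
def S_RK : Prop :=
  ∀ (T U : Type) [Fintype T] [Fintype U] (φ : (U → ℤ) →ₗ[ℤ] (T → ℤ)), Function.Injective φ →
    ∀ Λ : Submodule ℤ (T → ℤ),
      Module.finrank ℤ Λ + Fintype.card U ≤ Fintype.card T + Module.finrank ℤ (Λ.comap φ)

/-- **RS** (rank of the preimage of a lattice under a surjective map). -/
def S_RS : Prop :=
  ∀ (T U : Type) [Fintype T] [Fintype U] (Φ : (T → ℤ) →ₗ[ℤ] (U → ℤ)), Function.Surjective Φ →
    ∀ Λ : Submodule ℤ (U → ℤ),
      Module.finrank ℤ (Λ.comap Φ) + Fintype.card U = Fintype.card T + Module.finrank ℤ Λ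

/-- **SI** (multiplicative independence of the torus variables). -/
def S_SI : Prop :=
  S_MI → ∀ (ι E Ω L : Type) [Fintype ι] [Fintype E] [Field Ω] [Field L] [Algebra Ω L]
    (lam : Option E → L), AlgebraicIndependent Ω lam →
    ∀ w : ι → Ω, (∀ i, w i ≠ 0) → (∀ a : ι → ℤ, ∏ i, w i ^ a i = 1 → a = 0) →
    ∀ (r : E → ℕ) (s : ∀ l, Fin (r l) → Ω), (∀ l, Function.Injective (s l)) →
    ∀ (a b : ℤ) (c d : ι → ℤ) (e : ∀ l, Fin (r l) → ℤ),
      lam none ^ a * (1 - lam none) ^ b * (∏ i, algebraMap Ω L (w i) ^ c i) *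
        (∏ i, (lam none + algebraMap Ω L (w i)) ^ d i) *
        (∏ l, ∏ j, (lam (some l) + algebraMap Ω L (s l j)) ^ e l j) = 1 →
      a = 0 ∧ b = 0 ∧ c = 0 ∧ d = 0 ∧ ∀ l j, e l j = 0

/-- **L1** (a point given by a good system of gates lies in no atypical subvariety). -/
def S_L1 : Prop :=
  S_E1 → ∀ (V G L : Type) [Fintype V] [Fintype G] [Field L] [Algebra ℚ L] (u : V → L)
    (α β : G → V → ℤ) (ε ε' : G → ℤ) (ω : G → L),
    (∀ v, u v ≠ 0) → (∀ a : V → ℤ, ∏ v, u v ^ a v = 1 → a = 0) →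
    (∀ g, ε g = 1 ∨ ε g = -1) → (∀ g, ε' g = 1 ∨ ε' g = -1) →
    (∀ g, ω g = (ε g : L) * ∏ v, u v ^ α g v) →
    (∀ g, 1 - ω g = (ε' g : L) * ∏ v, u v ^ β g v) →
    LinearIndependent L (fun g : G => fun v : V => ω g * (α g v : L) + (1 - ω g) * (β g v : L)) →
    ∀ (L' : Type) [Field L'] [Algebra ℚ L'] (ω' : G → L'), AtypPt ℚ ω' →
      ¬ ∀ g : MvPolynomial G ℚ, aeval ω' g = 0 → aeval ω g = 0

/-- **LG** (linear independence from unique solvability). -/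
def S_LG : Prop :=
  ∀ (V G L : Type) [Fintype V] [Fintype G] [Field L] (γ : G → V → L) (B : Finset V),
    B.card + Fintype.card G ≤ Fintype.card V →
    (∀ δ : V → L, (∀ g, ∑ v, γ g v * δ v = 0) → (∀ v ∈ B, δ v = 0) → δ = 0) →
    LinearIndependent L γ

/-- Zilber's conjecture on intersections with tori (the frozen statement). -/
def Zil : Prop :=
  ∀ (n : ℕ) (P : Ideal (MvPolynomial (Fin n) ℂ)), P.IsPrime →
    (∏ i : Fin n, (MvPolynomial.X i : MvPolynomial (Fin n) ℂ)) ∉ P →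
    (∀ f : MvPolynomial (Fin n) ℂ,
      (∀ x : Fin n → ℂ, (∀ i, x i ≠ 0) → (∀ g ∈ P, MvPolynomial.eval x g = 0) →
        (∃ Λ : Submodule ℤ (Fin n → ℤ),
          ringKrullDim (MvPolynomial (Fin n) ℂ ⧸ P)
              + ((n - Module.finrank ℤ Λ : ℕ) : WithBot ℕ∞) + 1 ≤ (n : WithBot ℕ∞) ∧
          ∀ a ∈ Λ, ∏ i : Fin n, x i ^ a i = 1) →
        MvPolynomial.eval x f = 0) →
      ∀ x : Fin n → ℂ, (∀ i, x i ≠ 0) → (∀ g ∈ P, MvPolynomial.eval x g = 0) →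
        MvPolynomial.eval x f = 0) →
    ∃ a : Fin n → ℤ, a ≠ 0 ∧
      ∀ x : Fin n → ℂ, (∀ i, x i ≠ 0) → (∀ g ∈ P, MvPolynomial.eval x g = 0) →
        ∏ i : Fin n, x i ^ a i = 1

/-- The key lemma for the implication from the conjecture of Zilber to `FinAtyp`. -/
def KL : Prop :=
  ∀ (k : ℕ) (R : Ideal (MvPolynomial (Fin k) ℂ)), R.IsPrime →
    (∀ i, X i ∉ R ∧ (1 - X i : MvPolynomial (Fin k) ℂ) ∉ R) →
    (∀ (L : Type) [Field L] [Algebra ℂ L] (ω : Fin k → L), AtypPt ℂ ω →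
      R ≠ RingHom.ker (aeval ω : MvPolynomial (Fin k) ℂ →ₐ[ℂ] L)) →
    ∃ g : MvPolynomial (Fin k) ℂ, g ∉ R ∧
      ∀ (L : Type) [Field L] [Algebra ℂ L] (ω : Fin k → L), AtypPt ℂ ω →
        R ≤ RingHom.ker (aeval ω : MvPolynomial (Fin k) ℂ →ₐ[ℂ] L) → aeval ω g = 0

/-- **KL**. -/
def S_KL : Prop := S_D1 → S_CO → S_JS → S_RK → Zil → KL

/-- **DA** (Noetherian induction). -/
def S_DA : Prop := KL → ∀ k : ℕ, FinAtyp ℂ (Fin k)

/-- **SB** (from the pointwise form to Zilber's conjecture). -/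
def S_SB : Prop := S_TD → S_CO → S_MI → S_SI → PW → Zil

end Pool.Agent.W206.CT
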