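import Mathlib
import Pool.Agent.W206.CT.Stm

/-!
# CT-D1: specialisation to roots of unity
-/

set_option autoImplicit false

namespace Pool.Agent.W206.CT

open MvPolynomial

namespace D1

/-- there are infinitely many roots of unity -/
theorem infinite_roots : {z : ℂ | ∃ N : ℕ, 0 < N ∧ z ^ N = 1}.Infinite := by
  refine Set.infinite_of_injective_forall_mem
    (f := fun n : ℕ => Complex.exp (2 * Real.pi * Complex.I / ((n + 1 : ℕ) : ℂ))) ?_ ?_
  · intro a b hab
    have h1 := (Complex.isPrimitiveRoot_exp (a + 1) (Nat.succ_ne_zero a)).eq_orderOf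
    have h2 := (Complex.isPrimitiveRoot_exp (b + 1) (Nat.succ_ne_zero b)).eq_orderOf
    have h3 : Complex.exp (2 * Real.pi * Complex.I / ((a + 1 : ℕ) : ℂ)) =
      Complex.exp (2 * Real.pi * Complex.I / ((b + 1 : ℕ) : ℂ)) := hab
    rw [h3, ← h2] at h1
    omega
  · intro n
    exact ⟨n + 1, Nat.succ_pos n, (Complex.isPrimitiveRoot_exp (n + 1) (Nat.succ_ne_zero n)).pow_eq_one⟩

/-- a nonzero polynomial does not vanish at some tuple of roots of unity -/
theorem exists_roots {σ : Type} (u : MvPolynomial σ ℂ) (hu : u ≠ 0) :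
    ∃ ζ : σ → ℂ, (∀ i, ∃ N : ℕ, 0 < N ∧ ζ i ^ N = 1) ∧ eval ζ u ≠ 0 := by
  by_contra hcon
  push Not at hcon
  apply hu
  refine funext_set (fun _ => {z : ℂ | ∃ N : ℕ, 0 < N ∧ z ^ N = 1}) (fun _ => infinite_roots) ?_
  intro x hx
  rw [map_zero]
  exact hcon x fun i => hx i (Set.mem_univ i)

end D1

/-- **D1**. -/
theorem t_d1 : S_D1 := by
  intro k P hP I hI f hf
  classical
  let A := MvPolynomial (Fin k) ℂ ⧸ P
  let B := MvPolynomial I ℂ
  have hfA : (Ideal.Quotient.mk P f : A) ≠ 0 := by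
    rw [Ne, Ideal.Quotient.eq_zero_iff_mem]
    exact hf
  let φ : B →+* A := (aeval (fun i : I => (Ideal.Quotient.mk P (X (i : Fin k)) : A)) :
    B →ₐ[ℂ] A).toRingHom
  have hφ : Function.Injective φ := hI
  have hft : φ.FinitePresentation := by
    apply RingHom.FinitePresentation.of_finiteType.1
    apply RingHom.FiniteType.of_comp_finiteType (f := (C : ℂ →+* B))
    have h1 : φ.comp (C : ℂ →+* B) = algebraMap ℂ A := by
      ext z
      exact (aeval (fun i : I => (Ideal.Quotient.mk P (X (i : Fin k)) : A))).commutes z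
    rw [h1]
    have h2 : Algebra.FiniteType ℂ A := inferInstance
    exact RingHom.finiteType_algebraMap.2 h2
  have hc := PrimeSpectrum.isConstructible_comap_image hft
    (PrimeSpectrum.isConstructible_basicOpen (f := (Ideal.Quotient.mk P f : A)))
  obtain ⟨S, hS⟩ := PrimeSpectrum.exists_constructibleSetData_iff.2 hc
  -- the generic point lies in the image
  have hdom : IsDomain A := inferInstance
  let ηA : PrimeSpectrum A := ⟨⊥, Ideal.isPrime_bot⟩
  have hη : PrimeSpectrum.comap φ ηA ∈ S.toSet := by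
    rw [hS]
    refine ⟨ηA, ?_, rfl⟩
    change (Ideal.Quotient.mk P f : A) ∉ (⊥ : Ideal A)
    rw [Ideal.mem_bot]
    exact hfA
  obtain ⟨D, hD, hD2⟩ := Set.mem_iUnion₂.1 hη
  have hbot : ∀ b : B, b ∈ (PrimeSpectrum.comap φ ηA).asIdeal ↔ b = 0 := by
    intro b
    change φ b ∈ (⊥ : Ideal A) ↔ b = 0
    rw [Ideal.mem_bot, map_eq_zero_iff φ hφ]
  have hg : ∀ i, D.g i = 0 := by
    intro i
    have h1 := hD2.1
    rw [PrimeSpectrum.mem_zeroLocus] at h1
    exact (hbot _).1 (h1 (Set.mem_range_self i))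
  have hu : D.f ≠ 0 := by
    intro h0
    apply hD2.2
    rw [PrimeSpectrum.mem_zeroLocus]
    rintro b hb
    rw [Set.mem_singleton_iff] at hb
    subst hb
    exact (hbot _).2 h0
  obtain ⟨ζ, hζ1, hζ2⟩ := D1.exists_roots D.f hu
  -- the maximal ideal of the point
  let mζ : PrimeSpectrum B := ⟨RingHom.ker (eval ζ), RingHom.ker_isPrime _⟩
  have hmζ : mζ ∈ S.toSet := by
    refine Set.mem_iUnion₂.2 ⟨D, hD, ?_, ?_⟩
    · rw [PrimeSpectrum.mem_zeroLocus]
      rintro b ⟨i, rfl⟩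
      rw [hg i]
      exact Ideal.zero_mem _
    · rw [PrimeSpectrum.mem_zeroLocus]
      intro h
      have h1 : D.f ∈ RingHom.ker (eval ζ) := h (Set.mem_singleton _)
      exact hζ2 h1
  rw [hS] at hmζ
  obtain ⟨q, hq1, hq2⟩ := hmζ
  let Q : Ideal (MvPolynomial (Fin k) ℂ) := q.asIdeal.comap (Ideal.Quotient.mk P)
  have hQ : Q.IsPrime := Ideal.IsPrime.comap _
  have hPQ : P ≤ Q := by
    intro g hgP
    change (Ideal.Quotient.mk P) g ∈ q.asIdeal
    rw [Ideal.Quotient.eq_zero_iff_mem.2 hgP]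
    exact Ideal.zero_mem _
  have hfQ : f ∉ Q := hq1
  have hXQ : ∀ i : I, (X (i : Fin k) - C (ζ i) : MvPolynomial (Fin k) ℂ) ∈ Q := by
    intro i
    have h1 : (X i - C (ζ i) : B) ∈ mζ.asIdeal := by
      change eval ζ (X i - C (ζ i) : B) = 0
      rw [map_sub, eval_X, eval_C, sub_self]
    rw [← hq2] at h1
    have h2 : φ (X i - C (ζ i) : B) ∈ q.asIdeal := h1
    have h3 : φ (X i - C (ζ i) : B) =
        Ideal.Quotient.mk P (X (i : Fin k) - C (ζ i) : MvPolynomial (Fin k) ℂ) := by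
      change aeval (fun i : I => (Ideal.Quotient.mk P (X (i : Fin k)) : A)) (X i - C (ζ i) : B) = _
      rw [map_sub, map_sub, aeval_X, aeval_C]
      rfl
    rw [h3] at h2
    exact h2
  have hns : f ∉ vanishingIdeal ℂ (zeroLocus ℂ Q) := by
    rw [MvPolynomial.IsPrime.vanishingIdeal_zeroLocus]
    exact hfQ
  rw [mem_vanishingIdeal_iff] at hns
  push Not at hns
  obtain ⟨z, hz, hzf⟩ := hns
  rw [mem_zeroLocus_iff] at hz
  refine ⟨z, fun g hgP => ?_, ?_, fun i hi => ?_⟩
  · have := hz g (hPQ hgP)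
    rwa [aeval_eq_eval] at this
  · rwa [aeval_eq_eval] at hzf
  · have h1 := hz _ (hXQ ⟨i, hi⟩)
    rw [map_sub, aeval_X, aeval_C, sub_eq_zero] at h1
    have h2 : z i = ζ ⟨i, hi⟩ := h1
    rw [h2]
    exact hζ1 _

end Pool.Agent.W206.CT
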