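import Pool.Agent.W206.CT.Stm

/-!
CT-DA: Noetherian induction.
-/

set_option autoImplicit false

namespace Pool.Agent.W206.CT

open MvPolynomial

/-- **DA**. -/
theorem t_da : S_DA := by
  intro hKL k
  classical
  set A : Set (Ideal (MvPolynomial (Fin k) ℂ)) :=
    {p | ∃ (L : Type) (_ : Field L) (_ : Algebra ℂ L) (ω : Fin k → L), AtypPt ℂ ω ∧
      p = RingHom.ker (aeval ω : MvPolynomial (Fin k) ℂ →ₐ[ℂ] L)} with hA
  set I : Ideal (MvPolynomial (Fin k) ℂ) := sInf A with hI
  have hfin : I.minimalPrimes.Finite := Ideal.finite_minimalPrimes_of_isNoetherianRing _ I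
  have hcov : ∀ Q ∈ A, ∃ p ∈ I.minimalPrimes, p ≤ Q := by
    intro Q hQ
    have hIQ : I ≤ Q := sInf_le hQ
    obtain ⟨L, _, _, ω, _, rfl⟩ := hQ
    have : (RingHom.ker (aeval ω : MvPolynomial (Fin k) ℂ →ₐ[ℂ] L)).IsPrime :=
      RingHom.ker_isPrime _
    exact Ideal.exists_minimalPrimes_le hIQ
  refine ⟨hfin.toFinset, fun R hR => ?_, fun L _ _ ω hω => ?_⟩
  · rw [Set.Finite.mem_toFinset] at hR
    by_contra hRA
    have hprime : R.IsPrime := hR.1.1
    -- the claim
    have claim : ∀ x : MvPolynomial (Fin k) ℂ, (∀ Q ∈ A, R ≤ Q → x ∈ Q) → x ∈ R := by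
      intro x hx
      have hno : ¬ (hfin.toFinset.erase R).inf id ≤ R := by
        intro hle
        rw [Ideal.IsPrime.inf_le' hprime] at hle
        obtain ⟨R', hR', hle'⟩ := hle
        rw [Finset.mem_erase, Set.Finite.mem_toFinset] at hR'
        have h1 : R ≤ R' := hR.2 hR'.2.1 hle'
        exact hR'.1 (le_antisymm hle' h1)
      obtain ⟨h, hh1, hh2⟩ := SetLike.not_le_iff_exists.1 hno
      have hxh : x * h ∈ I := by
        rw [hI, Submodule.mem_sInf]
        intro Q hQ
        obtain ⟨R', hR', hle⟩ := hcov Q hQ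
        by_cases e : R' = R
        · rw [e] at hle
          exact Ideal.mul_mem_right _ _ (hx Q hQ hle)
        · have h3 : R' ∈ hfin.toFinset.erase R := by
            rw [Finset.mem_erase, Set.Finite.mem_toFinset]
            exact ⟨e, hR'⟩
          have h4 : h ∈ R' := (Finset.inf_le (f := id) h3) hh1
          exact Ideal.mul_mem_left _ _ (hle h4)
      exact (hprime.mem_or_mem (hR.1.2 hxh)).resolve_right hh2
    have hne : ∃ Q ∈ A, R ≤ Q := by
      by_contra hcon
      push Not at hcon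
      exact hprime.ne_top ((Ideal.eq_top_iff_one R).2 (claim 1 fun Q hQ hle =>
        absurd hle (hcon Q hQ)))
    have hX : ∀ i, X i ∉ R ∧ (1 - X i : MvPolynomial (Fin k) ℂ) ∉ R := by
      obtain ⟨Q, ⟨L, _, _, ω, hω, rfl⟩, hle⟩ := hne
      intro i
      constructor
      · intro h1
        have h2 := hle h1
        rw [RingHom.mem_ker] at h2
        have h3 : aeval ω (X i : MvPolynomial (Fin k) ℂ) = 0 := h2
        rw [aeval_X] at h3
        exact (hω.1 i).1 h3
      · intro h1
        have h2 := hle h1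
        rw [RingHom.mem_ker] at h2
        have h3 : aeval ω (1 - X i : MvPolynomial (Fin k) ℂ) = 0 := h2
        rw [map_sub, map_one, aeval_X, sub_eq_zero] at h3
        exact (hω.1 i).2 h3.symm
    obtain ⟨g, hg1, hg2⟩ := hKL k R hprime hX (fun L _ _ ω hω heq =>
      hRA ⟨L, _, _, ω, hω, heq⟩)
    refine hg1 (claim g ?_)
    rintro Q ⟨L, _, _, ω, hω, rfl⟩ hle
    rw [RingHom.mem_ker]
    exact hg2 L ω hω hle
  · obtain ⟨p, hp, hle⟩ := hcov _ ⟨L, _, _, ω, hω, rfl⟩
    exact ⟨p, by rwa [Set.Finite.mem_toFinset], hle⟩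

end Pool.Agent.W206.CT
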