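import Pool.Agent.W206.CT.Stm

set_option autoImplicit false

namespace Pool.Agent.W206.CT


theorem t_js : S_JS := by
  intro T _ Λ
  classical
  obtain ⟨J, hJ, hmax⟩ := Finset.exists_max_image
    (Finset.univ.filter (fun J : Finset T => ∀ a ∈ Λ, (∀ t, t ∉ J → a t = 0) → a = 0))
    Finset.card ⟨∅, by
      rw [Finset.mem_filter]
      refine ⟨Finset.mem_univ _, fun a _ h => ?_⟩
      funext t
      exact h t (Finset.notMem_empty t)⟩
  rw [Finset.mem_filter] at hJ
  have hJ2 := hJ.2
  refine ⟨J, ?_, hJ2⟩
  have hcard : Fintype.card {t : T // t ∉ J} + J.card = Fintype.card T := by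
    have h1 := Fintype.card_subtype_compl (fun t : T => t ∈ J)
    have h2 : Fintype.card {t : T // t ∈ J} = J.card := Fintype.card_coe J
    have h3 : J.card ≤ Fintype.card T := Finset.card_le_univ J
    rw [h2] at h1
    have h4 : Fintype.card {t : T // t ∉ J} = Fintype.card T - J.card := by
      rw [← h1]
    omega
  have hup : Module.finrank ℤ Λ ≤ Fintype.card {t : T // t ∉ J} := by
    let f : Λ →ₗ[ℤ] ({t : T // t ∉ J} → ℤ) :=
      (LinearMap.funLeft ℤ ℤ (fun t : {t : T // t ∉ J} => (t : T))).comp Λ.subtype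
    have hf : Function.Injective f := by
      rw [← LinearMap.ker_eq_bot, LinearMap.ker_eq_bot']
      intro a ha
      apply Subtype.ext
      refine hJ2 a.1 a.2 fun t ht => ?_
      exact congrFun ha ⟨t, ht⟩
    have h := LinearMap.finrank_le_finrank_of_injective hf
    rwa [Module.finrank_fintype_fun_eq_card] at h
  have hex : ∀ s : {t : T // t ∉ J}, ∃ a ∈ Λ, (∀ t, t ∉ J → t ≠ s.1 → a t = 0) ∧ a s.1 ≠ 0 := by
    intro s
    by_contra hcon
    push Not at hcon
    have hmem : insert s.1 J ∈ Finset.univ.filter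
        (fun J : Finset T => ∀ a ∈ Λ, (∀ t, t ∉ J → a t = 0) → a = 0) := by
      rw [Finset.mem_filter]
      refine ⟨Finset.mem_univ _, fun a ha h => ?_⟩
      have h1 := hcon a ha (fun t ht hts => h t (by
        rw [Finset.mem_insert, not_or]; exact ⟨hts, ht⟩))
      refine hJ2 a ha fun t ht => ?_
      by_cases hts : t = s.1
      · rw [hts]; exact h1
      · exact h t (by rw [Finset.mem_insert, not_or]; exact ⟨hts, ht⟩)
    have h2 := hmax _ hmem
    rw [Finset.card_insert_of_notMem s.2] at h2
    omega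
  choose a haΛ ha0 hane using hex
  have hli : LinearIndependent ℤ (fun s : {t : T // t ∉ J} => (⟨a s, haΛ s⟩ : Λ)) := by
    rw [Fintype.linearIndependent_iff]
    intro g hg s
    have h1 : ∑ r : {t : T // t ∉ J}, g r * a r s.1 = 0 := by
      have h2 := congrArg (fun z : Λ => (z : T → ℤ) s.1) hg
      simpa [Finset.sum_apply] using h2
    rw [Finset.sum_eq_single s] at h1
    · exact (mul_eq_zero.1 h1).resolve_right (hane s)
    · intro r _ hr
      have h3 : s.1 ≠ r.1 := fun h => hr (Subtype.ext h.symm)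
      rw [ha0 r s.1 s.2 h3, mul_zero]
    · intro h
      exact absurd (Finset.mem_univ s) h
  have hlow : Fintype.card {t : T // t ∉ J} ≤ Module.finrank ℤ Λ :=
    hli.fintype_card_le_finrank
  omega

end Pool.Agent.W206.CT
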