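import Pool.Agent.W206.CT.Stm

/-!
# S_L1: a point given by a good system of gates lies in no atypical subvariety
-/

set_option autoImplicit false

namespace Pool.Agent.W206.CT

open MvPolynomial

namespace L1

theorem zp_split {K : Type} [Field K] {z : K} (hz : z ≠ 0) (n : ℤ) :
    z ^ n.toNat = z ^ n * z ^ (-n).toNat := by
  rw [← zpow_natCast z n.toNat, ← zpow_natCast z (-n).toNat, ← zpow_add₀ hz]
  congr 1
  omega

section

variable {G : Type} [Fintype G]

/-- a monomial in the `X g` and `1 - X g` -/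
noncomputable def mon (e : G ⊕ G → ℕ) : MvPolynomial G ℚ :=
  (∏ g, X g ^ e (Sum.inl g)) * ∏ g, (1 - X g) ^ e (Sum.inr g)

theorem aeval_mon {L : Type} [Field L] [Algebra ℚ L] (z : G → L) (e : G ⊕ G → ℕ) :
    aeval z (mon e) = (∏ g, z g ^ e (Sum.inl g)) * ∏ g, (1 - z g) ^ e (Sum.inr g) := by
  unfold mon
  simp [map_prod]

theorem chr_split {L : Type} [Field L] [Algebra ℚ L] {z : G → L} (hz : ∀ g, z g ≠ 0 ∧ z g ≠ 1)
    (a : G ⊕ G → ℤ) : aeval z (mon fun t => (a t).toNat) =
      chr z a * aeval z (mon fun t => (-a t).toNat) := by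
  rw [aeval_mon, aeval_mon]
  unfold chr
  have h1 : ∀ g, z g ^ (a (Sum.inl g)).toNat =
      z g ^ a (Sum.inl g) * z g ^ (-a (Sum.inl g)).toNat := fun g => zp_split (hz g).1 _
  have h2 : ∀ g, (1 - z g) ^ (a (Sum.inr g)).toNat =
      (1 - z g) ^ a (Sum.inr g) * (1 - z g) ^ (-a (Sum.inr g)).toNat :=
    fun g => zp_split (sub_ne_zero.2 (hz g).2.symm) _
  rw [Finset.prod_congr rfl fun g _ => h1 g, Finset.prod_congr rfl fun g _ => h2 g,
    Finset.prod_mul_distrib, Finset.prod_mul_distrib]
  ring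

theorem mon_ne {L : Type} [Field L] [Algebra ℚ L] {z : G → L} (hz : ∀ g, z g ≠ 0 ∧ z g ≠ 1)
    (e : G ⊕ G → ℕ) : aeval z (mon e) ≠ 0 := by
  rw [aeval_mon]
  refine mul_ne_zero ?_ ?_
  · exact Finset.prod_ne_zero_iff.2 fun g _ => pow_ne_zero _ (hz g).1
  · exact Finset.prod_ne_zero_iff.2 fun g _ => pow_ne_zero _ (sub_ne_zero.2 (hz g).2.symm)

/-- the polynomial of a relation -/
noncomputable def pol (a : G ⊕ G → ℤ) : MvPolynomial G ℚ :=
  mon (fun t => (a t).toNat) - mon fun t => (-a t).toNat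

theorem pol_zero_iff {L : Type} [Field L] [Algebra ℚ L] {z : G → L}
    (hz : ∀ g, z g ≠ 0 ∧ z g ≠ 1) (a : G ⊕ G → ℤ) : aeval z (pol a) = 0 ↔ chr z a = 1 := by
  unfold pol
  rw [map_sub, sub_eq_zero, chr_split hz]
  constructor
  · intro h
    exact (mul_eq_right₀ (mon_ne hz _)).1 h
  · intro h
    rw [h, one_mul]

/-! ### logarithmic derivatives -/

section

variable {L : Type} [Field L] [Algebra ℚ L] (z : G → L) (j : G)

/-- logarithmic derivative at a point -/
noncomputable def ld (P : MvPolynomial G ℚ) : L := aeval z (pderiv j P) / aeval z P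

theorem ld_one : ld z j 1 = 0 := by
  unfold ld
  simp

theorem ld_mul {P Q : MvPolynomial G ℚ} (hP : aeval z P ≠ 0) (hQ : aeval z Q ≠ 0) :
    ld z j (P * Q) = ld z j P + ld z j Q := by
  unfold ld
  rw [pderiv_mul, map_add, map_mul, map_mul, map_mul]
  field_simp

theorem ld_pow {P : MvPolynomial G ℚ} (hP : aeval z P ≠ 0) (n : ℕ) :
    ld z j (P ^ n) = n * ld z j P := by
  induction n with
  | zero => simp [ld_one]
  | succ n ih =>
    rw [pow_succ, ld_mul z j (by rw [map_pow]; exact pow_ne_zero _ hP) hP, ih]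
    push_cast
    ring

theorem ld_prod {ι : Type} (s : Finset ι) (P : ι → MvPolynomial G ℚ)
    (hP : ∀ i ∈ s, aeval z (P i) ≠ 0) : ld z j (∏ i ∈ s, P i) = ∑ i ∈ s, ld z j (P i) := by
  classical
  induction s using Finset.induction_on with
  | empty => simp [ld_one]
  | insert a s ha ih =>
    rw [Finset.prod_insert ha, Finset.sum_insert ha, ld_mul z j (hP a (Finset.mem_insert_self _ _))
      (by rw [map_prod]; exact Finset.prod_ne_zero_iff.2 fun i hi =>
        hP i (Finset.mem_insert_of_mem hi)), ih fun i hi => hP i (Finset.mem_insert_of_mem hi)]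

theorem ld_X [DecidableEq G] (g : G) : ld z j (X g) = if g = j then 1 / z g else 0 := by
  unfold ld
  rw [pderiv_X, aeval_X]
  by_cases h : g = j
  · subst h
    simp
  · rw [Pi.single_eq_of_ne h]
    simp [h]

theorem ld_Y [DecidableEq G] (g : G) :
    ld z j (1 - X g) = if g = j then -1 / (1 - z g) else 0 := by
  unfold ld
  rw [map_sub, pderiv_one, zero_sub, pderiv_X, map_neg, map_sub, map_one, aeval_X]
  by_cases h : g = j
  · subst h
    simp
  · rw [Pi.single_eq_of_ne h]
    simp [h]

theorem ld_mon (hz : ∀ g, z g ≠ 0 ∧ z g ≠ 1) (e : G ⊕ G → ℕ) :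
    ld z j (mon e) = e (Sum.inl j) / z j - e (Sum.inr j) / (1 - z j) := by
  classical
  have h1 : ∀ g, aeval z (X g : MvPolynomial G ℚ) ≠ 0 := fun g => by
    rw [aeval_X]; exact (hz g).1
  have h2 : ∀ g, aeval z (1 - X g : MvPolynomial G ℚ) ≠ 0 := fun g => by
    rw [map_sub, map_one, aeval_X]; exact sub_ne_zero.2 (hz g).2.symm
  unfold mon
  rw [ld_mul, ld_prod, ld_prod]
  · have e1 : ∀ g, ld z j (X g ^ e (Sum.inl g)) =
        if g = j then (e (Sum.inl g) : L) * (1 / z g) else 0 := by
      intro g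
      rw [ld_pow z j (h1 g), ld_X]
      split_ifs <;> simp
    have e2 : ∀ g, ld z j ((1 - X g) ^ e (Sum.inr g)) =
        if g = j then (e (Sum.inr g) : L) * (-1 / (1 - z g)) else 0 := by
      intro g
      rw [ld_pow z j (h2 g), ld_Y]
      split_ifs <;> simp
    rw [Finset.sum_congr rfl fun g _ => e1 g, Finset.sum_congr rfl fun g _ => e2 g,
      Finset.sum_ite_eq', Finset.sum_ite_eq']
    simp only [Finset.mem_univ, if_true]
    ring
  · intro g _
    rw [map_pow]
    exact pow_ne_zero _ (h2 g)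
  · intro g _
    rw [map_pow]
    exact pow_ne_zero _ (h1 g)
  · rw [map_prod]
    refine Finset.prod_ne_zero_iff.2 fun g _ => ?_
    rw [map_pow]
    exact pow_ne_zero _ (h1 g)
  · rw [map_prod]
    refine Finset.prod_ne_zero_iff.2 fun g _ => ?_
    rw [map_pow]
    exact pow_ne_zero _ (h2 g)

theorem grad (hz : ∀ g, z g ≠ 0 ∧ z g ≠ 1) (a : G ⊕ G → ℤ) (ha : chr z a = 1) :
    aeval z (pderiv j (pol a)) = aeval z (mon fun t => (a t).toNat) *
      ((a (Sum.inl j) : L) / z j - (a (Sum.inr j) : L) / (1 - z j)) := by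
  have h0 : aeval z (mon fun t => (a t).toNat) = aeval z (mon fun t => (-a t).toNat) := by
    rw [chr_split hz, ha, one_mul]
  have h1 := ld_mon z j hz fun t => (a t).toNat
  have h2 := ld_mon z j hz fun t => (-a t).toNat
  unfold ld at h1 h2
  rw [div_eq_iff (mon_ne hz _)] at h1 h2
  unfold pol
  rw [map_sub, map_sub, h1, h2, ← h0]
  have e1 : ∀ n : ℤ, (n : L) = (n.toNat : L) - ((-n).toNat : L) := by
    intro n
    have : n = (n.toNat : ℤ) - ((-n).toNat : ℤ) := by omega
    conv_lhs => rw [this]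
    push_cast
    rfl
  rw [e1 (a (Sum.inl j)), e1 (a (Sum.inr j))]
  ring

end

/-- integer vectors, independent over the integers, are independent over a field of
characteristic zero -/
theorem li_cast {L T : Type} [Field L] [CharZero L] [Fintype T] {r : ℕ} (l : Fin r → T → ℤ)
    (hl : LinearIndependent ℤ l) (c : Fin r → L) (hc : ∀ t, ∑ i, c i * (l i t : L) = 0) :
    c = 0 := by
  classical
  -- over the rationals
  have h1 : LinearIndependent ℤ (fun i : Fin r => fun t : T => (l i t : ℚ)) := by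
    have hinj : Function.Injective ((Int.castAddHom ℚ).toIntLinearMap.compLeft T) := by
      intro x y hxy
      funext t
      exact Int.cast_injective (congrFun hxy t)
    exact hl.map' _ (LinearMap.ker_eq_bot.2 hinj)
  have h2 : LinearIndependent ℚ (fun i : Fin r => fun t : T => (l i t : ℚ)) :=
    (LinearIndependent.iff_fractionRing ℤ ℚ).1 h1
  set A : (Fin r → ℚ) →ₗ[ℚ] (T → ℚ) := Fintype.linearCombination ℚ
    (fun i : Fin r => fun t : T => (l i t : ℚ)) with hA
  have hker : LinearMap.ker A = ⊥ := by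
    rw [LinearMap.ker_eq_bot']
    intro x hx
    have h3 := Fintype.linearIndependent_iff.1 h2 x (by
      rw [hA, Fintype.linearCombination_apply] at hx
      exact hx)
    funext i
    exact h3 i
  obtain ⟨B, hB⟩ := A.exists_leftInverse_of_injective hker
  have hAi : ∀ i, A (Pi.single i 1) = fun t : T => (l i t : ℚ) := by
    intro i
    rw [hA, Fintype.linearCombination_apply_single, one_smul]
  have hBi : ∀ i j, ∑ t, B (Pi.single t 1) j * (l i t : ℚ) = if i = j then 1 else 0 := by
    intro i j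
    have e1 : B (A (Pi.single i 1)) = Pi.single i 1 := by
      have := LinearMap.congr_fun hB (Pi.single i (1 : ℚ))
      simpa using this
    have e2 : (fun t : T => (l i t : ℚ)) = ∑ t, (l i t : ℚ) • Pi.single t (1 : ℚ) := by
      funext t
      simp [Finset.sum_apply, Pi.single_apply]
    rw [hAi i, e2, map_sum] at e1
    have e3 := congrFun e1 j
    rw [Finset.sum_apply, Pi.single_apply] at e3
    rw [show (if i = j then (1 : ℚ) else 0) = if j = i then 1 else 0 by simp [eq_comm], ← e3]
    refine Finset.sum_congr rfl fun t _ => ?_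
    rw [map_smul, Pi.smul_apply, smul_eq_mul, mul_comm]
  funext j
  have h4 : ∑ t, ((B (Pi.single t 1) j : ℚ) : L) * ∑ i, c i * (l i t : L) = 0 :=
    Finset.sum_eq_zero fun t _ => by rw [hc t, mul_zero]
  have h5 : ∑ t, ((B (Pi.single t 1) j : ℚ) : L) * ∑ i, c i * (l i t : L) =
      ∑ i, c i * ((∑ t, B (Pi.single t 1) j * (l i t : ℚ) : ℚ) : L) := by
    push_cast
    simp only [Finset.mul_sum]
    rw [Finset.sum_comm]
    refine Finset.sum_congr rfl fun i _ => Finset.sum_congr rfl fun t _ => ?_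
    ring
  rw [h5] at h4
  have h6 : ∀ i, c i * ((∑ t, B (Pi.single t 1) j * (l i t : ℚ) : ℚ) : L) =
      if i = j then c i else 0 := by
    intro i
    rw [hBi i j]
    split_ifs <;> simp
  rw [Finset.sum_congr rfl fun i _ => h6 i, Finset.sum_ite_eq'] at h4
  simpa using h4

/-- the exponent vector of a character -/
theorem phi_zero {V L : Type} [Fintype V] [Field L] (u : V → L) (α β : G → V → ℤ)
    (ε ε' : G → ℤ) (ω : G → L) (hu : ∀ v, u v ≠ 0)
    (hi : ∀ a : V → ℤ, ∏ v, u v ^ a v = 1 → a = 0)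
    (he : ∀ g, ε g = 1 ∨ ε g = -1) (he' : ∀ g, ε' g = 1 ∨ ε' g = -1)
    (h1 : ∀ g, ω g = (ε g : L) * ∏ v, u v ^ α g v)
    (h2 : ∀ g, 1 - ω g = (ε' g : L) * ∏ v, u v ^ β g v)
    (a : G ⊕ G → ℤ) (ha : chr ω a = 1) (v : V) :
    ∑ g, (a (Sum.inl g) * α g v + a (Sum.inr g) * β g v) = 0 := by
  have hsq : ∀ (e : ℤ), (e = 1 ∨ e = -1) → ((e : L)) ^ 2 = 1 := by
    rintro e (rfl | rfl) <;> simp
  have gen : ∀ (γ : G → V → ℤ) (η : G → ℤ) (x : G → L), (∀ g, η g = 1 ∨ η g = -1) →
      (∀ g, x g = (η g : L) * ∏ v, u v ^ γ g v) → ∀ b : G → ℤ,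
      (∏ g, x g ^ b g) ^ 2 = ∏ v, u v ^ (2 * ∑ g, b g * γ g v) := by
    intro γ η x hη hx b
    have e1 : ∀ g, (x g ^ b g) ^ 2 = ∏ v, u v ^ (2 * (b g * γ g v)) := by
      intro g
      have e2 : (x g ^ b g) ^ 2 = (x g ^ 2) ^ b g := by
        rw [← zpow_natCast, ← zpow_natCast, ← zpow_mul, ← zpow_mul, mul_comm]
      have e3 : x g ^ 2 = ∏ v, u v ^ (2 * γ g v) := by
        rw [hx g, mul_pow, hsq _ (hη g), one_mul, ← Finset.prod_pow]
        refine Finset.prod_congr rfl fun v _ => ?_
        rw [← zpow_natCast, ← zpow_mul, mul_comm]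
        rfl
      rw [e2, e3, ← Finset.prod_zpow]
      refine Finset.prod_congr rfl fun v _ => ?_
      rw [← zpow_mul]
      congr 1
      ring
    rw [← Finset.prod_pow, Finset.prod_congr rfl fun g _ => e1 g, Finset.prod_comm]
    refine Finset.prod_congr rfl fun v _ => ?_
    rw [Finset.mul_sum]
    have zsum : ∀ (s : Finset G) (f : G → ℤ), ∏ g ∈ s, u v ^ f g = u v ^ ∑ g ∈ s, f g := by
      classical
      intro s f
      induction s using Finset.induction_on with
      | empty => simp
      | insert c s hc ih => rw [Finset.prod_insert hc, Finset.sum_insert hc, ih, zpow_add₀ (hu v)]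
    exact zsum _ _
  have h3 := gen α ε ω he h1 (fun g => a (Sum.inl g))
  have h4 := gen β ε' (fun g => 1 - ω g) he' h2 (fun g => a (Sum.inr g))
  have h5 : (chr ω a) ^ 2 = 1 := by rw [ha, one_pow]
  unfold chr at h5
  rw [mul_pow, h3, h4, ← Finset.prod_mul_distrib] at h5
  have h6 := hi (fun v => 2 * ∑ g, a (Sum.inl g) * α g v + 2 * ∑ g, a (Sum.inr g) * β g v) (by
    rw [← h5]
    exact Finset.prod_congr rfl fun v _ => zpow_add₀ (hu v) _ _)
  have h7 := congrFun h6 v
  simp only [Pi.zero_apply] at h7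
  rw [Finset.sum_add_distrib]
  omega

end

end L1

open L1 in
theorem t_l1 : S_L1 := by
  intro hE V G L _ _ _ _ u α β ε ε' ω hu hi he he' h1 h2 hli L' _ _ ω' hat hspec
  have : CharZero L := algebraRat.charZero L
  obtain ⟨hz', m, Λ, htr, hΛ, hcard⟩ := hat
  have hz : ∀ g, ω g ≠ 0 ∧ ω g ≠ 1 := by
    have hpm : ∀ (e : ℤ), (e = 1 ∨ e = -1) → (e : L) ≠ 0 := by
      rintro e (rfl | rfl) <;> simp
    intro g
    constructor
    · rw [h1 g]
      exact mul_ne_zero (hpm _ (he g))
        (Finset.prod_ne_zero_iff.2 fun v _ => zpow_ne_zero _ (hu v))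
    · intro hg
      have h3 : (1 - ω g) ≠ 0 := by
        rw [h2 g]
        exact mul_ne_zero (hpm _ (he' g))
          (Finset.prod_ne_zero_iff.2 fun v _ => zpow_ne_zero _ (hu v))
      exact h3 (by rw [hg, sub_self])
  set r := Module.finrank ℤ Λ with hr
  let bs : Module.Basis (Fin r) ℤ Λ := Module.finBasis ℤ Λ
  let l : Fin r → G ⊕ G → ℤ := fun i => (bs i : G ⊕ G → ℤ)
  have hl : LinearIndependent ℤ l := by
    have := bs.linearIndependent.map' Λ.subtype (Submodule.ker_subtype Λ)
    exact this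
  have hf0 : ∀ i, aeval ω' (pol (l i)) = 0 := fun i =>
    (pol_zero_iff hz' _).2 (hΛ _ (bs i).2)
  have hchr : ∀ i, chr ω (l i) = 1 := fun i => (pol_zero_iff hz _).1 (hspec _ (hf0 i))
  have hind : LinearIndependent L (fun i : Fin r => fun j : G =>
      aeval ω (pderiv j (pol (l i)))) := by
    rw [Fintype.linearIndependent_iff]
    intro c hc
    set d : Fin r → L := fun i => c i * aeval ω (mon fun t => (l i t).toNat) with hd
    have hθ : ∀ g, ∑ i, d i * ((l i (Sum.inl g) : L) / ω g - (l i (Sum.inr g) : L) / (1 - ω g))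
        = 0 := by
      intro g
      have h3 := congrFun hc g
      rw [Finset.sum_apply] at h3
      rw [Pi.zero_apply] at h3
      rw [← h3]
      refine Finset.sum_congr rfl fun i _ => ?_
      rw [Pi.smul_apply, smul_eq_mul, grad ω g hz _ (hchr i), hd]
      ring
    set κ : G → L := fun g => (∑ i, d i * (l i (Sum.inl g) : L)) / ω g with hκ
    have hκ1 : ∀ g, ∑ i, d i * (l i (Sum.inl g) : L) = κ g * ω g := by
      intro g
      rw [hκ]
      simp only
      rw [div_mul_cancel₀ _ (hz g).1]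
    have hκ2 : ∀ g, ∑ i, d i * (l i (Sum.inr g) : L) = κ g * (1 - ω g) := by
      intro g
      have h3 : (1 - ω g) ≠ 0 := sub_ne_zero.2 (hz g).2.symm
      have h4 := hθ g
      have h5 : ∑ i, d i * ((l i (Sum.inl g) : L) / ω g - (l i (Sum.inr g) : L) / (1 - ω g)) =
          κ g - (∑ i, d i * (l i (Sum.inr g) : L)) / (1 - ω g) := by
        rw [hκ]
        simp only
        rw [Finset.sum_div, Finset.sum_div, ← Finset.sum_sub_distrib]
        refine Finset.sum_congr rfl fun i _ => ?_
        ring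
      rw [h5, sub_eq_zero] at h4
      rw [h4, div_mul_cancel₀ _ h3]
    have hκ0 : ∀ g, κ g = 0 := by
      refine Fintype.linearIndependent_iff.1 hli κ ?_
      funext v
      rw [Finset.sum_apply, Pi.zero_apply]
      have h3 : ∀ i, ∑ g, ((l i (Sum.inl g) : L) * (α g v : L) +
          (l i (Sum.inr g) : L) * (β g v : L)) = 0 := by
        intro i
        have := phi_zero u α β ε ε' ω hu hi he he' h1 h2 (l i) (hchr i) v
        exact_mod_cast congrArg (Int.cast : ℤ → L) this
      calc ∑ g, (κ g • fun v : V => ω g * (α g v : L) + (1 - ω g) * (β g v : L)) v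
          = ∑ g, ((κ g * ω g) * (α g v : L) + (κ g * (1 - ω g)) * (β g v : L)) := by
            refine Finset.sum_congr rfl fun g _ => ?_
            rw [Pi.smul_apply, smul_eq_mul]
            ring
        _ = ∑ g, ∑ i, d i * ((l i (Sum.inl g) : L) * (α g v : L) +
              (l i (Sum.inr g) : L) * (β g v : L)) := by
            refine Finset.sum_congr rfl fun g _ => ?_
            rw [← hκ1, ← hκ2, Finset.sum_mul, Finset.sum_mul, ← Finset.sum_add_distrib]
            refine Finset.sum_congr rfl fun i _ => ?_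
            ring
        _ = ∑ i, d i * ∑ g, ((l i (Sum.inl g) : L) * (α g v : L) +
              (l i (Sum.inr g) : L) * (β g v : L)) := by
            rw [Finset.sum_comm]
            refine Finset.sum_congr rfl fun i _ => ?_
            rw [Finset.mul_sum]
        _ = 0 := Finset.sum_eq_zero fun i _ => by rw [h3 i, mul_zero]
    have hd0 : d = 0 := by
      refine li_cast l hl d ?_
      rintro (g | g)
      · rw [hκ1, hκ0, zero_mul]
      · rw [hκ2, hκ0, zero_mul]
    intro i
    have h3 : c i * aeval ω (mon fun t => (l i t).toNat) = 0 := congrFun hd0 i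
    exact (mul_eq_zero.1 h3).resolve_right (mon_ne hz _)
  have hfin := hE G L L' r m ω ω' hspec (fun i => pol (l i)) hf0 hind htr
  omega

end Pool.Agent.W206.CT
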