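import Pool.Agent.W206.CT.Stm

set_option autoImplicit false

namespace Pool.Agent.W206.CT

theorem t_lg : S_LG := by
  classical
  intro V G L _ _ _ γ B hcard hinj
  -- the linear map
  let M : (V → L) →ₗ[L] (G → L) := (Matrix.of γ).mulVecLin
  have hM : ∀ δ g, M δ g = ∑ v, γ g v * δ v := fun δ g => rfl
  let ρ : LinearMap.ker M →ₗ[L] (B → L) :=
    { toFun := fun δ b => (δ : V → L) b
      map_add' := fun _ _ => rfl
      map_smul' := fun _ _ => rfl }
  have hρ : Function.Injective ρ := by
    rw [injective_iff_map_eq_zero]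
    intro δ hδ
    apply Subtype.ext
    refine hinj δ ?_ ?_
    · intro g
      have h := δ.2
      rw [LinearMap.mem_ker] at h
      have h2 := congrFun h g
      rw [hM] at h2
      exact h2
    · intro v hv
      exact congrFun hδ ⟨v, hv⟩
  have h1 : Module.finrank L (LinearMap.ker M) ≤ B.card := by
    have h := LinearMap.finrank_le_finrank_of_injective hρ
    simpa using h
  have h2 := LinearMap.finrank_range_add_finrank_ker M
  rw [Module.finrank_fintype_fun_eq_card] at h2
  have h3 : Module.finrank L (LinearMap.range M) = Module.finrank L (G → L) := by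
    refine le_antisymm (Submodule.finrank_le _) ?_
    rw [Module.finrank_fintype_fun_eq_card]
    omega
  have h4 : LinearMap.range M = ⊤ := Submodule.eq_top_of_finrank_eq h3
  rw [Fintype.linearIndependent_iff]
  intro c hc i
  have h5 : Pi.single i (1 : L) ∈ LinearMap.range M := by rw [h4]; trivial
  obtain ⟨δ, hδ⟩ := h5
  have e1 : c i = ∑ g, c g * M δ g := by
    rw [hδ]
    simp [Pi.single_apply]
  rw [e1]
  have e2 : ∀ g, c g * M δ g = ∑ v, (c g * γ g v) * δ v := by
    intro g
    rw [hM, Finset.mul_sum]
    exact Finset.sum_congr rfl fun v _ => by ring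
  rw [Finset.sum_congr rfl fun g _ => e2 g, Finset.sum_comm]
  refine Finset.sum_eq_zero fun v _ => ?_
  rw [← Finset.sum_mul]
  have h6 := congrFun hc v
  simp only [Finset.sum_apply, Pi.smul_apply, smul_eq_mul, Pi.zero_apply] at h6
  rw [h6, zero_mul]

end Pool.Agent.W206.CT
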