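import Pool.Agent.W206.CT.Stm

/-!
# Signed monomials with distinct partial sums
-/

set_option autoImplicit false

namespace Pool.Agent.W206.CT

namespace LI

section terms

variable {ι L : Type} [Fintype ι] [Field L] (w : ι → L) (I : Finset ι) (l : ι)

/-- value of a signed monomial -/
noncomputable def vl (t : ℤ × (ι → ℕ)) : L := (t.1 : L) * ∏ i, w i ^ t.2 i

/-- logarithmic derivative of a signed monomial -/
noncomputable def gr (t : ℤ × (ι → ℕ)) : L := (t.2 l : L) * vl w t

/-- admissible signed monomials -/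
def Gd (t : ℤ × (ι → ℕ)) : Prop := (t.1 = 1 ∨ t.1 = -1) ∧ ∀ i, i ∉ I → i ≠ l → t.2 i = 0

/-- generators -/
def gens : Set (DualNumber L) := {x | (∃ i ∈ I, x = TrivSqZeroExt.inl (w i)) ∨
  x = TrivSqZeroExt.inl (w l) + TrivSqZeroExt.inr (w l)}

theorem mon_closure (hl : l ∉ I) {x : DualNumber L} (hx : x ∈ Submonoid.closure (gens w I l)) :
    ∃ e : ι → ℕ, (∀ i, i ∉ I → i ≠ l → e i = 0) ∧ x.fst = ∏ i, w i ^ e i ∧
      x.snd = (e l : L) * ∏ i, w i ^ e i := by
  classical
  have single : ∀ j, ∏ i, w i ^ (Pi.single j 1 : ι → ℕ) i = w j := by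
    intro j
    rw [Finset.prod_eq_single j]
    · simp
    · intro i _ hij
      rw [Pi.single_eq_of_ne hij, pow_zero]
    · intro h
      exact absurd (Finset.mem_univ _) h
  induction hx using Submonoid.closure_induction with
  | mem x hx =>
    rcases hx with ⟨i, hi, rfl⟩ | rfl
    · refine ⟨Pi.single i 1, fun j hj _ => ?_, ?_, ?_⟩
      · have hji : j ≠ i := by
          rintro rfl
          exact hj hi
        exact Pi.single_eq_of_ne hji _
      · rw [single]
        rfl
      · have hli : l ≠ i := by
          rintro rfl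
          exact hl hi
        have h1 : (Pi.single i 1 : ι → ℕ) l = 0 := Pi.single_eq_of_ne hli _
        rw [h1, Nat.cast_zero, zero_mul]
        rfl
    · refine ⟨Pi.single l 1, fun j _ hj => Pi.single_eq_of_ne hj _, ?_, ?_⟩
      · rw [single]
        simp
      · rw [single, Pi.single_eq_same]
        simp
  | one =>
    refine ⟨0, fun _ _ _ => rfl, ?_, ?_⟩
    · simp
    · simp
  | mul x y _ _ hx hy =>
    obtain ⟨e, h1, h2, h3⟩ := hx
    obtain ⟨e', h1', h2', h3'⟩ := hy
    have h4 : ∏ i, w i ^ (e + e') i = (∏ i, w i ^ e i) * ∏ i, w i ^ e' i := by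
      rw [← Finset.prod_mul_distrib]
      exact Finset.prod_congr rfl fun i _ => by rw [Pi.add_apply, pow_add]
    refine ⟨e + e', fun i hi hil => ?_, ?_, ?_⟩
    · rw [Pi.add_apply, h1 i hi hil, h1' i hi hil]
    · rw [TrivSqZeroExt.fst_mul, h2, h2', h4]
    · rw [DualNumber.snd_mul, h2, h2', h3, h3', h4, Pi.add_apply]
      push_cast
      ring

theorem sum_neg' {A M : Type} [AddCommGroup M] (T : List A) (f : A → M) :
    (T.map (fun t => - f t)).sum = - (T.map f).sum := by
  induction T with
  | nil => simp
  | cons a T ih =>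
    rw [List.map_cons, List.map_cons, List.sum_cons, List.sum_cons, ih]
    abel

/-- elements of the ring generated are lists of signed monomials -/
theorem list_closure (hl : l ∉ I) {x : DualNumber L} (hx : x ∈ Subring.closure (gens w I l)) :
    ∃ T : List (ℤ × (ι → ℕ)), (∀ t ∈ T, Gd I l t) ∧ (T.map (vl w)).sum = x.fst ∧
      (T.map (gr w l)).sum = x.snd := by
  rw [Subring.mem_closure_iff] at hx
  induction hx using AddSubgroup.closure_induction with
  | mem x hx =>
    obtain ⟨e, h1, h2, h3⟩ := mon_closure w I l hl hx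
    refine ⟨[(1, e)], ?_, ?_, ?_⟩
    · intro t ht
      rw [List.mem_singleton] at ht
      rw [ht]
      exact ⟨Or.inl rfl, h1⟩
    · simp [vl, h2]
    · simp [vl, gr, h3]
  | zero => exact ⟨[], by simp, by simp, by simp⟩
  | add x y _ _ hx hy =>
    obtain ⟨T, h1, h2, h3⟩ := hx
    obtain ⟨T', h1', h2', h3'⟩ := hy
    refine ⟨T ++ T', ?_, ?_, ?_⟩
    · intro t ht
      rcases List.mem_append.1 ht with h | h
      · exact h1 t h
      · exact h1' t h
    · rw [List.map_append, List.sum_append, h2, h2', TrivSqZeroExt.fst_add]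
    · rw [List.map_append, List.sum_append, h3, h3', TrivSqZeroExt.snd_add]
  | neg x _ hx =>
    obtain ⟨T, h1, h2, h3⟩ := hx
    have hv : ∀ t, vl w (-t.1, t.2) = - vl w t := by
      intro t
      simp [vl]
    have hg : ∀ t, gr w l (-t.1, t.2) = - gr w l t := by
      intro t
      show (t.2 l : L) * vl w (-t.1, t.2) = - ((t.2 l : L) * vl w t)
      rw [hv]
      ring
    refine ⟨T.map (fun t => (-t.1, t.2)), ?_, ?_, ?_⟩
    · intro t ht
      obtain ⟨t', ht', rfl⟩ := List.mem_map.1 ht
      obtain ⟨a1, a2⟩ := h1 t' ht'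
      refine ⟨?_, a2⟩
      rcases a1 with a1 | a1
      · exact Or.inr (by simp [a1])
      · exact Or.inl (by simp [a1])
    · rw [List.map_map, TrivSqZeroExt.fst_neg, ← h2, ← sum_neg']
      congr 1
      exact List.map_congr_left fun t _ => hv t
    · rw [List.map_map, TrivSqZeroExt.snd_neg, ← h3, ← sum_neg']
      congr 1
      exact List.map_congr_left fun t _ => hg t

omit [Fintype ι] in
/-- the elements of the ring of the `w i`, `i ∈ I` -/
theorem inl_mem {a : L} (ha : a ∈ Subring.closure (w '' (I : Set ι))) :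
    (TrivSqZeroExt.inl a : DualNumber L) ∈ Subring.closure (gens w I l) := by
  induction ha using Subring.closure_induction with
  | mem x hx =>
    obtain ⟨i, hi, rfl⟩ := hx
    exact Subring.subset_closure (Or.inl ⟨i, hi, rfl⟩)
  | zero => rw [TrivSqZeroExt.inl_zero]; exact zero_mem _
  | one => rw [TrivSqZeroExt.inl_one]; exact one_mem _
  | add x y _ _ hx hy => rw [TrivSqZeroExt.inl_add]; exact add_mem hx hy
  | neg x _ hx => rw [TrivSqZeroExt.inl_neg]; exact neg_mem hx
  | mul x y _ _ hx hy => rw [TrivSqZeroExt.inl_mul]; exact mul_mem hx hy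

omit [Fintype ι] in
theorem pw_mem (i : ℕ) : (TrivSqZeroExt.inl (w l ^ i) + TrivSqZeroExt.inr ((i : L) * w l ^ i) :
    DualNumber L) ∈ Subring.closure (gens w I l) := by
  have h1 : (TrivSqZeroExt.inl (w l) + TrivSqZeroExt.inr (w l) : DualNumber L) ∈
      Subring.closure (gens w I l) := Subring.subset_closure (Or.inr rfl)
  induction i with
  | zero => simp
  | succ i ih =>
    have h2 := mul_mem ih h1
    convert h2 using 1
    apply TrivSqZeroExt.ext
    · simp [pow_succ]
    · rw [DualNumber.snd_mul]
      simp [pow_succ]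
      ring

/-- a polynomial equation for `w l` with coefficients in the ring of the `w i` -/
theorem exists_of_coeffs (hl : l ∉ I) (n : ℕ) (c : ℕ → L)
    (hc : ∀ i, c i ∈ Subring.closure (w '' (I : Set ι)))
    (h0 : ∑ i ∈ Finset.range n, c i * w l ^ i = 0)
    (h1 : ∑ i ∈ Finset.range n, c i * ((i : L) * w l ^ i) ≠ 0) :
    ∃ T : List (ℤ × (ι → ℕ)), (∀ t ∈ T, Gd I l t) ∧ (T.map (vl w)).sum = 0 ∧
      (T.map (gr w l)).sum ≠ 0 := by
  have h2 : (∑ i ∈ Finset.range n, TrivSqZeroExt.inl (c i) *
      (TrivSqZeroExt.inl (w l ^ i) + TrivSqZeroExt.inr ((i : L) * w l ^ i)) : DualNumber L) ∈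
      Subring.closure (gens w I l) :=
    sum_mem fun i _ => mul_mem (inl_mem w I l (hc i)) (pw_mem w I l i)
  obtain ⟨T, h3, h4, h5⟩ := list_closure w I l hl h2
  refine ⟨T, h3, ?_, ?_⟩
  · rw [h4, TrivSqZeroExt.fst_sum, ← h0]
    refine Finset.sum_congr rfl fun i _ => ?_
    simp
  · rw [h5, TrivSqZeroExt.snd_sum]
    intro h6
    apply h1
    rw [← h6]
    refine Finset.sum_congr rfl fun i _ => ?_
    rw [DualNumber.snd_mul]
    simp

end terms

section field

variable {ι L : Type} [Fintype ι] [Field L] [Algebra ℚ L] (w : ι → L) (I : Finset ι) (l : ι)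

omit [Fintype ι] in
/-- elements of the field are fractions -/
theorem frac {x : L} (hx : x ∈ IntermediateField.adjoin ℚ (w '' (I : Set ι))) :
    ∃ a ∈ Subring.closure (w '' (I : Set ι)), ∃ b ∈ Subring.closure (w '' (I : Set ι)),
      b ≠ 0 ∧ b * x = a := by
  have hch : CharZero L := algebraRat.charZero L
  induction hx using IntermediateField.adjoin_induction with
  | mem x hx => exact ⟨x, Subring.subset_closure hx, 1, one_mem _, one_ne_zero, one_mul _⟩
  | algebraMap x =>
    refine ⟨(x.num : L), intCast_mem _ _, (x.den : L), natCast_mem _ _, ?_, ?_⟩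
    · exact_mod_cast x.den_ne_zero
    · have h1 : (algebraMap ℚ L) x = (x : L) := by simp
      rw [h1]
      have h2 : ((x.den : ℚ) * x : ℚ) = x.num := Rat.den_mul_eq_num x
      exact_mod_cast h2
  | add x y _ _ hx hy =>
    obtain ⟨a, ha, b, hb, hb0, h1⟩ := hx
    obtain ⟨a', ha', b', hb', hb0', h1'⟩ := hy
    refine ⟨b' * a + b * a', add_mem (mul_mem hb' ha) (mul_mem hb ha'), b * b', mul_mem hb hb',
      mul_ne_zero hb0 hb0', ?_⟩
    rw [← h1, ← h1']
    ring
  | inv x _ hx =>
    obtain ⟨a, ha, b, hb, hb0, h1⟩ := hx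
    by_cases hx0 : x = 0
    · refine ⟨0, zero_mem _, 1, one_mem _, one_ne_zero, ?_⟩
      rw [hx0, inv_zero, mul_zero]
    · refine ⟨b, hb, a, ha, ?_, ?_⟩
      · rw [← h1]
        exact mul_ne_zero hb0 hx0
      · rw [← h1]
        field_simp
  | mul x y _ _ hx hy =>
    obtain ⟨a, ha, b, hb, hb0, h1⟩ := hx
    obtain ⟨a', ha', b', hb', hb0', h1'⟩ := hy
    refine ⟨a * a', mul_mem ha ha', b * b', mul_mem hb hb', mul_ne_zero hb0 hb0', ?_⟩
    rw [← h1, ← h1']
    ring

omit [Fintype ι] in
/-- common denominators -/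
theorem common (c : ℕ → L) (hc : ∀ i, c i ∈ IntermediateField.adjoin ℚ (w '' (I : Set ι)))
    (n : ℕ) : ∃ d : L, d ≠ 0 ∧ d ∈ Subring.closure (w '' (I : Set ι)) ∧
      ∀ i < n, d * c i ∈ Subring.closure (w '' (I : Set ι)) := by
  induction n with
  | zero => exact ⟨1, one_ne_zero, one_mem _, fun i hi => absurd hi (by omega)⟩
  | succ n ih =>
    obtain ⟨d, hd0, hd, h1⟩ := ih
    obtain ⟨a, ha, b, hb, hb0, h2⟩ := frac w I (hc n)
    refine ⟨b * d, mul_ne_zero hb0 hd0, mul_mem hb hd, fun i hi => ?_⟩
    rcases Nat.lt_succ_iff_lt_or_eq.1 hi with h | h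
    · rw [mul_assoc]
      exact mul_mem hb (h1 i h)
    · rw [h]
      have : b * d * c n = d * a := by rw [← h2]; ring
      rw [this]
      exact mul_mem hd ha

theorem exists_list (hl : l ∉ I) (hw : w l ≠ 0)
    (halg : IsAlgebraic (IntermediateField.adjoin ℚ (w '' (I : Set ι))) (w l)) :
    ∃ T : List (ℤ × (ι → ℕ)), (∀ t ∈ T, Gd I l t) ∧ (T.map (vl w)).sum = 0 ∧
      (T.map (gr w l)).sum ≠ 0 := by
  classical
  have hchK : CharZero (IntermediateField.adjoin ℚ (w '' (I : Set ι))) :=
    algebraRat.charZero _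
  obtain ⟨q, hq⟩ : ∃ q, q = minpoly (IntermediateField.adjoin ℚ (w '' (I : Set ι))) (w l) :=
    ⟨_, rfl⟩
  have hq0 : Polynomial.aeval (w l) q = 0 := by rw [hq]; exact minpoly.aeval _ _
  have hsep : q.Separable := by
    rw [hq]
    exact (minpoly.irreducible halg.isIntegral).separable
  have hq1 : Polynomial.aeval (w l) (Polynomial.derivative q) ≠ 0 :=
    hsep.aeval_derivative_ne_zero hq0
  obtain ⟨Q, hQ⟩ : ∃ Q : Polynomial L, Q = q.map (algebraMap _ L) := ⟨_, rfl⟩
  have hQ0 : Q.eval (w l) = 0 := by
    rw [hQ, Polynomial.eval_map_algebraMap, hq0]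
  have hQ1 : (Polynomial.derivative Q).eval (w l) ≠ 0 := by
    rw [hQ, Polynomial.derivative_map, Polynomial.eval_map_algebraMap]
    exact hq1
  have hcoef : ∀ i, Q.coeff i ∈ IntermediateField.adjoin ℚ (w '' (I : Set ι)) := by
    intro i
    rw [hQ, Polynomial.coeff_map]
    exact (q.coeff i).2
  obtain ⟨n, hn⟩ : ∃ n, n = Q.natDegree + 1 := ⟨_, rfl⟩
  obtain ⟨d, hd0, hd, h1⟩ := common w I (fun i => Q.coeff i) hcoef n
  have e0 : ∑ i ∈ Finset.range n, Q.coeff i * w l ^ i = 0 := by
    rw [hn, ← Polynomial.eval_eq_sum_range, hQ0]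
  have e1 : ∑ i ∈ Finset.range n, Q.coeff i * ((i : L) * w l ^ i) ≠ 0 := by
    have h2 : ∑ i ∈ Finset.range n, Q.coeff i * ((i : L) * w l ^ i) =
        w l * (Polynomial.derivative Q).eval (w l) := by
      rw [Polynomial.derivative_eval, Polynomial.sum_over_range' Q (by simp) n (by omega),
        Finset.mul_sum]
      refine Finset.sum_congr rfl fun i _ => ?_
      rcases i with _ | i
      · simp
      · rw [Nat.add_sub_cancel, pow_succ]
        push_cast
        ring
    rw [h2]
    exact mul_ne_zero hw hQ1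
  refine exists_of_coeffs w I l hl n (fun i => if i < n then d * Q.coeff i else 0) ?_ ?_ ?_
  · intro i
    split_ifs with h
    · exact h1 i h
    · exact zero_mem _
  · have h2 : ∑ i ∈ Finset.range n, (if i < n then d * Q.coeff i else 0) * w l ^ i =
        d * ∑ i ∈ Finset.range n, Q.coeff i * w l ^ i := by
      rw [Finset.mul_sum]
      refine Finset.sum_congr rfl fun i hi => ?_
      rw [if_pos (Finset.mem_range.1 hi), mul_assoc]
    rw [h2, e0, mul_zero]
  · have h2 : ∑ i ∈ Finset.range n, (if i < n then d * Q.coeff i else 0) *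
        ((i : L) * w l ^ i) = d * ∑ i ∈ Finset.range n, Q.coeff i * ((i : L) * w l ^ i) := by
      rw [Finset.mul_sum]
      refine Finset.sum_congr rfl fun i hi => ?_
      rw [if_pos (Finset.mem_range.1 hi), mul_assoc]
    rw [h2]
    exact mul_ne_zero hd0 e1

end field

/-! ### lists and partial sums -/

theorem sum_take {M A : Type} [AddCommMonoid M] (T : List A) (f : A → M) (j : Fin T.length) :
    ∑ i ∈ Finset.univ.filter (fun i : Fin T.length => i < j), f (T.get i) =
      ((T.take j).map f).sum := by
  have key : ∀ m : ℕ, m ≤ T.length →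
      ∑ i ∈ Finset.univ.filter (fun i : Fin T.length => (i : ℕ) < m), f (T.get i) =
      ((T.take m).map f).sum := by
    intro m
    induction m with
    | zero => intro _; simp
    | succ m ih =>
      intro hm
      have hm' : m < T.length := by omega
      have h1 : (Finset.univ.filter (fun i : Fin T.length => (i : ℕ) < m + 1)) =
          insert (⟨m, hm'⟩ : Fin T.length)
            (Finset.univ.filter (fun i : Fin T.length => (i : ℕ) < m)) := by
        ext i
        simp only [Finset.mem_filter, Finset.mem_univ, true_and, Finset.mem_insert, Fin.ext_iff]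
        omega
      rw [h1, Finset.sum_insert (by simp), ih (by omega), List.take_succ_eq_append_getElem hm',
        List.map_append, List.sum_append, add_comm]
      simp
  exact key j (by omega)

theorem sum_all {M A : Type} [AddCommMonoid M] (T : List A) (f : A → M) :
    ∑ i : Fin T.length, f (T.get i) = (T.map f).sum := by
  rw [← List.sum_ofFn]
  congr 1
  have : (fun i : Fin T.length => f (T.get i)) = f ∘ T.get := rfl
  rw [this, ← List.map_ofFn, List.ofFn_get]

end LI

open LI in
theorem t_li : S_LI := by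
  classical
  intro ι L _ _ _ w I l hl hw halg
  have hex : ∃ r : ℕ, ∃ T : List (ℤ × (ι → ℕ)), T.length = r ∧ (∀ t ∈ T, Gd I l t) ∧
      (T.map (vl w)).sum = 0 ∧ (T.map (gr w l)).sum ≠ 0 := by
    obtain ⟨T, hT⟩ := exists_list w I l hl (hw l) halg
    exact ⟨T.length, T, rfl, hT⟩
  obtain ⟨T, hlen, hT1, hT2, hT3⟩ := Nat.find_spec hex
  have hmin : ∀ T' : List (ℤ × (ι → ℕ)), (∀ t ∈ T', Gd I l t) → (T'.map (vl w)).sum = 0 →
      T'.length < T.length → (T'.map (gr w l)).sum = 0 := by
    intro T' h1 h2 h3
    by_contra h4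
    exact Nat.find_min hex (hlen ▸ h3) ⟨T', rfl, h1, h2, h4⟩
  refine ⟨T.length, fun j => (T.get j).1, fun j => (T.get j).2, fun j => ?_, fun j i hi hil => ?_,
    ?_, ?_, ?_⟩
  · exact (hT1 _ (T.get_mem j)).1
  · exact (hT1 _ (T.get_mem j)).2 i hi hil
  · rw [← hT2, ← sum_all]
    rfl
  · rw [← sum_all T (gr w l)] at hT3
    exact hT3
  · -- distinct partial sums
    have key : ∀ a b : Fin T.length, a < b →
        (∑ i ∈ Finset.univ.filter (fun i : Fin T.length => i < a), vl w (T.get i)) ≠
        ∑ i ∈ Finset.univ.filter (fun i : Fin T.length => i < b), vl w (T.get i) := by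
      intro a b hab heq
      rw [sum_take T (vl w) a, sum_take T (vl w) b] at heq
      have hab' : (a : ℕ) < b := hab
      obtain ⟨A, hA⟩ : ∃ A, A = T.take a := ⟨_, rfl⟩
      obtain ⟨B, hB⟩ : ∃ B, B = (T.take b).drop a := ⟨_, rfl⟩
      obtain ⟨C, hC⟩ : ∃ C, C = T.drop b := ⟨_, rfl⟩
      have hAB : T.take b = A ++ B := by
        rw [hA, hB]
        have : T.take a = (T.take b).take a := by
          rw [List.take_take, min_eq_left hab'.le]
        rw [this, List.take_append_drop]
      have hABC : T = A ++ B ++ C := by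
        rw [← hAB, hC, List.take_append_drop]
      have lA : A.length = a := by
        rw [hA, List.length_take]
        omega
      have lAB : (A ++ B).length = b := by
        rw [← hAB, List.length_take]
        omega
      have lB : B.length = b - a := by
        rw [List.length_append] at lAB
        omega
      have lT : T.length = A.length + B.length + C.length := by
        conv_lhs => rw [hABC]
        rw [List.length_append, List.length_append]
      have sB : (B.map (vl w)).sum = 0 := by
        rw [hAB, ← hA, List.map_append, List.sum_append] at heq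
        have := heq.symm
        rwa [add_eq_left] at this
      have sT : (A.map (vl w)).sum + (B.map (vl w)).sum + (C.map (vl w)).sum = 0 := by
        rw [← hT2]
        conv_rhs => rw [hABC]
        rw [List.map_append, List.map_append, List.sum_append, List.sum_append]
      have sAC : ((A ++ C).map (vl w)).sum = 0 := by
        rw [List.map_append, List.sum_append]
        rw [sB, add_zero] at sT
        exact sT
      have hb := b.2
      have gB := hmin B (fun t ht => hT1 t (by
        rw [hABC]
        exact List.mem_append_left _ (List.mem_append_right _ ht))) sB (by omega)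
      have gAC := hmin (A ++ C) (fun t ht => hT1 t (by
        rw [hABC]
        rcases List.mem_append.1 ht with h | h
        · exact List.mem_append_left _ (List.mem_append_left _ h)
        · exact List.mem_append_right _ h)) sAC (by
          rw [List.length_append]
          omega)
      apply hT3
      rw [hABC, List.map_append, List.map_append, List.sum_append, List.sum_append, gB, add_zero]
      rw [List.map_append, List.sum_append] at gAC
      exact gAC
    intro a b heq
    by_contra hne
    rcases lt_or_gt_of_ne hne with h | h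
    · exact key a b h heq
    · exact key b a h heq.symm

end Pool.Agent.W206.CT
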