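import Pool.Agent.W206.CT.Stm

/-! CT-MI: multiplicative independence of translates of a transcendental element. -/

set_option autoImplicit false

namespace Pool.Agent.W206.CT

open Polynomial

namespace MI

lemma zp {L : Type} [Field L] {x : L} (hx : x ≠ 0) (n : ℤ) :
    x ^ n * x ^ (-n).toNat = x ^ n.toNat := by
  rw [← zpow_natCast, ← zpow_natCast, ← zpow_add₀ hx]
  congr 1
  omega

lemma rm {K J : Type} [Field K] [Fintype J] {c : J → K} (hc : Function.Injective c) (m : J → ℕ)
    (κ : K) (hκ : κ ≠ 0) (i : J) :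
    rootMultiplicity (-c i) (C κ * ∏ j, (X + C (c j)) ^ m j) = m i := by
  classical
  have h0 : (∏ j, (X + C (c j)) ^ m j : K[X]) ≠ 0 :=
    Finset.prod_ne_zero_iff.2 (fun j _ => pow_ne_zero _ (X_add_C_ne_zero _))
  rw [← count_roots, roots_C_mul _ hκ, roots_prod _ _ h0, Multiset.count_bind]
  simp only [roots_pow, roots_X_add_C, Multiset.count_nsmul, Multiset.count_singleton, neg_inj,
    hc.eq_iff]
  change ∑ j, m j * (if i = j then 1 else 0) = m i
  simp

end MI

theorem t_mi : S_MI := by
  intro K L J _ _ _ _ t ht c hc κ hκ n h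
  have hne : ∀ j, t + algebraMap K L (c j) ≠ 0 := by
    intro j hj
    refine X_add_C_ne_zero (c j) ((transcendental_iff.1 ht) (X + C (c j)) ?_)
    rw [map_add, aeval_X, aeval_C]
    exact hj
  have h1 : aeval t (C κ * ∏ j, (X + C (c j)) ^ (n j).toNat : K[X]) =
      aeval t (C 1 * ∏ j, (X + C (c j)) ^ (-n j).toNat : K[X]) := by
    simp only [map_mul, map_prod, map_pow, map_add, aeval_X, aeval_C, map_one, one_mul]
    have h2 : ∏ j, (t + algebraMap K L (c j)) ^ (n j).toNat =
        (∏ j, (t + algebraMap K L (c j)) ^ n j) *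
          ∏ j, (t + algebraMap K L (c j)) ^ (-n j).toNat := by
      rw [← Finset.prod_mul_distrib]
      exact Finset.prod_congr rfl fun j _ => (MI.zp (hne j) (n j)).symm
    rw [h2, ← mul_assoc, h, one_mul]
  have h2 : (C κ * ∏ j, (X + C (c j)) ^ (n j).toNat : K[X]) =
      C 1 * ∏ j, (X + C (c j)) ^ (-n j).toNat := by
    rw [← sub_eq_zero]
    apply (transcendental_iff.1 ht)
    rw [map_sub, h1, sub_self]
  funext i
  have h3 := congrArg (rootMultiplicity (-c i)) h2
  rw [MI.rm hc _ κ hκ, MI.rm hc _ 1 one_ne_zero] at h3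
  change n i = 0
  omega

end Pool.Agent.W206.CT
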