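import Pool.Agent.W206.CT.Stm

/-!
# NU: numerator of a polynomial in fractions
-/

set_option autoImplicit false

open MvPolynomial

namespace Pool.Agent.W206.CT

theorem t_nu : S_NU := by
  classical
  intro G R _ _ _ num den g
  induction g using MvPolynomial.induction_on with
  | C c =>
    refine ⟨0, algebraMap ℚ R c, ?_⟩
    intro F _ _ φ _
    rw [pow_zero, one_mul, AlgHom.commutes]
    simp
  | add p q hp hq =>
    obtain ⟨D1, N1, h1⟩ := hp
    obtain ⟨D2, N2, h2⟩ := hq
    refine ⟨D1 + D2, N1 * (∏ x, den x) ^ D2 + N2 * (∏ x, den x) ^ D1, ?_⟩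
    intro F _ _ φ hφ
    rw [map_add, map_mul, map_mul, map_pow, map_pow, map_prod, h1 F φ hφ, h2 F φ hφ, map_add]
    ring
  | mul_X p x hp =>
    obtain ⟨D, N, h⟩ := hp
    refine ⟨D + 1, N * (num x * ∏ y ∈ Finset.univ.erase x, den y), ?_⟩
    intro F _ _ φ hφ
    rw [map_mul, map_mul, map_prod, h F φ hφ, map_mul, aeval_X, pow_succ,
      ← Finset.mul_prod_erase Finset.univ (fun y => φ (den y)) (Finset.mem_univ x)]
    have hx := hφ x
    field_simp

end Pool.Agent.W206.CT
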