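import Pool.Agent.W206.CT.Stm

set_option autoImplicit false
set_option linter.all false

namespace Pool.Agent.W206.CT

theorem t_rk : S_RK := by
  intro T U _ _ φ hφ Λ
  have h1 : Module.finrank ℤ (Λ.comap φ) = Module.finrank ℤ (LinearMap.range φ ⊓ Λ : Submodule ℤ (T → ℤ)) := by
    rw [← Submodule.map_comap_eq]
    exact (Submodule.equivMapOfInjective φ hφ (Λ.comap φ)).finrank_eq
  have h2 : Module.finrank ℤ (LinearMap.range φ) = Fintype.card U := by
    rw [← (LinearEquiv.ofInjective φ hφ).finrank_eq, Module.finrank_fintype_fun_eq_card]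
  have h3 : Module.finrank ℤ (LinearMap.range φ ⊔ Λ : Submodule ℤ (T → ℤ)) ≤ Fintype.card T := by
    rw [← Module.finrank_fintype_fun_eq_card ℤ]
    exact Submodule.finrank_le _
  have h4 := Submodule.rank_sup_add_rank_inf_eq (LinearMap.range φ) Λ
  have h5 : Module.finrank ℤ (LinearMap.range φ ⊔ Λ : Submodule ℤ (T → ℤ)) +
      Module.finrank ℤ (LinearMap.range φ ⊓ Λ : Submodule ℤ (T → ℤ)) =
      Module.finrank ℤ (LinearMap.range φ) + Module.finrank ℤ Λ := by
    simp only [← Module.finrank_eq_rank] at h4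
    exact_mod_cast h4
  rw [h1]
  omega

end Pool.Agent.W206.CT
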