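import Pool.Agent.W206.CT.Stm

set_option autoImplicit false

namespace Pool.Agent.W206.CT

namespace RS

theorem rn {R M N : Type} [CommRing R] [IsDomain R] [AddCommGroup M] [Module R M]
    [AddCommGroup N] [Module R N] [Module.Finite R M] (f : M →ₗ[R] N)
    (hf : Function.Surjective f) :
    Module.finrank R M = Module.finrank R N + Module.finrank R (LinearMap.ker f) := by
  have h := Submodule.finrank_quotient_add_finrank (LinearMap.ker f)
  rw [(f.quotKerEquivOfSurjective hf).finrank_eq] at h
  exact h.symm

end RS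

theorem t_rs : S_RS := by
  intro T U _ _ Φ hΦ Λ
  have h1 := RS.rn Φ hΦ
  rw [Module.finrank_fintype_fun_eq_card, Module.finrank_fintype_fun_eq_card] at h1
  set p : Submodule ℤ (T → ℤ) := Λ.comap Φ with hp
  set f : p →ₗ[ℤ] Λ := Φ.restrict (p := p) (q := Λ) (fun x hx => hx) with hf
  have h4 : Function.Surjective f := by
    rintro ⟨y, hy⟩
    obtain ⟨x, hx⟩ := hΦ y
    refine ⟨⟨x, ?_⟩, ?_⟩
    · rw [hp, Submodule.mem_comap, hx]
      exact hy
    · apply Subtype.ext
      exact hx
  have h3 := RS.rn f h4
  have hle : LinearMap.ker Φ ≤ p := by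
    intro x hx
    rw [hp, Submodule.mem_comap, LinearMap.mem_ker.1 hx]
    exact Λ.zero_mem
  have h5 : LinearMap.ker f = (LinearMap.ker Φ).submoduleOf p := by
    ext x
    rw [LinearMap.mem_ker, Submodule.submoduleOf, Submodule.mem_comap, LinearMap.mem_ker]
    constructor
    · intro h
      exact congrArg Subtype.val h
    · intro h
      exact Subtype.ext h
  have h6 : Module.finrank ℤ (LinearMap.ker f) = Module.finrank ℤ (LinearMap.ker Φ) := by
    rw [h5]
    exact (Submodule.submoduleOfEquivOfLe hle).finrank_eq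
  omega

end Pool.Agent.W206.CT
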