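import Pool.Agent.W206.CT.Sys3

set_option autoImplicit false

namespace Pool.Agent.W206.CT

open MvPolynomial

section data

variable {ι E : Type} [Fintype ι] {r : E → ℕ}
variable (ε : ∀ l, Fin (r l) → ℤ) (e : ∀ l, Fin (r l) → ι → ℕ)

/-- signed monomials at a point -/
def mm {K : Type} [CommRing K] (w : ι → K) (l : E) (j : Fin (r l)) : K :=
  (ε l j : K) * ∏ i, w i ^ e l j i

/-- partial sums at a point -/
def ss {K : Type} [CommRing K] (w : ι → K) (l : E) (j : Fin (r l)) : K := psum (mm ε e w l) j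

/-- numerators of the gate points -/
noncomputable def nm : Gt ι E r → MvPolynomial (Option E) (MvPolynomial ι ℚ)
  | Sum.inl _ => X none
  | Sum.inr (Sum.inl _) => X none
  | Sum.inr (Sum.inr ⟨l, j⟩) => X (some l) + C (ss ε e (fun i => X i) l j)

/-- denominators of the gate points -/
noncomputable def dn : Gt ι E r → MvPolynomial (Option E) (MvPolynomial ι ℚ)
  | Sum.inl _ => 1
  | Sum.inr (Sum.inl i) => X none + C (X i)
  | Sum.inr (Sum.inr ⟨l, j⟩) => X (some l) + C (ss ε e (fun i => X i) l (nx j))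

variable {Ω F : Type} [Field Ω] [Field F] [Algebra Ω F] [Algebra ℚ Ω] [Algebra ℚ F]
  [IsScalarTower ℚ Ω F]

/-- evaluation at a point -/
noncomputable def phi (lam : Option E → F) (w : ι → Ω) :
    MvPolynomial (Option E) (MvPolynomial ι ℚ) →ₐ[ℚ] F :=
  ((aeval lam : MvPolynomial (Option E) Ω →ₐ[Ω] F).restrictScalars ℚ).comp
    (MvPolynomial.mapAlgHom (aeval w))

theorem phi_apply (lam : Option E → F) (w : ι → Ω)
    (N : MvPolynomial (Option E) (MvPolynomial ι ℚ)) :
    phi lam w N = aeval lam (MvPolynomial.map (aeval w : MvPolynomial ι ℚ →ₐ[ℚ] Ω).toRingHom N) := by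
  rfl

theorem phi_X (lam : Option E → F) (w : ι → Ω) (o : Option E) :
    phi lam w (X o) = lam o := by
  rw [phi_apply]; simp

theorem phi_C (lam : Option E → F) (w : ι → Ω) (p : MvPolynomial ι ℚ) :
    phi lam w (C p) = algebraMap Ω F (aeval w p) := by
  rw [phi_apply, MvPolynomial.map_C, aeval_C]; rfl

theorem aeval_ss (w : ι → Ω) (l : E) (j : Fin (r l)) :
    aeval w (ss ε e (fun i => (X i : MvPolynomial ι ℚ)) l j) = ss ε e w l j := by
  unfold ss
  rw [show aeval w (psum (mm ε e (fun i => (X i : MvPolynomial ι ℚ)) l) j) =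
    (aeval w : MvPolynomial ι ℚ →ₐ[ℚ] Ω).toRingHom.toAddMonoidHom
      (psum (mm ε e (fun i => (X i : MvPolynomial ι ℚ)) l) j) from rfl, psum_map]
  congr 1
  funext i
  simp [mm]

theorem phi_nm_dn (lam : Option E → F) (w : ι → Ω) (g : Gt ι E r) :
    phi lam w (nm ε e g) / phi lam w (dn ε e g) =
      oo lam (fun i => algebraMap Ω F (w i)) (fun l j => algebraMap Ω F (ss ε e w l j)) g := by
  rcases g with g | i | ⟨l, j⟩
  · simp [nm, dn, oo, phi_X]
  · simp [nm, dn, oo, phi_X, phi_C]
  · simp [nm, dn, oo, phi_X, phi_C, aeval_ss]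

theorem phi_dn_ne {lam : Option E → F} (hl : AlgebraicIndependent Ω lam) (w : ι → Ω)
    (g : Gt ι E r) : phi lam w (dn ε e g) ≠ 0 := by
  rcases g with g | i | ⟨l, j⟩
  · simp [dn]
  · simp only [dn, map_add, phi_X, phi_C, aeval_X]
    exact lam_add_ne hl none (w i)
  · simp only [dn, map_add, phi_X, phi_C, aeval_ss]
    exact lam_add_ne hl (some l) _

theorem phi_eq_zero_iff {lam : Option E → F} (hl : AlgebraicIndependent Ω lam) (w : ι → Ω)
    (N : MvPolynomial (Option E) (MvPolynomial ι ℚ)) :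
    phi lam w N = 0 ↔ ∀ α, aeval w (coeff α N) = 0 := by
  rw [phi_apply]
  have h1 : Function.Injective (aeval lam : MvPolynomial (Option E) Ω →ₐ[Ω] F) := hl
  rw [map_eq_zero_iff _ h1, MvPolynomial.ext_iff]
  simp [coeff_map]

end data

section frac

variable (E Ω : Type) [Field Ω]

/-- the field with generic parameters -/
abbrev FF : Type := FractionRing (MvPolynomial (Option E) Ω)

/-- the generic parameters -/
noncomputable def ll (o : Option E) : FF E Ω := algebraMap (MvPolynomial (Option E) Ω) _ (X o)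

theorem ll_indep : AlgebraicIndependent Ω (ll E Ω) := by
  have h := (MvPolynomial.algebraicIndependent_X (Option E) Ω)
  exact h.map' (f := IsScalarTower.toAlgHom Ω (MvPolynomial (Option E) Ω) (FF E Ω))
    (IsFractionRing.injective (MvPolynomial (Option E) Ω) (FF E Ω))

end frac

/-- from the powers of the line to the pointwise form of Zilber's conjecture -/
theorem t_sa (hCO : S_CO) (hLI : S_LI) (hNU : S_NU) (hRS : S_RS) (hMI : S_MI) (hSI : S_SI)
    (hE1 : S_E1) (hL1 : S_L1) (hLG : S_LG)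
    (hFin : ∀ (ι : Type) [Fintype ι], FinAtyp ℚ ι) : PW := by
  intro ι L _ _ _ w hw hwi
  classical
  obtain ⟨I, hI1, hI2, hI3⟩ := hCO ℚ L ι w
  let E := {l : ι // l ∉ I}
  have hE := fun l : E => hLI ι L w I l.1 l.2 hw (hI2 l.1)
  choose r ε e hε hsupp hsum hgrad hinj using hE
  have hr : ∀ l, 0 < r l := by
    intro l
    by_contra h
    have h0 : r l = 0 := by omega
    apply hgrad l
    refine Finset.sum_eq_zero fun j _ => ?_
    exact absurd j.isLt (by omega)
  have hcardE : I.card + Fintype.card E = Fintype.card ι := by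
    rw [Fintype.card_subtype_compl, Fintype.card_coe]
    have := Finset.card_le_univ I
    omega
  -- the generic point
  set lam := ll E L with hlam
  have hl : AlgebraicIndependent L lam := ll_indep E L
  have hu := uu_ne (s := fun l j => ss ε e w l j) (r := r) hl hw
  have hs : ∀ l j, ss ε e w l (nx j) = ss ε e w l j + (ε l j : L) * ∏ i, w i ^ e l j i := by
    intro l j
    exact psum_nx _ (hsum l) j
  have hs' : ∀ l j, algebraMap L (FF E L) (ss ε e w l (nx j)) =
      algebraMap L (FF E L) (ss ε e w l j) +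
        (ε l j : FF E L) * ∏ i, algebraMap L (FF E L) (w i) ^ e l j i := fun l j => by
    rw [hs l j]; simp [map_add, map_mul, map_prod, map_pow]
  have hlin := gam_indep hLG hu ε e hs' I (fun l : E => l.1)
    (fun i hi => ⟨⟨i, hi⟩, rfl⟩) (fun l j i hi hne => hsupp l j i hi hne)
    (fun l => by
      have h := hgrad l
      intro h0
      apply h
      apply (algebraMap L (FF E L)).injective
      rw [map_zero, ← h0]
      simp [map_sum, map_mul, map_prod, map_pow]) hcardE
  have hnot := hL1 hE1 (Vr ι E r) (Gt ι E r) (FF E L) _ al (be e) (fun _ => 1) (sg ε)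
    (oo lam (fun i => algebraMap L (FF E L) (w i)) (fun l j => algebraMap L (FF E L) (ss ε e w l j)))
    hu (fun a ha => uu_indep hSI hMI hl hw hwi (fun l => hinj l) a ha) (fun _ => Or.inl rfl)
    (fun g => by
      rcases g with g | i | ⟨l, j⟩
      · simp [sg]
      · simp [sg]
      · simpa [sg] using hε l j)
    (fun g => by rw [oo_eq hu]; simp [mon]) (fun g => one_sub_oo_eq hu e ε hs' g) hlin
  obtain ⟨S, hS1, hS2⟩ := hFin (Gt ι E r)
  -- a polynomial in every member of `S` not vanishing at the generic point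
  have hg : ∀ p : S, ∃ g ∈ p.1, aeval (oo lam (fun i => algebraMap L (FF E L) (w i))
      (fun l j => algebraMap L (FF E L) (ss ε e w l j))) g ≠ 0 := by
    rintro ⟨p, hp⟩
    obtain ⟨L'', i1, i2, ω', hω', rfl⟩ := hS1 p hp
    have := hnot L'' ω' hω'
    push Not at this
    obtain ⟨g, hg1, hg2⟩ := this
    exact ⟨g, hg1, hg2⟩
  choose g hg1 hg2 using hg
  obtain ⟨D, N, hN⟩ := hNU (Gt ι E r) _ (nm ε e) (dn ε e) (∏ p, g p)
  have h1 := hN (FF E L) (phi lam w) (phi_dn_ne ε e hl w)
  have h2 : phi lam w N ≠ 0 := by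
    rw [h1]
    refine mul_ne_zero (pow_ne_zero _ (Finset.prod_ne_zero_iff.mpr fun x _ =>
      phi_dn_ne ε e hl w x)) ?_
    simp only [phi_nm_dn, map_prod]
    exact Finset.prod_ne_zero_iff.mpr fun p _ => hg2 p
  rw [Ne, phi_eq_zero_iff hl] at h2
  push Not at h2
  obtain ⟨α, hα⟩ := h2
  refine ⟨coeff α N, hα, ?_⟩
  intro L' _ _ w' hw' hsp m m' Λ hm hm' hΛ hmm
  have hl' : AlgebraicIndependent L' (ll E L') := ll_indep E L'
  have hsum' : ∀ l, ∑ j, mm ε e w' l j = 0 := by
    intro l
    have h3 : aeval w (∑ j, mm ε e (fun i => (X i : MvPolynomial ι ℚ)) l j) = 0 := by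
      rw [map_sum, ← hsum l]
      exact Finset.sum_congr rfl fun j _ => by simp [mm]
    have h4 := hsp _ h3
    rw [map_sum] at h4
    rw [← h4]
    exact Finset.sum_congr rfl fun j _ => by simp [mm]
  have hs2 : ∀ l j, ss ε e w' l (nx j) = ss ε e w' l j + (ε l j : L') * ∏ i, w' i ^ e l j i :=
    fun l j => psum_nx _ (hsum' l) j
  have hat := atyp (F := FF E L') hRS hl' hw' e ε hε hs2 (fun l j hj => psum_zero _ j hj) hr m' hm'
    Λ hΛ (by
      have h5 : ¬ m ≤ I.card := fun h => hm ((hI3 m).mpr h)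
      omega)
  obtain ⟨p, hp, hple⟩ := hS2 (FF E L') _ hat
  have h6 := hN (FF E L') (phi (ll E L') w') (phi_dn_ne ε e hl' w')
  have h7 : phi (ll E L') w' N = 0 := by
    rw [h6]
    simp only [phi_nm_dn, map_prod]
    rw [Finset.prod_eq_zero (Finset.mem_univ (⟨p, hp⟩ : S)), mul_zero]
    exact hple (hg1 ⟨p, hp⟩)
  rw [phi_eq_zero_iff hl'] at h7
  exact h7 α

end Pool.Agent.W206.CT
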