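import Mathlib
import Pool.Agent.W206.CT.Stm
import Pool.Agent.Helper834.EC.Dim1

/-!
**SB**: from the pointwise form to Zilber's conjecture.
-/

set_option autoImplicit false

namespace Pool.Agent.W206.CT

open MvPolynomial

namespace SB

/-! ### transcendence degree -/

section tr

variable {K L : Type} [Field K] [Field L] [Algebra K L]

open scoped IntermediateField.algebraAdjoinAdjoin in
theorem alg_adjoin {S : Set L} {x : L} (h : IsAlgebraic (IntermediateField.adjoin K S) x) :
    IsAlgebraic (Algebra.adjoin K S) x :=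
  (IsFractionRing.isAlgebraic_iff (Algebra.adjoin K S) (IntermediateField.adjoin K S) L).2 h

/-- the elements algebraic over an intermediate field -/
noncomputable def bar (B : IntermediateField K L) : IntermediateField K L :=
  (algebraicClosure B L).restrictScalars K

theorem mem_bar {B : IntermediateField K L} {x : L} : x ∈ bar B ↔ IsAlgebraic B x := by
  unfold bar
  rw [IntermediateField.mem_restrictScalars, mem_algebraicClosure_iff]

theorem bar_bar {B : IntermediateField K L} {x : L} (h : IsAlgebraic (bar B) x) : x ∈ bar B := by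
  rw [mem_bar]
  have h1 : IsAlgebraic (algebraicClosure B L) x := h
  exact h1.restrictScalars B

theorem trge_bound {κ ι : Type} [Fintype κ] (v : κ → L) (w : ι → L)
    (h : ∀ i, w i ∈ bar (IntermediateField.adjoin K (Set.range v))) (m : ℕ) (hm : TrGe K w m) :
    m ≤ Fintype.card κ := by
  obtain ⟨y, hy, hmem⟩ := hm
  have hle : IntermediateField.adjoin K (Set.range w) ≤
      bar (IntermediateField.adjoin K (Set.range v)) := by
    rw [IntermediateField.adjoin_le_iff]
    rintro _ ⟨i, rfl⟩
    exact h i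
  have hind : (AlgebraicIndependent.matroid K L).Indep (Set.range y) := by
    rw [AlgebraicIndependent.matroid_indep_iff]
    exact hy.coe_range
  have hsub : Set.range y ⊆ (AlgebraicIndependent.matroid K L).closure (Set.range v) := by
    rintro _ ⟨i, rfl⟩
    rw [AlgebraicIndependent.matroid_closure_eq]
    have h1 := hle (hmem i)
    rw [mem_bar] at h1
    exact alg_adjoin h1
  have h1 := hind.encard_le_eRk_of_subset hsub
  rw [Matroid.eRk_closure_eq] at h1
  have h2 := (h1.trans ((AlgebraicIndependent.matroid K L).eRk_le_encard _))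
  have h3 : (Set.range y).encard = m := by
    rw [← Set.image_univ, hy.injective.encard_image]
    simp
  have h4 : (Set.range v).encard ≤ Fintype.card κ := by
    rw [← Set.image_univ]
    refine (Set.encard_image_le _ _).trans ?_
    simp
  rw [h3] at h2
  exact_mod_cast h2.trans h4

end tr

/-- transfer of algebraicity along a homomorphism of fields -/
theorem transfer {K K' L : Type} [Field K] [Field K'] [Field L] [Algebra K K'] [Algebra K L]
    (φ : K' →ₐ[K] L) (M : IntermediateField K K') (B : IntermediateField K L)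
    (hMB : ∀ z ∈ M, φ z ∈ B) {a : K'} (ha : IsAlgebraic M a) : IsAlgebraic B (φ a) := by
  let ψ : M →+* B := (φ.toRingHom.comp (algebraMap M K')).codRestrict B.toSubfield
    (fun z => hMB z z.2)
  exact ha.ringHom_of_comp_eq ψ φ.toRingHom ψ.injective rfl

/-! ### the function field -/

theorem ex_field (n : ℕ) (P : Ideal (MvPolynomial (Fin n) ℂ)) [hP : P.IsPrime] :
    ∃ (F : Type) (_ : Field F) (_ : Algebra ℂ F) (xb : Fin n → F),
      RingHom.ker (aeval xb : MvPolynomial (Fin n) ℂ →ₐ[ℂ] F) = P ∧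
      ∀ J : Finset (Fin n), AlgebraicIndependent ℂ (fun j : J => xb j) →
        (J.card : WithBot ℕ∞) ≤ ringKrullDim (MvPolynomial (Fin n) ℂ ⧸ P) := by
  let A := MvPolynomial (Fin n) ℂ ⧸ P
  let F := FractionRing A
  let θ : A →ₐ[ℂ] F := IsScalarTower.toAlgHom ℂ A F
  have hθ : Function.Injective θ := IsFractionRing.injective A F
  have he : (aeval (fun i => θ (Ideal.Quotient.mkₐ ℂ P (X i))) : MvPolynomial (Fin n) ℂ →ₐ[ℂ] F) =
      θ.comp (Ideal.Quotient.mkₐ ℂ P) := by
    apply MvPolynomial.algHom_ext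
    intro i
    rw [aeval_X]
    rfl
  refine ⟨F, inferInstance, inferInstance, fun i => θ (Ideal.Quotient.mkₐ ℂ P (X i)), ?_, ?_⟩
  · rw [he]
    ext g
    rw [RingHom.mem_ker, AlgHom.comp_apply, map_eq_zero_iff θ hθ]
    exact Ideal.Quotient.eq_zero_iff_mem
  · intro J hJ
    have hJ' : AlgebraicIndependent ℂ (fun j : J => Ideal.Quotient.mkₐ ℂ P (X (j : Fin n))) :=
      AlgebraicIndependent.of_comp (f := θ) hJ
    obtain ⟨s, hs1, hs2⟩ := Pool.Agent.Helper834.EC.exists_ringKrullDim_eq_trdeg ℂ A
    have h1 := hJ'.cardinalMk_le_trdeg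
    rw [hs2] at h1
    have h2 : J.card ≤ s := by
      have : (Fintype.card J : Cardinal.{0}) ≤ s := by simpa using h1
      simpa using this
    show (J.card : WithBot ℕ∞) ≤ ringKrullDim A
    rw [hs1]
    exact_mod_cast h2

theorem ex_ext (F : Type) [Field F] (E : Type) :
    ∃ (L : Type) (_ : Field L) (_ : Algebra F L) (lam : E → L), AlgebraicIndependent F lam := by
  let θ : MvPolynomial E F →ₐ[F] FractionRing (MvPolynomial E F) :=
    IsScalarTower.toAlgHom F (MvPolynomial E F) (FractionRing (MvPolynomial E F))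
  refine ⟨FractionRing (MvPolynomial E F), inferInstance, inferInstance, fun e => θ (X e), ?_⟩
  exact (MvPolynomial.algebraicIndependent_X E F).map' (f := θ)
    (IsFractionRing.injective (MvPolynomial E F) (FractionRing (MvPolynomial E F)))

/-! ### the point -/

section pt

variable {n : ℕ} {E : Type}

/-- the point -/
def W {L : Type} [Field L] [Algebra ℂ L] (x : Fin n → L) (c : E → ℂ) (mu : E → L) :
    Fin n ⊕ (E ⊕ E) → L :=
  Sum.elim x (Sum.elim (fun j => algebraMap ℂ L (c j) + mu j) mu)

/-- the generic expansion -/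
noncomputable def th (c : E → ℂ) :
    MvPolynomial (Fin n ⊕ (E ⊕ E)) ℚ →ₐ[ℚ] MvPolynomial E (MvPolynomial (Fin n) ℂ) :=
  aeval (Sum.elim (fun i => C (X i)) (Sum.elim (fun j => C (C (c j)) + X j) X))

theorem W_iff {F L : Type} [Field F] [Field L] [Algebra ℂ F] [Algebra F L] [Algebra ℂ L]
    [IsScalarTower ℂ F L] [Algebra ℚ L] (x : Fin n → F) (c : E → ℂ) (mu : E → L)
    (hmu : AlgebraicIndependent F mu) (g : MvPolynomial (Fin n ⊕ (E ⊕ E)) ℚ) :
    aeval (W (fun i => algebraMap F L (x i)) c mu) g = 0 ↔ ∀ α, aeval x (coeff α (th c g)) = 0 := by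
  let Ψ : MvPolynomial E (MvPolynomial (Fin n) ℂ) →+* L :=
    (aeval mu : MvPolynomial E F →ₐ[F] L).toRingHom.comp
      (MvPolynomial.map (aeval x : MvPolynomial (Fin n) ℂ →ₐ[ℂ] F).toRingHom)
  have hΨ : ∀ p, Ψ p = aeval mu
      (MvPolynomial.map (aeval x : MvPolynomial (Fin n) ℂ →ₐ[ℂ] F).toRingHom p) := fun p => rfl
  have key : (aeval (W (fun i => algebraMap F L (x i)) c mu) :
      MvPolynomial (Fin n ⊕ (E ⊕ E)) ℚ →ₐ[ℚ] L).toRingHom = Ψ.comp (th c).toRingHom := by
    apply MvPolynomial.ringHom_ext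
    · intro r
      have h : ((aeval (W (fun i => algebraMap F L (x i)) c mu) :
          MvPolynomial (Fin n ⊕ (E ⊕ E)) ℚ →ₐ[ℚ] L).toRingHom.comp C) =
          (Ψ.comp (th (n := n) c).toRingHom).comp C := Subsingleton.elim _ _
      exact RingHom.congr_fun h r
    · rintro (i | j | j)
      · show aeval (W (fun i => algebraMap F L (x i)) c mu) (X (Sum.inl i)) =
          Ψ (aeval _ (X (Sum.inl i)))
        rw [aeval_X, aeval_X, hΨ]
        simp [W]
      · show aeval (W (fun i => algebraMap F L (x i)) c mu) (X (Sum.inr (Sum.inl j))) =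
          Ψ (aeval _ (X (Sum.inr (Sum.inl j))))
        rw [aeval_X, aeval_X, hΨ]
        simp [W, IsScalarTower.algebraMap_apply ℂ F L]
      · show aeval (W (fun i => algebraMap F L (x i)) c mu) (X (Sum.inr (Sum.inr j))) =
          Ψ (aeval _ (X (Sum.inr (Sum.inr j))))
        rw [aeval_X, aeval_X, hΨ]
        simp [W]
  have h1 : aeval (W (fun i => algebraMap F L (x i)) c mu) g = Ψ (th c g) :=
    RingHom.congr_fun key g
  rw [h1, hΨ]
  constructor
  · intro h2 α
    have h3 := (algebraicIndependent_iff.1 hmu) _ h2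
    have h4 := congrArg (coeff α) h3
    rw [coeff_map, coeff_zero] at h4
    exact h4
  · intro h2
    have h3 : MvPolynomial.map (aeval x : MvPolynomial (Fin n) ℂ →ₐ[ℂ] F).toRingHom (th c g) = 0 := by
      ext α
      rw [coeff_map, coeff_zero]
      exact h2 α
    rw [h3, map_zero]

end pt

/-! ### monomials -/

theorem zprod {n : ℕ} {K : Type} [Field K] (y : Fin n → K) (hy : ∀ i, y i ≠ 0) (a : Fin n → ℤ) :
    ∏ i, y i ^ a i = 1 ↔ ∏ i, y i ^ (a i).toNat = ∏ i, y i ^ (-a i).toNat := by
  have h1 : ∏ i, y i ^ a i = (∏ i, y i ^ (a i).toNat) / ∏ i, y i ^ (-a i).toNat := by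
    rw [← Finset.prod_div_distrib]
    refine Finset.prod_congr rfl fun i _ => ?_
    rw [← zpow_natCast, ← zpow_natCast, ← zpow_sub₀ (hy i), Int.toNat_sub_toNat_neg]
  have h2 : ∏ i, y i ^ (-a i).toNat ≠ 0 := Finset.prod_ne_zero_iff.2 fun i _ => pow_ne_zero _ (hy i)
  rw [h1, div_eq_one_iff_eq h2]

/-- the polynomial of a character -/
noncomputable def mon {n : ℕ} (a : Fin n → ℤ) : MvPolynomial (Fin n) ℂ :=
  ∏ i, X i ^ (a i).toNat - ∏ i, X i ^ (-a i).toNat

theorem mon_iff {n : ℕ} {K : Type} [Field K] [Algebra ℂ K] (y : Fin n → K) (hy : ∀ i, y i ≠ 0)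
    (a : Fin n → ℤ) : aeval y (mon a) = 0 ↔ ∏ i, y i ^ a i = 1 := by
  rw [zprod y hy, mon, map_sub, map_prod, map_prod, sub_eq_zero]
  simp only [map_pow, aeval_X]

theorem ne_of_ind {F L E : Type} [Field F] [Field L] [Algebra F L] {mu : E → L}
    (hmu : AlgebraicIndependent F mu) (j : E) (c : F) : algebraMap F L c + mu j ≠ 0 := by
  intro h
  have h1 : mu j = algebraMap F L (-c) := by
    rw [map_neg]
    linear_combination h
  exact hmu.transcendental j (by rw [h1]; exact isAlgebraic_algebraMap _)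

theorem ne_of_ind' {F L E : Type} [Field F] [Field L] [Algebra F L] {mu : E → L}
    (hmu : AlgebraicIndependent F mu) (j : E) : mu j ≠ 0 := by
  have := ne_of_ind hmu j 0
  rwa [map_zero, zero_add] at this

end SB

open SB in
theorem t_sb : S_SB := by
  intro hTD hCO hMI hSI hPW n P hP hX hD
  by_contra hcon
  push Not at hcon
  obtain ⟨F, _, _, xb, hker, hdim⟩ := ex_field n P
  have hmem : ∀ g : MvPolynomial (Fin n) ℂ, aeval xb g = 0 ↔ g ∈ P := by
    intro g
    rw [← hker, RingHom.mem_ker]
  have hXi : ∀ i : Fin n, (X i : MvPolynomial (Fin n) ℂ) ∉ P := fun i hi =>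
    hX (P.mem_of_dvd (Finset.dvd_prod_of_mem _ (Finset.mem_univ i)) hi)
  have hx0 : ∀ i, xb i ≠ 0 := by
    intro i hi
    apply hXi i
    rw [← hmem, aeval_X]
    exact hi
  have hmul : ∀ a : Fin n → ℤ, ∏ i, xb i ^ a i = 1 → a = 0 := by
    intro a ha
    by_contra hne
    obtain ⟨x, hx1, hx2, hx3⟩ := hcon a hne
    apply hx3
    rw [← mon_iff x hx1]
    exact hx2 _ ((hmem _).1 ((mon_iff xb hx0 a).2 ha))
  -- the coefficients
  obtain ⟨T, hT⟩ := (IsNoetherian.noetherian P : P.FG)
  classical
  set Cs : Finset ℂ := T.biUnion (fun f => f.support.image (fun s => coeff s f)) with hCs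
  have hCs0 : ∀ z ∈ Cs, z ≠ 0 := by
    intro z hz
    rw [hCs, Finset.mem_biUnion] at hz
    obtain ⟨f, _, hz⟩ := hz
    obtain ⟨s, hs, rfl⟩ := Finset.mem_image.1 hz
    exact mem_support_iff.1 hs
  obtain ⟨E, _, c, hc0, hcT⟩ : ∃ (E : Type) (_ : Fintype E) (c : E → ℂ), (∀ j, c j ≠ 0) ∧
      ∀ z ∈ Cs, ∃ j, c j = z :=
    ⟨Cs, inferInstance, fun z => z, fun z => hCs0 z z.2, fun z hz => ⟨⟨z, hz⟩, rfl⟩⟩
  have hcharF : CharZero F := charZero_of_injective_algebraMap (algebraMap ℂ F).injective
  have htF : IsScalarTower ℚ ℂ F := IsScalarTower.of_algebraMap_eq' (Subsingleton.elim _ _)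
  set K0 := IntermediateField.adjoin ℚ (Set.range c) with hK0
  obtain ⟨J, hJ1, hJ2⟩ := hTD n F xb K0 (T : Set (MvPolynomial (Fin n) ℂ)) (by rw [hker]; exact hT.symm)
    (by
      intro f hf s
      by_cases h : coeff s f = 0
      · rw [h]
        exact K0.zero_mem
      · have h1 : coeff s f ∈ Cs := by
          rw [hCs, Finset.mem_biUnion]
          exact ⟨f, hf, Finset.mem_image.2 ⟨s, mem_support_iff.2 h, rfl⟩⟩
        obtain ⟨j, hj⟩ := hcT _ h1
        rw [← hj]
        exact IntermediateField.subset_adjoin _ _ ⟨j, rfl⟩)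
  have hJdim := hdim J hJ1
  obtain ⟨I, hI1, hI2, -⟩ := hCO ℚ ℂ E c
  -- the generic point
  obtain ⟨L, _, _, lam, hlam⟩ := ex_ext F (Option E)
  let : Algebra ℂ L := ((algebraMap F L).comp (algebraMap ℂ F)).toAlgebra
  have htL : IsScalarTower ℂ F L := IsScalarTower.of_algebraMap_eq' rfl
  have hcharL : CharZero L := charZero_of_injective_algebraMap (algebraMap ℂ L).injective
  have htL2 : IsScalarTower ℚ ℂ L := IsScalarTower.of_algebraMap_eq' (Subsingleton.elim _ _)
  have htL3 : IsScalarTower ℚ F L := IsScalarTower.of_algebraMap_eq' (Subsingleton.elim _ _)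
  set mu : E → L := fun j => lam (some j) with hmu
  have hmuI : AlgebraicIndependent F mu := hlam.comp some (Option.some_injective E)
  set w : Fin n ⊕ (E ⊕ E) → L := W (fun i => algebraMap F L (xb i)) c mu with hw
  have hcL : ∀ j, algebraMap ℂ L (c j) = algebraMap F L (algebraMap ℂ F (c j)) := fun j =>
    IsScalarTower.algebraMap_apply ℂ F L (c j)
  have hw0 : ∀ i, w i ≠ 0 := by
    rintro (i | j | j)
    · exact fun h => hx0 i ((map_eq_zero (algebraMap F L)).1 h)
    · show algebraMap ℂ L (c j) + mu j ≠ 0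
      rw [hcL]
      exact ne_of_ind hmuI j _
    · exact ne_of_ind' hmuI j
  have hwI : ∀ a : Fin n ⊕ (E ⊕ E) → ℤ, ∏ i, w i ^ a i = 1 → a = 0 := by
    intro a ha
    have hinj : ∀ l : E, Function.Injective (![0, algebraMap ℂ F (c l)] : Fin 2 → F) := by
      intro l
      have hne : algebraMap ℂ F (c l) ≠ 0 := fun h => hc0 l ((map_eq_zero (algebraMap ℂ F)).1 h)
      intro i j hij
      fin_cases i <;> fin_cases j
      · rfl
      · exact absurd hij.symm hne
      · exact absurd hij hne
      · rfl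
    have h1 := hSI hMI (Fin n) E F L lam hlam xb hx0 hmul (fun _ => 2)
      (fun l => ![0, algebraMap ℂ F (c l)]) hinj 0 0 (fun i => a (Sum.inl i)) 0
      (fun l => ![a (Sum.inr (Sum.inr l)), a (Sum.inr (Sum.inl l))]) (by
        rw [Fintype.prod_sum_type, Fintype.prod_sum_type] at ha
        rw [zpow_zero, zpow_zero, one_mul, one_mul]
        simp only [Pi.zero_apply, zpow_zero, Finset.prod_const_one, mul_one, Fin.prod_univ_two,
          Matrix.cons_val_zero, Matrix.cons_val_one, map_zero, add_zero]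
        rw [Finset.prod_mul_distrib, ← ha]
        congr 1
        rw [mul_comm]
        congr 1
        refine Finset.prod_congr rfl fun l _ => ?_
        show _ = (algebraMap ℂ L (c l) + mu l) ^ _
        rw [hcL, add_comm])
    obtain ⟨-, -, h2, -, h3⟩ := h1
    funext i
    rcases i with i | j | j
    · exact congrFun h2 i
    · exact h3 j 1
    · exact h3 j 0
  obtain ⟨f, hfw, hf⟩ := hPW (Fin n ⊕ (E ⊕ E)) L w hw0 hwI
  -- the transcendence degree of the generic point
  set m : ℕ := I.card + J.card + Fintype.card E + 1 with hm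
  have hnot : ¬ TrGe ℚ w m := by
    intro h
    set v : I ⊕ (J ⊕ E) → L := Sum.elim (fun i => algebraMap ℂ L (c i))
      (Sum.elim (fun j => algebraMap F L (xb j)) mu) with hv
    set B := IntermediateField.adjoin ℚ (Set.range v) with hB
    have hBbar : ∀ x ∈ B, x ∈ bar B := fun x hx => mem_bar.2 (isAlgebraic_algebraMap (⟨x, hx⟩ : B))
    have hvB : ∀ k, v k ∈ B := fun k => IntermediateField.subset_adjoin _ _ ⟨k, rfl⟩
    have hcbar : ∀ j, algebraMap ℂ L (c j) ∈ bar B := by
      intro j
      rw [mem_bar]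
      have h1 := hI2 j
      refine transfer (IsScalarTower.toAlgHom ℚ ℂ L)
        (IntermediateField.adjoin ℚ (c '' (I : Set E))) B ?_ h1
      intro z hz
      have hle : IntermediateField.adjoin ℚ (c '' (I : Set E)) ≤
          B.comap (IsScalarTower.toAlgHom ℚ ℂ L) := by
        rw [IntermediateField.adjoin_le_iff]
        rintro _ ⟨i, hi, rfl⟩
        exact hvB (Sum.inl ⟨i, hi⟩)
      exact hle hz
    have hK0bar : ∀ z ∈ K0, algebraMap ℂ L z ∈ bar B := by
      intro z hz
      have hle : K0 ≤ (bar B).comap (IsScalarTower.toAlgHom ℚ ℂ L) := by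
        rw [hK0, IntermediateField.adjoin_le_iff]
        rintro _ ⟨i, rfl⟩
        exact hcbar i
      exact hle hz
    have hxbar : ∀ i, algebraMap F L (xb i) ∈ bar B := by
      intro i
      apply bar_bar
      refine transfer (IsScalarTower.toAlgHom ℚ F L) _ (bar B) ?_ (hJ2 i)
      intro z hz
      have hle : IntermediateField.adjoin ℚ
          ((algebraMap ℂ F) '' (K0 : Set ℂ) ∪ xb '' (J : Set (Fin n))) ≤
          (bar B).comap (IsScalarTower.toAlgHom ℚ F L) := by
        rw [IntermediateField.adjoin_le_iff]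
        rintro _ (⟨z, hz, rfl⟩ | ⟨j, hj, rfl⟩)
        · have h2 := hK0bar z hz
          rw [IsScalarTower.algebraMap_apply ℂ F L] at h2
          exact h2
        · exact hBbar _ (hvB (Sum.inr (Sum.inl ⟨j, hj⟩)))
      exact hle hz
    have h1 := trge_bound v w (by
      rintro (i | j | j)
      · exact hxbar i
      · exact (bar B).add_mem (hcbar j) (hBbar _ (hvB (Sum.inr (Sum.inr j))))
      · exact hBbar _ (hvB (Sum.inr (Sum.inr j)))) m h
    rw [Fintype.card_sum, Fintype.card_sum, Fintype.card_coe, Fintype.card_coe] at h1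
    omega
  -- a coefficient
  have hcoef : ∃ α, coeff α (th c f) ∉ P := by
    by_contra hall
    push Not at hall
    exact hfw ((W_iff xb c mu hmuI f).2 fun α => (hmem _).2 (hall α))
  obtain ⟨α, hα⟩ := hcoef
  have hvan := hD (coeff α (th c f)) (by
    intro x hx1 hx2 ⟨Λ, hΛ1, hΛ2⟩
    obtain ⟨L', _, _, lam', hlam'⟩ := ex_ext ℂ E
    have hcharL' : CharZero L' := charZero_of_injective_algebraMap (algebraMap ℂ L').injective
    have htL' : IsScalarTower ℚ ℂ L' := IsScalarTower.of_algebraMap_eq' (Subsingleton.elim _ _)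
    set w' : Fin n ⊕ (E ⊕ E) → L' := W (fun i => algebraMap ℂ L' (x i)) c lam' with hw'
    have hw'0 : ∀ i, w' i ≠ 0 := by
      rintro (i | j | j)
      · exact fun h => hx1 i ((map_eq_zero (algebraMap ℂ L')).1 h)
      · exact ne_of_ind hlam' j _
      · exact ne_of_ind' hlam' j
    have hspec : ∀ g : MvPolynomial (Fin n ⊕ (E ⊕ E)) ℚ, aeval w g = 0 → aeval w' g = 0 := by
      intro g hg
      rw [hw', W_iff x c lam' hlam' g]
      intro β
      have h1 := (W_iff xb c mu hmuI g).1 hg β
      exact hx2 _ ((hmem _).1 h1)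
    -- the transcendence degree of the special point
    have htr : TrGe ℚ w' (I.card + Fintype.card E) := by
      have h1 : AlgebraicIndependent ℚ (Sum.elim lam' (algebraMap ℂ L' ∘ fun i : I => c i)) :=
        hI1.sumElim_comp hlam'
      have hcard : Fintype.card (E ⊕ I) = I.card + Fintype.card E := by
        rw [Fintype.card_sum, Fintype.card_coe, add_comm]
      let e := (Fintype.equivFinOfCardEq hcard).symm
      refine ⟨fun k => Sum.elim lam' (algebraMap ℂ L' ∘ fun i : I => c i) (e k),
        h1.comp e e.injective, fun k => ?_⟩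
      have hwm : ∀ i, w' i ∈ IntermediateField.adjoin ℚ (Set.range w') := fun i =>
        IntermediateField.subset_adjoin _ _ ⟨i, rfl⟩
      have hall : ∀ z : E ⊕ I, Sum.elim lam' (algebraMap ℂ L' ∘ fun i : I => c i) z ∈
          IntermediateField.adjoin ℚ (Set.range w') := by
       rintro (j | i)
       · exact hwm (Sum.inr (Sum.inr j))
       · show algebraMap ℂ L' (c i) ∈ _
         have h2 : algebraMap ℂ L' (c i) = w' (Sum.inr (Sum.inl i)) - w' (Sum.inr (Sum.inr i)) := by
           show algebraMap ℂ L' (c i) = (algebraMap ℂ L' (c i) + lam' i) - lam' i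
           ring
         rw [h2]
         exact sub_mem (hwm _) (hwm _)
      exact hall (e k)
    -- the lattice
    let ex : (Fin n → ℤ) →ₗ[ℤ] (Fin n ⊕ (E ⊕ E) → ℤ) :=
      { toFun := fun a => Sum.elim a 0
        map_add' := fun a b => by funext i; rcases i with i | i <;> simp
        map_smul' := fun r a => by funext i; rcases i with i | i <;> simp }
    have hex : Function.Injective ex := fun a b hab => by
      funext i
      exact congrFun hab (Sum.inl i)
    have hfin : Module.finrank ℤ (Λ.map ex) = Module.finrank ℤ Λ :=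
      (LinearEquiv.finrank_eq (Submodule.equivMapOfInjective ex hex Λ)).symm
    have hrel : ∀ a ∈ Λ.map ex, ∏ i, w' i ^ a i = 1 := by
      rintro _ ⟨a, ha, rfl⟩
      rw [Fintype.prod_sum_type]
      have h1 : ∀ i : Fin n, w' (Sum.inl i) ^ (ex a) (Sum.inl i) = algebraMap ℂ L' (x i ^ a i) := by
        intro i
        rw [map_zpow₀]
        rfl
      have h2 : ∀ i : E ⊕ E, w' (Sum.inr i) ^ (ex a) (Sum.inr i) = 1 := by
        intro i
        show w' (Sum.inr i) ^ (0 : ℤ) = 1
        rw [zpow_zero]
      simp only [h1, h2, Finset.prod_const_one, mul_one]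
      rw [← map_prod, hΛ2 a ha, map_one]
    have hle : m ≤ (I.card + Fintype.card E) + Module.finrank ℤ (Λ.map ex) := by
      rw [hfin]
      have h1 : (J.card : WithBot ℕ∞) + ((n - Module.finrank ℤ Λ : ℕ) : WithBot ℕ∞) + 1 ≤
          (n : WithBot ℕ∞) := le_trans (by gcongr) hΛ1
      have h2 : J.card + (n - Module.finrank ℤ Λ) + 1 ≤ n := by exact_mod_cast h1
      omega
    have h0 := hf L' w' hw'0 hspec m (I.card + Fintype.card E) (Λ.map ex) hnot htr hrel hle
    have h3 := (W_iff x c lam' hlam' f).1 h0 α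
    exact h3)
  -- Nullstellensatz
  have hrad : coeff α (th c f) * ∏ i : Fin n, (X i : MvPolynomial (Fin n) ℂ) ∈ P.radical := by
    rw [← MvPolynomial.vanishingIdeal_zeroLocus_eq_radical (K := ℂ)]
    rw [MvPolynomial.mem_vanishingIdeal_iff]
    intro x hx
    rw [map_mul, map_prod]
    by_cases h : ∀ i, x i ≠ 0
    · have h1 := hvan x h (fun g hg => hx g hg)
      have h2 : aeval x (coeff α (th c f)) = 0 := h1
      rw [h2, zero_mul]
    · push Not at h
      obtain ⟨i, hi⟩ := h
      rw [Finset.prod_eq_zero (Finset.mem_univ i), mul_zero]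
      rw [aeval_X]
      exact hi
  rw [hP.radical] at hrad
  rcases hP.mem_or_mem hrad with h | h
  · exact hα h
  · exact hX h

end Pool.Agent.W206.CT
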