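import Pool.Agent.W206.CT.Stm

set_option autoImplicit false

namespace Pool.Agent.W206.CT

namespace SI

theorem trans {T Ω L : Type} [Field Ω] [Field L] [Algebra Ω L] {x : T → L}
    (hx : AlgebraicIndependent Ω x) (t : T) (s : Set T) (ht : t ∉ s) :
    Transcendental (IntermediateField.adjoin Ω (x '' s)) (x t) :=
  IntermediateField.transcendental_adjoin_iff.mpr (hx.transcendental_adjoin ht)

theorem mem_of {T Ω L : Type} [Field Ω] [Field L] [Algebra Ω L] (x : T → L) (s : Set T) (t : T)
    (ht : t ∈ s) : x t ∈ IntermediateField.adjoin Ω (x '' s) :=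
  IntermediateField.subset_adjoin _ _ ⟨t, ht, rfl⟩

/-- A transcendental element plus a constant is nonzero. -/
theorem add_ne {K L : Type} [Field K] [Field L] [Algebra K L] {t : L} (ht : Transcendental K t)
    (c : K) : t + algebraMap K L c ≠ 0 := by
  intro h
  apply ht
  have : t = algebraMap K L (-c) := by
    rw [map_neg]; exact eq_neg_of_add_eq_zero_left h
  rw [this]
  exact isAlgebraic_algebraMap _

theorem add_ne' {T Ω L : Type} [Field Ω] [Field L] [Algebra Ω L] {x : T → L}
    (hx : AlgebraicIndependent Ω x) (t : T) (c : Ω) : x t + algebraMap Ω L c ≠ 0 :=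
  add_ne (hx.transcendental t) c

end SI

open SI in
theorem t_si : S_SI := by
  intro hMI ι E Ω L _ _ _ _ _ lam hlam w hw hwi r s hs a b c d e hrel
  classical
  -- distinctness of `0, -1, w_i`
  have hw1 : ∀ i, w i ≠ -1 := by
    intro i h
    have := hwi (Pi.single i 2) (by
      rw [Finset.prod_eq_single i]
      · rw [Pi.single_eq_same, h]; norm_num
      · intro j _ hj; rw [Pi.single_eq_of_ne hj, zpow_zero]
      · intro h; exact absurd (Finset.mem_univ i) h)
    have h2 := congrFun this i
    rw [Pi.single_eq_same] at h2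
    norm_num at h2
  have hwinj : Function.Injective w := by
    intro i j hij
    by_contra hne
    have := hwi (Pi.single i 1 - Pi.single j 1) (by
      have hpt : ∀ k, w k ^ ((Pi.single i 1 - Pi.single j 1 : ι → ℤ) k) =
          w k ^ ((Pi.single i 1 : ι → ℤ) k) * (w k ^ ((Pi.single j 1 : ι → ℤ) k))⁻¹ := by
        intro k
        rw [Pi.sub_apply, zpow_sub₀ (hw k), div_eq_mul_inv]
      rw [Finset.prod_congr rfl (fun k _ => hpt k), Finset.prod_mul_distrib,
        Finset.prod_inv_distrib]
      have hone : ∀ i : ι, ∏ k, w k ^ ((Pi.single i 1 : ι → ℤ) k) = w i := by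
        intro i
        rw [Finset.prod_eq_single i]
        · rw [Pi.single_eq_same, zpow_one]
        · intro j _ hj; rw [Pi.single_eq_of_ne hj, zpow_zero]
        · intro h; exact absurd (Finset.mem_univ i) h
      rw [hone i, hone j, hij]
      exact mul_inv_cancel₀ (hw j))
    have h2 := congrFun this i
    rw [Pi.sub_apply, Pi.single_eq_same, Pi.single_eq_of_ne hne] at h2
    norm_num at h2
  -- first step
  have hstep1 : a = 0 ∧ b = 0 ∧ d = 0 := by
    set K1 := IntermediateField.adjoin Ω (lam '' (Set.range some)) with hK1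
    have htr : Transcendental K1 (lam none) := trans hlam none (Set.range some) (by simp)
    have hmem : ∀ l, lam (some l) ∈ K1 := fun l => mem_of lam _ _ ⟨l, rfl⟩
    have hmemΩ : ∀ z : Ω, algebraMap Ω L z ∈ K1 := fun z => K1.algebraMap_mem z
    let cc : Option (Option ι) → K1 := fun x =>
      match x with
      | none => 0
      | some none => -1
      | some (some i) => algebraMap Ω K1 (w i)
    have hcc : Function.Injective cc := by
      have hi : Function.Injective (algebraMap Ω K1) := (algebraMap Ω K1).injective
      rintro (_ | _ | i) (_ | _ | j) h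
      · rfl
      · exfalso
        have h' : (0 : K1) = -1 := h
        exact one_ne_zero (neg_eq_zero.mp h'.symm)
      · exfalso
        have h' : (0 : K1) = algebraMap Ω K1 (w j) := h
        exact hw j (hi (by rw [← h', map_zero]))
      · exfalso
        have h' : (-1 : K1) = 0 := h
        exact one_ne_zero (neg_eq_zero.mp h')
      · rfl
      · exfalso
        have h' : (-1 : K1) = algebraMap Ω K1 (w j) := h
        exact hw1 j (hi (by rw [← h', map_neg, map_one]))
      · exfalso
        have h' : algebraMap Ω K1 (w i) = 0 := h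
        exact hw i (hi (by rw [h', map_zero]))
      · exfalso
        have h' : algebraMap Ω K1 (w i) = -1 := h
        exact hw1 i (hi (by rw [h', map_neg, map_one]))
      · have h' : algebraMap Ω K1 (w i) = algebraMap Ω K1 (w j) := h
        rw [hwinj (hi h')]
    let nn : Option (Option ι) → ℤ := fun x =>
      match x with
      | none => a
      | some none => b
      | some (some i) => d i
    let lamK : E → K1 := fun l => ⟨lam (some l), hmem l⟩
    let κ : K1 := (-1) ^ b * (∏ i, algebraMap Ω K1 (w i) ^ c i) *
      ∏ l, ∏ j, (lamK l + algebraMap Ω K1 (s l j)) ^ e l j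
    have hκL : algebraMap K1 L κ = (-1) ^ b * (∏ i, algebraMap Ω L (w i) ^ c i) *
        ∏ l, ∏ j, (lam (some l) + algebraMap Ω L (s l j)) ^ e l j := by
      simp only [κ, map_mul, map_prod, map_zpow₀, map_add, map_neg, map_one]
      rfl
    have hκ : κ ≠ 0 := by
      have h1 : algebraMap K1 L κ ≠ 0 := by
        rw [hκL]
        refine mul_ne_zero (mul_ne_zero (zpow_ne_zero _ (by simp)) ?_) ?_
        · refine Finset.prod_ne_zero_iff.mpr (fun i _ => zpow_ne_zero _ ?_)
          exact fun h => hw i ((map_eq_zero _).mp h)
        · refine Finset.prod_ne_zero_iff.mpr (fun l _ => Finset.prod_ne_zero_iff.mpr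
            (fun j _ => zpow_ne_zero _ (add_ne' hlam _ _)))
      intro h
      exact h1 (by rw [h, map_zero])
    have hrel' : algebraMap K1 L κ * ∏ j, (lam none + algebraMap K1 L (cc j)) ^ nn j = 1 := by
      rw [Fintype.prod_option, Fintype.prod_option, hκL]
      have e1 : algebraMap K1 L (cc none) = 0 := map_zero _
      have e2 : algebraMap K1 L (cc (some none)) = -1 := by
        change algebraMap K1 L (-1) = -1
        rw [map_neg, map_one]
      have e3 : ∀ i, algebraMap K1 L (cc (some (some i))) = algebraMap Ω L (w i) :=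
        fun i => rfl
      rw [e1, e2]
      simp only [e3, add_zero]
      change _ * (lam none ^ a * ((lam none + -1) ^ b * ∏ i, _ ^ d i)) = 1
      have hneg : (1 - lam none) ^ b = (-1) ^ b * (lam none + -1) ^ b := by
        rw [← mul_zpow]; congr 1; ring
      refine Eq.trans ?_ hrel
      rw [hneg]
      ring
    have h := hMI K1 L (Option (Option ι)) (lam none) htr cc hcc κ hκ nn hrel'
    refine ⟨congrFun h none, congrFun h (some none), ?_⟩
    funext i
    exact congrFun h (some (some i))
  obtain ⟨ha, hb, hd⟩ := hstep1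
  have hrel2 : (∏ i, algebraMap Ω L (w i) ^ c i) *
      (∏ l, ∏ j, (lam (some l) + algebraMap Ω L (s l j)) ^ e l j) = 1 := by
    rw [← hrel, ha, hb, hd]
    simp
  -- second step
  have hstep2 : ∀ l j, e l j = 0 := by
    intro l
    set K2 := IntermediateField.adjoin Ω (lam '' {x | x ≠ some l}) with hK2
    have htr : Transcendental K2 (lam (some l)) := trans hlam (some l) _ (by simp)
    have hmem : ∀ l', l' ≠ l → lam (some l') ∈ K2 := fun l' h' =>
      mem_of lam _ _ (by
        change some l' ≠ some l
        exact fun h => h' (Option.some.inj h))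
    let lamK : E → K2 := fun l' => if h : l' ≠ l then ⟨lam (some l'), hmem l' h⟩ else 0
    have hlamK : ∀ l', l' ≠ l → algebraMap K2 L (lamK l') = lam (some l') := by
      intro l' h
      simp only [lamK, dif_pos h]
      rfl
    let κ : K2 := (∏ i, algebraMap Ω K2 (w i) ^ c i) *
      ∏ l' ∈ Finset.univ.erase l, ∏ j, (lamK l' + algebraMap Ω K2 (s l' j)) ^ e l' j
    have hκL : algebraMap K2 L κ = (∏ i, algebraMap Ω L (w i) ^ c i) *
        ∏ l' ∈ Finset.univ.erase l, ∏ j,
          (lam (some l') + algebraMap Ω L (s l' j)) ^ e l' j := by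
      simp only [κ, map_mul, map_prod, map_zpow₀, map_add]
      congr 1
      refine Finset.prod_congr rfl (fun l' hl' => Finset.prod_congr rfl (fun j _ => ?_))
      rw [hlamK l' (Finset.ne_of_mem_erase hl')]
      rfl
    have hκ : κ ≠ 0 := by
      have h1 : algebraMap K2 L κ ≠ 0 := by
        rw [hκL]
        refine mul_ne_zero ?_ ?_
        · refine Finset.prod_ne_zero_iff.mpr (fun i _ => zpow_ne_zero _ ?_)
          exact fun h => hw i ((map_eq_zero _).mp h)
        · refine Finset.prod_ne_zero_iff.mpr (fun l _ => Finset.prod_ne_zero_iff.mpr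
            (fun j _ => zpow_ne_zero _ (add_ne' hlam _ _)))
      intro h
      exact h1 (by rw [h, map_zero])
    have hinj : Function.Injective (fun j => algebraMap Ω K2 (s l j)) :=
      fun j j' h => hs l ((algebraMap Ω K2).injective h)
    have hrel' : algebraMap K2 L κ *
        ∏ j, (lam (some l) + algebraMap K2 L (algebraMap Ω K2 (s l j))) ^ e l j = 1 := by
      rw [hκL, ← hrel2, ← Finset.mul_prod_erase Finset.univ _ (Finset.mem_univ l)]
      have e3 : ∀ j, algebraMap K2 L (algebraMap Ω K2 (s l j)) = algebraMap Ω L (s l j) :=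
        fun j => rfl
      simp only [e3]
      ring
    have h := hMI K2 L (Fin (r l)) (lam (some l)) htr _ hinj κ hκ (e l) hrel'
    intro j
    exact congrFun h j
  refine ⟨ha, hb, ?_, hd, hstep2⟩
  apply hwi
  have h3 : (∏ i, algebraMap Ω L (w i) ^ c i) = 1 := by
    rw [← hrel2]
    have : (∏ l, ∏ j, (lam (some l) + algebraMap Ω L (s l j)) ^ e l j) = 1 := by
      refine Finset.prod_eq_one (fun l _ => Finset.prod_eq_one (fun j _ => ?_))
      rw [hstep2 l j, zpow_zero]
    rw [this, mul_one]
  apply (algebraMap Ω L).injective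
  rw [map_one, map_prod, ← h3]
  refine Finset.prod_congr rfl (fun i _ => ?_)
  rw [map_zpow₀]

end Pool.Agent.W206.CT
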