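import Pool.Agent.W206.CT.Stm

/-!
# Change of the index set (helper919)
-/

set_option autoImplicit false

namespace Pool.Agent.W206.CT

open MvPolynomial

namespace TR

theorem atyp {K ι ι' L : Type} [Field K] [Fintype ι] [Fintype ι'] [Field L] [Algebra K L]
    (e : ι ≃ ι') {ω : ι → L} (h : AtypPt K ω) : AtypPt K (fun i' => ω (e.symm i')) := by
  obtain ⟨h1, m, Λ, ⟨y, hy1, hy2⟩, h3, h4⟩ := h
  refine ⟨fun i => h1 _, m,
    Λ.map (LinearEquiv.funCongrLeft ℤ ℤ (Equiv.sumCongr e e).symm).toLinearMap,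
    ⟨y, hy1, ?_⟩, ?_, ?_⟩
  · have hr : Set.range (fun i' => ω (e.symm i')) = Set.range ω := e.symm.surjective.range_comp ω
    rw [hr]
    exact hy2
  · rintro _ ⟨a, ha, rfl⟩
    rw [← h3 a ha]
    unfold chr
    congr 1
    · exact e.symm.prod_comp (fun i => ω i ^ a (Sum.inl i))
    · exact e.symm.prod_comp (fun i => (1 - ω i) ^ a (Sum.inr i))
  · rw [LinearEquiv.finrank_map_eq, ← Fintype.card_congr e]
    exact h4

theorem ker_eq {K ι ι' L : Type} [Field K] [Field L] [Algebra K L] (e : ι ≃ ι') (ω : ι → L) :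
    RingHom.ker (aeval (fun i' => ω (e.symm i')) : MvPolynomial ι' K →ₐ[K] L) =
      Ideal.comap (rename (R := K) e.symm)
        (RingHom.ker (aeval ω : MvPolynomial ι K →ₐ[K] L)) := by
  ext g
  rw [Ideal.mem_comap, RingHom.mem_ker, RingHom.mem_ker, aeval_rename]
  rfl

end TR

theorem t_tr : S_TR := by
  classical
  intro K ι ι' _ _ _ e h
  obtain ⟨S, h1, h2⟩ := h
  refine ⟨S.image (Ideal.comap (rename (R := K) e.symm)), ?_, ?_⟩
  · intro p hp
    obtain ⟨q, hq, rfl⟩ := Finset.mem_image.1 hp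
    obtain ⟨L, iF, iA, ω, h3, h4⟩ := h1 q hq
    refine ⟨L, iF, iA, fun i' => ω (e.symm i'), TR.atyp e h3, ?_⟩
    rw [TR.ker_eq, h4]
  · intro L _ _ ω' hω'
    have h3 := TR.atyp e.symm hω'
    obtain ⟨p, hp, hle⟩ := h2 L _ h3
    refine ⟨Ideal.comap (rename (R := K) e.symm) p, Finset.mem_image_of_mem _ hp, ?_⟩
    have h4 := TR.ker_eq (K := K) e (fun i => ω' (e.symm.symm i))
    have h5 : (fun i' => (fun i => ω' (e.symm.symm i)) (e.symm i')) = ω' := by
      ext i'
      simp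
    rw [h5] at h4
    rw [h4]
    exact Ideal.comap_mono hle

end Pool.Agent.W206.CT
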