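import Pool.Agent.W206.CT.KL
import Pool.Agent.W206.CT.D1
import Pool.Agent.W206.CT.DA
import Pool.Agent.W206.CT.FQ
import Pool.Agent.W206.CT.JS
import Pool.Agent.W206.CT.L1
import Pool.Agent.W206.CT.LG
import Pool.Agent.W206.CT.LI
import Pool.Agent.W206.CT.MI
import Pool.Agent.W206.CT.NU
import Pool.Agent.W206.CT.RK
import Pool.Agent.W206.CT.RS
import Pool.Agent.W206.CT.SA
import Pool.Agent.W206.CT.SB
import Pool.Agent.W206.CT.SI
import Pool.Agent.W206.CT.TD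
import Pool.Agent.W206.CT.TR

set_option autoImplicit false

namespace Pool.Agent.W206.CT

open MvPolynomial KLx

/-- the variety with prime ideal `P` meets `{z_i ≠ 0, 1}` and is an atypical subvariety of the
`k`-th power of the line -/
def Atypical (k : ℕ) (P : Ideal (MvPolynomial (Fin k) ℂ)) : Prop :=
  P.IsPrime ∧ (∀ i, X i ∉ P ∧ (1 - X i : MvPolynomial (Fin k) ℂ) ∉ P) ∧
  ∃ Λ : Submodule ℤ (Fin k ⊕ Fin k → ℤ),
    (k : WithBot ℕ∞) + 1 ≤ ringKrullDim (MvPolynomial (Fin k) ℂ ⧸ P) +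
      (Module.finrank ℤ Λ : WithBot ℕ∞) ∧
    ∀ a ∈ Λ, ∀ z : Fin k → ℂ, (∀ i, z i ≠ 0 ∧ z i ≠ 1) → (∀ f ∈ P, eval z f = 0) →
      (∏ i, z i ^ a (Sum.inl i)) * ∏ i, (1 - z i) ^ a (Sum.inr i) = 1

theorem comap_psi_inl {k : ℕ} (P : Ideal (MvPolynomial (Fin k) ℂ)) :
    P.comap (psi (fun i : Fin k => (Sum.inl i : Fin k ⊕ Fin k))) = P := by
  have : psi (fun i : Fin k => (Sum.inl i : Fin k ⊕ Fin k)) = AlgHom.id ℂ _ := by
    refine MvPolynomial.algHom_ext fun i => ?_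
    rw [psi_X]
    rfl
  rw [this]
  rfl

theorem atyp_of_Atypical {k : ℕ} {P : Ideal (MvPolynomial (Fin k) ℂ)} (h : Atypical k P) :
    ∃ (L : Type) (_ : Field L) (_ : Algebra ℂ L) (ω : Fin k → L), AtypPt ℂ ω ∧
      P = RingHom.ker (aeval ω : MvPolynomial (Fin k) ℂ →ₐ[ℂ] L) := by
  obtain ⟨hP, hX, Λ, hdim, hΛ⟩ := h
  refine ⟨LR P, inferInstance, inferInstance, rho P, ⟨rho_ne P hX, ?_⟩, (ker_rho P).symm⟩
  obtain ⟨s, hs1, hs2⟩ := dim_le P (fun i : Fin k => (Sum.inl i : Fin k ⊕ Fin k))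
  rw [comap_psi_inl] at hs1
  refine ⟨s, Λ, hs2, fun a ha => ?_, ?_⟩
  · rw [chr_eq, ← bin_eq_zero (co_ne (rho_ne P hX))]
    have h1 : (bin (co X) a * ∏ i : Fin k, (X i * (1 - X i)) : MvPolynomial (Fin k) ℂ) ∈ P := by
      rw [← hP.radical, ← vanishingIdeal_zeroLocus_eq_radical (K := ℂ), mem_vanishingIdeal_iff]
      intro x hx
      rw [mem_zeroLocus_iff] at hx
      rw [map_mul, map_prod]
      simp only [map_mul, map_sub, map_one, aeval_X]
      by_cases h0 : ∀ j, x j ≠ 0 ∧ x j ≠ 1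
      · have h2 := hΛ a ha x h0 (fun g hg => by rw [← coe_aeval_eq_eval]; exact hx g hg)
        have h3 := map_bin ((aeval x : MvPolynomial (Fin k) ℂ →ₐ[ℂ] ℂ) :
          MvPolynomial (Fin k) ℂ →+* ℂ) (co X) a
        have h5 : ∀ t, ((aeval x : MvPolynomial (Fin k) ℂ →ₐ[ℂ] ℂ) :
          MvPolynomial (Fin k) ℂ →+* ℂ) (co X t) = co x t := by
          intro t
          rw [map_co]
          simp only [RingHom.coe_coe, aeval_X]
        simp only [h5] at h3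
        simp only [RingHom.coe_coe] at h3
        rw [h3, (bin_eq_zero (co_ne h0) a).2 (by rw [← chr_eq]; exact h2), zero_mul]
      · push Not at h0
        obtain ⟨j, hj⟩ := h0
        rw [Finset.prod_eq_zero (Finset.mem_univ j), mul_zero]
        by_cases hj0 : x j = 0
        · rw [hj0, zero_mul]
        · rw [hj hj0, sub_self, mul_zero]
    have h2 : (bin (co X) a : MvPolynomial (Fin k) ℂ) ∈ P := by
      rcases hP.mem_or_mem h1 with h2 | h2
      · exact h2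
      · obtain ⟨i, -, hi⟩ := (hP.prod_mem_iff (s := Finset.univ)).1 h2
        rcases hP.mem_or_mem hi with h3 | h3
        · exact absurd h3 (hX i).1
        · exact absurd h3 (hX i).2
    rw [← aeval_rho_zero P] at h2
    have h3 := map_bin ((aeval (rho P) : MvPolynomial (Fin k) ℂ →ₐ[ℂ] LR P) :
      MvPolynomial (Fin k) ℂ →+* LR P) (co X) a
    have h5 : ∀ t, ((aeval (rho P) : MvPolynomial (Fin k) ℂ →ₐ[ℂ] LR P) :
      MvPolynomial (Fin k) ℂ →+* LR P) (co X t) = co (rho P) t := by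
      intro t
      rw [map_co]
      simp only [RingHom.coe_coe, aeval_X]
    simp only [h5] at h3
    rw [← h3]
    exact h2
  · rw [hs1] at hdim
    rw [Fintype.card_fin]
    have : k + 1 ≤ s + Module.finrank ℤ Λ := by exact_mod_cast hdim
    omega

theorem indep_quot {k : ℕ} {L : Type} [Field L] [Algebra ℂ L] {ω : Fin k → L}
    {I : Finset (Fin k)} (hI : AlgebraicIndependent ℂ (fun i : I => ω i)) :
    AlgebraicIndependent ℂ (fun i : I => (Ideal.Quotient.mk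
      (RingHom.ker (aeval ω : MvPolynomial (Fin k) ℂ →ₐ[ℂ] L)) (X (i : Fin k)) :
      MvPolynomial (Fin k) ℂ ⧸ RingHom.ker (aeval ω : MvPolynomial (Fin k) ℂ →ₐ[ℂ] L))) := by
  set Q := RingHom.ker (aeval ω : MvPolynomial (Fin k) ℂ →ₐ[ℂ] L) with hQ
  let F : (MvPolynomial (Fin k) ℂ ⧸ Q) →ₐ[ℂ] L :=
    Ideal.Quotient.liftₐ Q (aeval ω) (fun b hb => hb)
  refine AlgebraicIndependent.of_comp F ?_
  have h1 : (F ∘ fun i : I => (Ideal.Quotient.mk Q (X (i : Fin k)) :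
    MvPolynomial (Fin k) ℂ ⧸ Q)) = fun i : I => ω i := by
    funext i
    show aeval ω (X (i : Fin k)) = ω i
    rw [aeval_X]
  rw [h1]
  exact hI

theorem Atypical_of_atyp (hCO : S_CO) {k : ℕ} {L : Type} [Field L] [Algebra ℂ L] {ω : Fin k → L}
    (h : AtypPt ℂ ω) :
    Atypical k (RingHom.ker (aeval ω : MvPolynomial (Fin k) ℂ →ₐ[ℂ] L)) := by
  obtain ⟨h01, m, Λ, hm, hΛ, hkm⟩ := h
  rw [Fintype.card_fin] at hkm
  have hQp : (RingHom.ker (aeval ω : MvPolynomial (Fin k) ℂ →ₐ[ℂ] L)).IsPrime :=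
    RingHom.ker_isPrime _
  refine ⟨hQp, fun i => ⟨?_, ?_⟩, Λ, ?_, fun a ha z hz hz1 => ?_⟩
  · rw [RingHom.mem_ker, aeval_X]
    exact (h01 i).1
  · rw [RingHom.mem_ker, map_sub, map_one, aeval_X]
    exact sub_ne_zero.2 (h01 i).2.symm
  · obtain ⟨I, hI, -, hI2⟩ := hCO ℂ L (Fin k) ω
    have hmI : m ≤ I.card := (hI2 m).1 hm
    obtain ⟨s, h1, h2⟩ := Pool.Agent.Helper834.EC.exists_ringKrullDim_eq_trdeg ℂ
      (MvPolynomial (Fin k) ℂ ⧸ RingHom.ker (aeval ω : MvPolynomial (Fin k) ℂ →ₐ[ℂ] L))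
    have h3 := (indep_quot hI).cardinalMk_le_trdeg
    rw [h2, Cardinal.mk_coe_finset] at h3
    have h4 : I.card ≤ s := by exact_mod_cast h3
    rw [h1]
    have : k + 1 ≤ s + Module.finrank ℤ Λ := by omega
    exact_mod_cast this
  · have := rel_spec h01 hz hz1 (hΛ a ha)
    rw [← chr_eq] at this
    exact this

/-- special points are dense in an atypical subvariety -/
theorem special_point (hCO : S_CO) (hD1 : S_D1) {k : ℕ} {L : Type} [Field L] [Algebra ℂ L]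
    {ω : Fin k → L} (h : AtypPt ℂ ω) (f : MvPolynomial (Fin k) ℂ)
    (hf : f ∉ RingHom.ker (aeval ω : MvPolynomial (Fin k) ℂ →ₐ[ℂ] L)) :
    ∃ z : Fin k → ℂ, (∀ g ∈ RingHom.ker (aeval ω : MvPolynomial (Fin k) ℂ →ₐ[ℂ] L), eval z g = 0) ∧
      eval z f ≠ 0 ∧ (∀ i, z i ≠ 0 ∧ z i ≠ 1) ∧
      ∃ Λ : Submodule ℤ (Fin k ⊕ Fin k → ℤ), k + 1 ≤ Module.finrank ℤ Λ ∧
        ∀ a ∈ Λ, chr z a = 1 := by
  classical
  obtain ⟨h01, m, Λ, hm, hΛ, hkm⟩ := h
  rw [Fintype.card_fin] at hkm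
  set Q := RingHom.ker (aeval ω : MvPolynomial (Fin k) ℂ →ₐ[ℂ] L) with hQ
  have hQp : Q.IsPrime := RingHom.ker_isPrime _
  obtain ⟨I, hI, -, hI2⟩ := hCO ℂ L (Fin k) ω
  have hmI : m ≤ I.card := (hI2 m).1 hm
  have hfQ : f * ∏ i : Fin k, (X i * (1 - X i)) ∉ Q := by
    intro h
    rcases hQp.mem_or_mem h with h1 | h1
    · exact hf h1
    · obtain ⟨i, -, hi⟩ := (hQp.prod_mem_iff (s := Finset.univ)).1 h1
      rcases hQp.mem_or_mem hi with h2 | h2
      · rw [hQ, RingHom.mem_ker] at h2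
        rw [aeval_X] at h2
        exact (h01 i).1 h2
      · rw [hQ, RingHom.mem_ker] at h2
        rw [map_sub, map_one, aeval_X] at h2
        exact (h01 i).2 (sub_eq_zero.1 h2).symm
  obtain ⟨z, hz1, hz2, hz3⟩ := hD1 k Q hQp I (indep_quot hI) _ hfQ
  rw [map_mul, map_prod] at hz2
  have hz4 := left_ne_zero_of_mul hz2
  have hz5 : ∀ i, z i ≠ 0 ∧ z i ≠ 1 := by
    intro i
    have h1 := Finset.prod_ne_zero_iff.1 (right_ne_zero_of_mul hz2) i (Finset.mem_univ i)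
    rw [map_mul, map_sub, map_one, eval_X] at h1
    exact ⟨left_ne_zero_of_mul h1, fun h => right_ne_zero_of_mul h1 (by rw [h, sub_self])⟩
  choose Nn hNn using fun i : I => hz3 i i.2
  have hinj : Function.Injective (fun i : I => (Sum.inl (i : Fin k) : Fin k ⊕ Fin k)) :=
    fun i j h => Subtype.ext (Sum.inl_injective h)
  have hrk := rank_count h01 Λ hΛ I hI (relL (co z) (co_ne hz5))
    (fun a ha => rel_spec h01 hz5 hz1 (hΛ a ha)) Nn
    (fun i => (hNn i).1) (fun n => by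
      show ∏ t, co z t ^ _ = 1
      rw [prod_ex hinj]
      refine Finset.prod_eq_one fun i _ => ?_
      show z i ^ (n i * (Nn i : ℤ)) = 1
      rw [mul_comm, zpow_mul, zpow_natCast, (hNn i).2, one_zpow])
  refine ⟨z, hz1, hz4, hz5, relL (co z) (co_ne hz5), by omega, fun a ha => ?_⟩
  rw [chr_eq]
  exact ha

/-- Zilber's conjecture implies finiteness for the powers of the line -/
theorem finAtyp_of_zil (hCO : S_CO) (h : Zil) (k : ℕ) : FinAtyp ℂ (Fin k) :=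
  t_da (t_kl t_d1 hCO t_js t_rk h) k

/-- finiteness for the powers of the line implies Zilber's conjecture -/
theorem zil_of_finAtyp (hCO : S_CO) (hE1 : S_E1) (h : ∀ k, FinAtyp ℂ (Fin k)) : Zil := by
  refine t_sb t_td hCO t_mi t_si (t_sa hCO t_li t_nu t_rs t_mi t_si hE1 t_l1 t_lg ?_)
  intro ι _
  classical
  exact t_fq hCO ι (t_tr ℂ (Fin (Fintype.card ι)) ι (Fintype.equivFin ι).symm (h _))

end Pool.Agent.W206.CT
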