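import Pool.Agent.W206.CT.Stm
import Pool.Agent.Helper834.EC.Dim1

/-!
# Part KL: the key lemma
-/

set_option autoImplicit false

namespace Pool.Agent.W206.CT

open MvPolynomial

namespace KLx

section rel
variable {T : Type} [Fintype T]

/-- binomials -/
noncomputable def bin {S : Type} [CommRing S] (c : T → S) (a : T → ℤ) : S :=
  ∏ t, c t ^ (a t).toNat - ∏ t, c t ^ (-a t).toNat

lemma map_bin {S S' : Type} [CommRing S] [CommRing S'] (φ : S →+* S') (c : T → S) (a : T → ℤ) :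
    φ (bin c a) = bin (fun t => φ (c t)) a := by
  unfold bin
  rw [map_sub, map_prod, map_prod]
  simp only [map_pow]

lemma bin_eq_zero {K : Type} [Field K] {y : T → K} (hy : ∀ t, y t ≠ 0) (a : T → ℤ) :
    bin y a = 0 ↔ ∏ t, y t ^ a t = 1 := by
  have h : ∏ t, y t ^ a t = (∏ t, y t ^ (a t).toNat) / ∏ t, y t ^ (-a t).toNat := by
    rw [← Finset.prod_div_distrib]
    refine Finset.prod_congr rfl fun t _ => ?_
    have : a t = ((a t).toNat : ℤ) - ((-a t).toNat : ℤ) := (Int.toNat_sub_toNat_neg (a t)).symm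
    conv_lhs => rw [this]
    rw [zpow_sub₀ (hy t), zpow_natCast, zpow_natCast]
  have h2 : ∏ t, y t ^ (-a t).toNat ≠ 0 := Finset.prod_ne_zero_iff.2 fun t _ => pow_ne_zero _ (hy t)
  unfold bin
  rw [h, sub_eq_zero, div_eq_one_iff_eq h2]

/-- the lattice of the relations -/
def relL {K : Type} [Field K] (y : T → K) (hy : ∀ t, y t ≠ 0) : Submodule ℤ (T → ℤ) where
  carrier := {a | ∏ t, y t ^ a t = 1}
  zero_mem' := by simp
  add_mem' := by
    intro a b ha hb
    show ∏ t, y t ^ (a t + b t) = 1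
    have : ∀ t, y t ^ (a t + b t) = y t ^ a t * y t ^ b t := fun t => zpow_add₀ (hy t) _ _
    simp only [this]
    rw [Finset.prod_mul_distrib]
    have ha' : ∏ t, y t ^ a t = 1 := ha
    have hb' : ∏ t, y t ^ b t = 1 := hb
    rw [ha', hb', one_mul]
  smul_mem' := by
    intro n a ha
    show ∏ t, y t ^ (n * a t) = 1
    have ha' : ∏ t, y t ^ a t = 1 := ha
    have : ∀ t, y t ^ (n * a t) = (y t ^ a t) ^ n := fun t => by rw [mul_comm, zpow_mul]
    simp only [this]
    rw [Finset.prod_zpow, ha', one_zpow]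

lemma mem_relL {K : Type} [Field K] {y : T → K} {hy : ∀ t, y t ≠ 0} {a : T → ℤ} :
    a ∈ relL y hy ↔ ∏ t, y t ^ a t = 1 := Iff.rfl

/-- extension by zero -/
noncomputable def ex {U : Type} (f : U → T) : (U → ℤ) →ₗ[ℤ] (T → ℤ) :=
  Function.ExtendByZero.linearMap ℤ f

omit [Fintype T] in
lemma ex_apply {U : Type} {f : U → T} (hf : Function.Injective f) (a : U → ℤ) (u : U) :
    ex f a (f u) = a u := hf.extend_apply a (0 : T → ℤ) u

omit [Fintype T] in
lemma ex_apply' {U : Type} {f : U → T} (a : U → ℤ) {t : T} (ht : t ∉ Set.range f) :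
    ex f a t = 0 :=
  Function.extend_apply' a (0 : T → ℤ) t ht

omit [Fintype T] in
lemma ex_inj {U : Type} {f : U → T} (hf : Function.Injective f) : Function.Injective (ex f) := by
  intro a b h
  funext u
  rw [← ex_apply hf a u, ← ex_apply hf b u, h]

lemma prod_ex {U K : Type} [Fintype U] [Field K] {f : U → T} (hf : Function.Injective f)
    (y : T → K) (a : U → ℤ) : ∏ t, y t ^ ex f a t = ∏ u, y (f u) ^ a u := by
  refine (Fintype.prod_of_injective f hf _ _ ?_ ?_).symm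
  · intro t ht
    rw [ex_apply' a ht, zpow_zero]
  · intro u
    rw [ex_apply hf]

end rel

/-- the coordinates `z_i, 1 - z_i` -/
def co {ι S : Type} [CommRing S] (z : ι → S) : ι ⊕ ι → S := Sum.elim z (fun i => 1 - z i)

lemma chr_eq {ι K : Type} [Fintype ι] [Field K] (z : ι → K) (a : ι ⊕ ι → ℤ) :
    chr z a = ∏ t, co z t ^ a t := by
  unfold chr co
  rw [Fintype.prod_sum_type]
  rfl

lemma map_co {ι S S' : Type} [CommRing S] [CommRing S'] (φ : S →+* S') (z : ι → S) (t : ι ⊕ ι) :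
    φ (co z t) = co (fun i => φ (z i)) t := by
  rcases t with i | i
  · rfl
  · show φ (1 - z i) = 1 - φ (z i)
    rw [map_sub, map_one]

lemma co_ne {ι K : Type} [Field K] {z : ι → K} (h : ∀ i, z i ≠ 0 ∧ z i ≠ 1) (t : ι ⊕ ι) :
    co z t ≠ 0 := by
  rcases t with i | i
  · exact (h i).1
  · exact sub_ne_zero.2 (h i).2.symm

/-- algebraically independent elements are multiplicatively independent -/
lemma indep_rel {K L ι : Type} [Fintype ι] [Field K] [Field L] [Algebra K L] {y : ι → L}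
    (h : AlgebraicIndependent K y) (hy : ∀ i, y i ≠ 0) {a : ι → ℤ} (ha : ∏ i, y i ^ a i = 1) :
    a = 0 := by
  classical
  have h1 : bin y a = 0 := (bin_eq_zero hy a).2 ha
  have h2 : (aeval y : MvPolynomial ι K →ₐ[K] L) (bin X a) = 0 := by
    have := map_bin ((aeval y : MvPolynomial ι K →ₐ[K] L) : MvPolynomial ι K →+* L) X a
    simp only [RingHom.coe_coe, aeval_X] at this
    rw [this]
    exact h1
  have h3 : (bin X a : MvPolynomial ι K) = 0 := by
    have hi : Function.Injective (aeval y : MvPolynomial ι K →ₐ[K] L) := h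
    exact hi (by rw [h2, map_zero])
  have hm : ∀ n : ι → ℕ, (∏ i, X i ^ n i : MvPolynomial ι K) =
      monomial (Finsupp.equivFunOnFinite.symm n) 1 := by
    intro n
    rw [monomial_eq, C_1, one_mul, Finsupp.prod_fintype _ _ (fun i => pow_zero _)]
    rfl
  unfold bin at h3
  rw [hm, hm, sub_eq_zero] at h3
  have h4 := (monomial_left_injective (R := K) (one_ne_zero)) h3
  have h5 := Finsupp.equivFunOnFinite.symm.injective h4
  funext i
  have h6 := congrFun h5 i
  have h7 := Int.toNat_sub_toNat_neg (a i)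
  show a i = 0
  omega

/-- the number of relations at a special point -/
lemma rank_count {k : ℕ} {L : Type} [Field L] [Algebra ℂ L] {ω : Fin k → L}
    (h01 : ∀ i, ω i ≠ 0 ∧ ω i ≠ 1) (Λ : Submodule ℤ (Fin k ⊕ Fin k → ℤ))
    (hΛ : ∀ a ∈ Λ, chr ω a = 1) (I : Finset (Fin k))
    (hI : AlgebraicIndependent ℂ (fun i : I => ω i)) (M : Submodule ℤ (Fin k ⊕ Fin k → ℤ))
    (hM : Λ ≤ M) (N : I → ℕ) (hN : ∀ i, 0 < N i)
    (hNM : ∀ n : I → ℤ, ex (fun i : I => (Sum.inl (i : Fin k) : Fin k ⊕ Fin k))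
      (fun i => n i * N i) ∈ M) :
    Module.finrank ℤ Λ + I.card ≤ Module.finrank ℤ M := by
  have hinj : Function.Injective (fun i : I => (Sum.inl (i : Fin k) : Fin k ⊕ Fin k)) :=
    fun i j h => Subtype.ext (Sum.inl_injective h)
  let sc : (I → ℤ) →ₗ[ℤ] (I → ℤ) :=
    { toFun := fun n i => n i * N i
      map_add' := fun a b => by funext i; simp only [Pi.add_apply]; ring
      map_smul' := fun c a => by
        funext i; simp only [Pi.smul_apply, smul_eq_mul, RingHom.id_apply]; ring }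
  let g : (I → ℤ) →ₗ[ℤ] (Fin k ⊕ Fin k → ℤ) :=
    (ex (fun i : I => (Sum.inl (i : Fin k) : Fin k ⊕ Fin k))).comp sc
  let f : (Λ × (I → ℤ)) →ₗ[ℤ] M :=
    LinearMap.coprod (Submodule.inclusion hM) (LinearMap.codRestrict M g hNM)
  have hf : Function.Injective f := by
    rw [injective_iff_map_eq_zero]
    rintro ⟨a, n⟩ h
    have h1 : (a : Fin k ⊕ Fin k → ℤ) + ex (fun i : I => (Sum.inl (i : Fin k) : Fin k ⊕ Fin k))
        (fun i => n i * N i) = 0 := congrArg Subtype.val h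
    have h2 : (a : Fin k ⊕ Fin k → ℤ) = ex (fun i : I => (Sum.inl (i : Fin k) : Fin k ⊕ Fin k))
        (fun i => -(n i * N i)) := by
      have h3 : (fun i : I => -(n i * (N i : ℤ))) = -(fun i : I => n i * (N i : ℤ)) := rfl
      rw [h3, map_neg]
      exact eq_neg_of_add_eq_zero_left h1
    have h3 := hΛ a a.2
    rw [chr_eq, h2, prod_ex hinj] at h3
    have h4 : (fun i : I => -(n i * (N i : ℤ))) = 0 :=
      indep_rel hI (fun i => (h01 i).1) h3
    have h5 : n = 0 := by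
      funext i
      have h6 := congrFun h4 i
      simp only [Pi.zero_apply, neg_eq_zero, mul_eq_zero] at h6
      have h7 := hN i
      show n i = 0
      omega
    have h6 : a = 0 := by
      apply Subtype.ext
      rw [h2, h4, map_zero]
      rfl
    rw [h5, h6]
    rfl
  have h1 := LinearMap.finrank_le_finrank_of_injective hf
  rw [Module.finrank_prod, Module.finrank_fintype_fun_eq_card, Fintype.card_coe] at h1
  exact h1

/-- substitution of the coordinates `co X (f j)` -/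
noncomputable def psi {k N : ℕ} (f : Fin N → Fin k ⊕ Fin k) :
    MvPolynomial (Fin N) ℂ →ₐ[ℂ] MvPolynomial (Fin k) ℂ := aeval fun j => co X (f j)

lemma aeval_psi {k N : ℕ} (f : Fin N → Fin k ⊕ Fin k) {S : Type} [CommRing S] [Algebra ℂ S]
    (z : Fin k → S) (q : MvPolynomial (Fin N) ℂ) :
    aeval z (psi f q) = aeval (fun j => co z (f j)) q := by
  have h : ((aeval z : MvPolynomial (Fin k) ℂ →ₐ[ℂ] S).comp (psi f)) =
      aeval (fun j => co z (f j)) := by
    refine MvPolynomial.algHom_ext fun j => ?_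
    unfold psi
    rw [AlgHom.comp_apply, aeval_X, aeval_X]
    have := map_co ((aeval z : MvPolynomial (Fin k) ℂ →ₐ[ℂ] S) : MvPolynomial (Fin k) ℂ →+* S) X
      (f j)
    simp only [RingHom.coe_coe, aeval_X] at this
    exact this
  rw [← h]
  rfl

lemma psi_X {k N : ℕ} (f : Fin N → Fin k ⊕ Fin k) (j : Fin N) : psi f (X j) = co X (f j) := by
  unfold psi
  rw [aeval_X]

section gen
variable {k : ℕ} (R : Ideal (MvPolynomial (Fin k) ℂ)) [hR : R.IsPrime]

/-- the function field -/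
abbrev LR : Type := FractionRing (MvPolynomial (Fin k) ℂ ⧸ R)

/-- the generic point -/
noncomputable def rho (i : Fin k) : LR R :=
  algebraMap (MvPolynomial (Fin k) ℂ ⧸ R) (LR R) (Ideal.Quotient.mk R (X i))

omit hR in
lemma aeval_rho (q : MvPolynomial (Fin k) ℂ) : aeval (rho R) q =
    algebraMap (MvPolynomial (Fin k) ℂ ⧸ R) (LR R) (Ideal.Quotient.mk R q) := by
  have h : (aeval (rho R) : MvPolynomial (Fin k) ℂ →ₐ[ℂ] LR R) =
      (Algebra.algHom ℂ (MvPolynomial (Fin k) ℂ ⧸ R) (LR R)).comp (Ideal.Quotient.mkₐ ℂ R) := by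
    refine MvPolynomial.algHom_ext fun j => ?_
    rw [aeval_X]
    rfl
  rw [h]
  rfl

omit hR in
lemma aeval_rho_zero (q : MvPolynomial (Fin k) ℂ) : aeval (rho R) q = 0 ↔ q ∈ R := by
  rw [aeval_rho, map_eq_zero_iff _ (IsFractionRing.injective _ _), Ideal.Quotient.eq_zero_iff_mem]

lemma ker_rho : RingHom.ker (aeval (rho R) : MvPolynomial (Fin k) ℂ →ₐ[ℂ] LR R) = R := by
  ext q
  rw [RingHom.mem_ker]
  exact aeval_rho_zero R q

lemma aeval_mem_adjoin (q : MvPolynomial (Fin k) ℂ) :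
    aeval (rho R) q ∈ IntermediateField.adjoin ℂ (Set.range (rho R)) := by
  have h1 : aeval (rho R) q ∈ Algebra.adjoin ℂ (Set.range (rho R)) := by
    rw [Algebra.adjoin_range_eq_range_aeval]
    exact ⟨q, rfl⟩
  exact IntermediateField.algebra_adjoin_le_adjoin ℂ _ h1

/-- the dimension of the image in the coordinates of `f` -/
lemma dim_le {N : ℕ} (f : Fin N → Fin k ⊕ Fin k) : ∃ s : ℕ,
    ringKrullDim (MvPolynomial (Fin N) ℂ ⧸ R.comap (psi f)) = s ∧ TrGe ℂ (rho R) s := by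
  obtain ⟨s, h1, h2⟩ := Pool.Agent.Helper834.EC.exists_ringKrullDim_eq_trdeg ℂ
    (MvPolynomial (Fin N) ℂ ⧸ R.comap (psi f))
  refine ⟨s, h1, ?_⟩
  obtain ⟨κ, x, hx⟩ := exists_isTranscendenceBasis' ℂ (MvPolynomial (Fin N) ℂ ⧸ R.comap (psi f))
  have h3 : Cardinal.mk κ = s := by rw [hx.cardinalMk_eq_trdeg, h2]
  obtain ⟨e⟩ := Cardinal.mk_eq_nat_iff.1 h3
  let F : (MvPolynomial (Fin N) ℂ ⧸ R.comap (psi f)) →ₐ[ℂ] LR R :=
    Ideal.Quotient.liftₐ (R.comap (psi f)) (aeval fun j => co (rho R) (f j)) (by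
      intro b hb
      have hb' : psi f b ∈ R := hb
      show aeval (fun j => co (rho R) (f j)) b = 0
      rw [← aeval_psi, aeval_rho_zero]
      exact hb')
  have hFmk : ∀ q, F (Ideal.Quotient.mk _ q) = aeval (rho R) (psi f q) := fun q =>
    (aeval_psi f (rho R) q).symm
  have hF : Function.Injective F := by
    rw [injective_iff_map_eq_zero]
    intro b hb
    obtain ⟨q, rfl⟩ := Ideal.Quotient.mk_surjective b
    rw [hFmk, aeval_rho_zero] at hb
    exact Ideal.Quotient.eq_zero_iff_mem.2 hb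
  refine ⟨fun i => F (x (e.symm i)), ?_, fun i => ?_⟩
  · exact (hx.1.map' hF).comp e.symm e.symm.injective
  · obtain ⟨q, hq⟩ := Ideal.Quotient.mk_surjective (x (e.symm i))
    show F (x (e.symm i)) ∈ _
    rw [← hq, hFmk]
    exact aeval_mem_adjoin R _

lemma rho_ne (h : ∀ i, X i ∉ R ∧ (1 - X i : MvPolynomial (Fin k) ℂ) ∉ R) (i : Fin k) :
    rho R i ≠ 0 ∧ rho R i ≠ 1 := by
  constructor
  · intro h0
    apply (h i).1
    rw [← aeval_rho_zero R, aeval_X]
    exact h0
  · intro h0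
    apply (h i).2
    rw [← aeval_rho_zero R, map_sub, map_one, aeval_X, h0, sub_self]

omit hR in
lemma co_not_mem (h : ∀ i, X i ∉ R ∧ (1 - X i : MvPolynomial (Fin k) ℂ) ∉ R)
    (t : Fin k ⊕ Fin k) : (co X t : MvPolynomial (Fin k) ℂ) ∉ R := by
  rcases t with i | i
  · exact (h i).1
  · exact (h i).2

lemma prod_not_mem (h : ∀ i, X i ∉ R ∧ (1 - X i : MvPolynomial (Fin k) ℂ) ∉ R) {N : ℕ}
    (f : Fin N → Fin k ⊕ Fin k) :
    (∏ j : Fin N, (X j : MvPolynomial (Fin N) ℂ)) ∉ R.comap (psi f) := by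
  intro h1
  have h2 : psi f (∏ j : Fin N, (X j : MvPolynomial (Fin N) ℂ)) ∈ R := h1
  rw [map_prod] at h2
  obtain ⟨j, -, hj⟩ := (hR.prod_mem_iff (s := Finset.univ)).1 h2
  rw [psi_X] at hj
  exact co_not_mem R h _ hj

/-- the conclusion of Zilber's conjecture fails for the image -/
lemma noconc (h : ∀ i, X i ∉ R ∧ (1 - X i : MvPolynomial (Fin k) ℂ) ∉ R) {N : ℕ}
    {f : Fin N → Fin k ⊕ Fin k} (hf : Function.Injective f)
    (hJ : ∀ a : Fin N → ℤ, chr (rho R) (ex f a) = 1 → a = 0) :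
    ¬ ∃ a : Fin N → ℤ, a ≠ 0 ∧ ∀ x : Fin N → ℂ, (∀ i, x i ≠ 0) →
      (∀ g ∈ R.comap (psi f), eval x g = 0) → ∏ i : Fin N, x i ^ a i = 1 := by
  rintro ⟨a, ha0, ha⟩
  apply ha0
  apply hJ
  have hP : (R.comap (psi f)).IsPrime := hR.comap _
  have h1 : (bin X a * ∏ j : Fin N, X j : MvPolynomial (Fin N) ℂ) ∈ R.comap (psi f) := by
    rw [← hP.radical, ← vanishingIdeal_zeroLocus_eq_radical (K := ℂ), mem_vanishingIdeal_iff]
    intro x hx
    rw [mem_zeroLocus_iff] at hx
    rw [map_mul, map_prod]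
    simp only [aeval_X]
    by_cases h0 : ∀ j, x j ≠ 0
    · have h2 := ha x h0 (fun g hg => by rw [← coe_aeval_eq_eval]; exact hx g hg)
      have h3 := map_bin ((aeval x : MvPolynomial (Fin N) ℂ →ₐ[ℂ] ℂ) :
        MvPolynomial (Fin N) ℂ →+* ℂ) X a
      simp only [RingHom.coe_coe, aeval_X] at h3
      rw [h3, (bin_eq_zero h0 a).2 h2, zero_mul]
    · push Not at h0
      obtain ⟨j, hj⟩ := h0
      rw [Finset.prod_eq_zero (Finset.mem_univ j) hj, mul_zero]
  rcases hP.mem_or_mem h1 with h2 | h2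
  · have h3 : psi f (bin X a) ∈ R := h2
    rw [← aeval_rho_zero R, aeval_psi] at h3
    have h4 := map_bin ((aeval (fun j => co (rho R) (f j)) : MvPolynomial (Fin N) ℂ →ₐ[ℂ] LR R) :
        MvPolynomial (Fin N) ℂ →+* LR R) X a
    simp only [RingHom.coe_coe, aeval_X] at h4
    rw [h4] at h3
    rw [chr_eq, prod_ex hf]
    exact (bin_eq_zero (fun j => co_ne (rho_ne R h) _) a).1 h3
  · exact absurd h2 (prod_not_mem R h f)

end gen

/-- a relation at `ω` holds at the specialisations -/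
lemma rel_spec {k : ℕ} {L : Type} [Field L] [Algebra ℂ L] {ω : Fin k → L}
    (h01 : ∀ i, ω i ≠ 0 ∧ ω i ≠ 1) {z : Fin k → ℂ} (hz : ∀ i, z i ≠ 0 ∧ z i ≠ 1)
    (hsp : ∀ g ∈ RingHom.ker (aeval ω : MvPolynomial (Fin k) ℂ →ₐ[ℂ] L), eval z g = 0)
    {a : Fin k ⊕ Fin k → ℤ} (ha : chr ω a = 1) : ∏ t, co z t ^ a t = 1 := by
  rw [chr_eq, ← bin_eq_zero (co_ne h01)] at ha
  rw [← bin_eq_zero (co_ne hz)]
  have e1 : ∀ {S : Type} [CommRing S] [Algebra ℂ S] (y : Fin k → S),
      aeval y (bin (co X) a : MvPolynomial (Fin k) ℂ) = bin (co y) a := by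
    intro S _ _ y
    have h4 := map_bin ((aeval y : MvPolynomial (Fin k) ℂ →ₐ[ℂ] S) :
        MvPolynomial (Fin k) ℂ →+* S) (co X) a
    have h5 : ∀ t, (aeval y : MvPolynomial (Fin k) ℂ →ₐ[ℂ] S) (co X t) = co y t := by
      intro t
      have := map_co ((aeval y : MvPolynomial (Fin k) ℂ →ₐ[ℂ] S) :
        MvPolynomial (Fin k) ℂ →+* S) X t
      simp only [RingHom.coe_coe, aeval_X] at this
      exact this
    simp only [RingHom.coe_coe, h5] at h4
    exact h4
  have h6 := hsp (bin (co X) a) (by rw [RingHom.mem_ker]; exact (e1 ω).trans ha)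
  rw [← coe_aeval_eq_eval] at h6
  exact (e1 z).symm.trans h6

end KLx

open KLx in
theorem t_kl : S_KL := by
  intro hD1 hCO hJS hRK hZil k R hR hX hnat
  classical
  have hρ := rho_ne R hX
  -- the relations at the generic point
  obtain ⟨I0, -, -, hI0⟩ := hCO ℂ (LR R) (Fin k) (rho R)
  set t := I0.card with ht
  set ΛR : Submodule ℤ (Fin k ⊕ Fin k → ℤ) := relL (co (rho R)) (co_ne hρ) with hΛR
  have htr : t + Module.finrank ℤ ΛR ≤ k := by
    by_contra hc
    push Not at hc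
    refine hnat (LR R) (rho R) ⟨hρ, t, ΛR, (hI0 t).2 le_rfl, fun a ha => ?_, ?_⟩ (ker_rho R).symm
    · rw [chr_eq]
      exact ha
    · rw [Fintype.card_fin]
      exact hc
  obtain ⟨J, hJ1, hJ2⟩ := hJS (Fin k ⊕ Fin k) ΛR
  have hcard : Fintype.card (Fin k ⊕ Fin k) = k + k := by simp
  rw [hcard] at hJ1
  set N := J.card with hN
  let f : Fin N → Fin k ⊕ Fin k := fun j => (J.equivFin.symm j : Fin k ⊕ Fin k)
  have hf : Function.Injective f := fun a b h => J.equivFin.symm.injective (Subtype.ext h)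
  have hfr : ∀ x, x ∉ J → x ∉ Set.range f := by
    rintro x hx ⟨j, rfl⟩
    exact hx (J.equivFin.symm j).2
  have hJ : ∀ a : Fin N → ℤ, chr (rho R) (ex f a) = 1 → a = 0 := by
    intro a ha
    rw [chr_eq] at ha
    have h1 := hJ2 (ex f a) ha (fun x hx => ex_apply' a (hfr x hx))
    exact ex_inj hf (by rw [h1, map_zero])
  -- Zilber's conjecture
  have hP : (R.comap (psi f)).IsPrime := hR.comap _
  have hno := noconc R hX hf hJ
  have hdens := mt (hZil N (R.comap (psi f)) hP (prod_not_mem R hX f)) hno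
  push Not at hdens
  obtain ⟨q, hq, x0, hx0, hx0P, hx0q⟩ := hdens
  have hqP : q ∉ R.comap (psi f) := fun h => hx0q (hx0P q h)
  refine ⟨psi f q, hqP, fun L _ _ ω hω hRω => ?_⟩
  obtain ⟨h01, m, Λ, hm, hΛ, hkm⟩ := hω
  rw [Fintype.card_fin] at hkm
  by_contra hg
  set Q := RingHom.ker (aeval ω : MvPolynomial (Fin k) ℂ →ₐ[ℂ] L) with hQ
  have hQp : Q.IsPrime := RingHom.ker_isPrime _
  obtain ⟨I, hI, -, hI2⟩ := hCO ℂ L (Fin k) ω
  have hmI : m ≤ I.card := (hI2 m).1 hm
  -- specialisation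
  have hIQ : AlgebraicIndependent ℂ (fun i : I => (Ideal.Quotient.mk Q (X (i : Fin k)) :
      MvPolynomial (Fin k) ℂ ⧸ Q)) := by
    let F : (MvPolynomial (Fin k) ℂ ⧸ Q) →ₐ[ℂ] L :=
      Ideal.Quotient.liftₐ Q (aeval ω) (fun b hb => hb)
    refine AlgebraicIndependent.of_comp F ?_
    have h1 : (F ∘ fun i : I => (Ideal.Quotient.mk Q (X (i : Fin k)) :
      MvPolynomial (Fin k) ℂ ⧸ Q)) = fun i : I => ω i := by
      funext i
      show aeval ω (X (i : Fin k)) = ω i
      rw [aeval_X]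
    rw [h1]
    exact hI
  have hfQ : psi f q * ∏ i : Fin k, (X i * (1 - X i)) ∉ Q := by
    intro h
    rcases hQp.mem_or_mem h with h1 | h1
    · exact hg h1
    · obtain ⟨i, -, hi⟩ := (hQp.prod_mem_iff (s := Finset.univ)).1 h1
      rcases hQp.mem_or_mem hi with h2 | h2
      · rw [hQ, RingHom.mem_ker] at h2
        rw [aeval_X] at h2
        exact (h01 i).1 h2
      · rw [hQ, RingHom.mem_ker] at h2
        rw [map_sub, map_one, aeval_X] at h2
        exact (h01 i).2 (sub_eq_zero.1 h2).symm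
  obtain ⟨z, hz1, hz2, hz3⟩ := hD1 k Q hQp I hIQ _ hfQ
  rw [map_mul, map_prod] at hz2
  have hz4 := left_ne_zero_of_mul hz2
  have hz5 : ∀ i, z i ≠ 0 ∧ z i ≠ 1 := by
    intro i
    have h1 := Finset.prod_ne_zero_iff.1 (right_ne_zero_of_mul hz2) i (Finset.mem_univ i)
    rw [map_mul, map_sub, map_one, eval_X] at h1
    exact ⟨left_ne_zero_of_mul h1, fun h => right_ne_zero_of_mul h1 (by rw [h, sub_self])⟩
  choose Nn hNn using fun i : I => hz3 i i.2
  -- the relations at `z`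
  set Λz : Submodule ℤ (Fin k ⊕ Fin k → ℤ) := relL (co z) (co_ne hz5) with hΛz
  have hinj : Function.Injective (fun i : I => (Sum.inl (i : Fin k) : Fin k ⊕ Fin k)) :=
    fun i j h => Subtype.ext (Sum.inl_injective h)
  have hrk := rank_count h01 Λ hΛ I hI Λz (fun a ha => rel_spec h01 hz5 hz1 (hΛ a ha)) Nn
    (fun i => (hNn i).1) (fun n => by
      show ∏ t, co z t ^ _ = 1
      rw [prod_ex hinj]
      refine Finset.prod_eq_one fun i _ => ?_
      show z i ^ (n i * (Nn i : ℤ)) = 1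
      rw [mul_comm, zpow_mul, zpow_natCast, (hNn i).2, one_zpow])
  have hrk2 := hRK (Fin k ⊕ Fin k) (Fin N) (ex f) (ex_inj hf) Λz
  rw [hcard, Fintype.card_fin] at hrk2
  -- the special point
  obtain ⟨s, hs1, hs2⟩ := dim_le R f
  have hst : s ≤ t := (hI0 s).1 hs2
  have hle : Module.finrank ℤ (Λz.comap (ex f)) ≤ N := by
    have := Submodule.finrank_le (Λz.comap (ex f))
    rwa [Module.finrank_fintype_fun_eq_card, Fintype.card_fin] at this
  have hev : ∀ b, eval (fun j => co z (f j)) b = eval z (psi f b) := by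
    intro b
    rw [← coe_aeval_eq_eval, ← coe_aeval_eq_eval, RingHom.coe_coe, RingHom.coe_coe, aeval_psi]
  refine hz4 ?_
  rw [← hev]
  refine hq (fun j => co z (f j)) (fun j => co_ne hz5 _) (fun b hb => ?_)
    ⟨Λz.comap (ex f), ?_, fun a ha => ?_⟩
  · rw [hev]
    exact hz1 _ (hRω hb)
  · rw [hs1]
    have : s + (N - Module.finrank ℤ (Λz.comap (ex f))) + 1 ≤ N := by omega
    exact_mod_cast this
  · have h1 : ∏ t, co z t ^ (ex f a) t = 1 := ha
    rwa [prod_ex hf] at h1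

end Pool.Agent.W206.CT
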