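import Pool.Agent.W206.CT.Stm

set_option autoImplicit false

namespace Pool.Agent.W206.CT

open MvPolynomial

/-- cyclic successor -/
def nx {r : ℕ} (j : Fin r) : Fin r := finRotate r j

theorem nx_spec {r : ℕ} (j : Fin r) :
    (j.val + 1 < r → (nx j).val = j.val + 1) ∧ (j.val + 1 = r → (nx j).val = 0) := by
  cases r with
  | zero => exact j.elim0
  | succ n =>
    constructor
    · intro h
      have h1 : j.val < n := by omega
      have := finRotate_of_lt (n := n) h1
      have h2 : nx j = ⟨j.val + 1, by omega⟩ := by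
        rw [nx, ← this]
      rw [h2]
    · intro h
      have h1 : j = Fin.last n := Fin.ext (by simp [Fin.last]; omega)
      rw [h1, nx, finRotate_last]
      rfl

theorem exists_nx {r : ℕ} (j : Fin r) : ∃ i : Fin r, nx i = j :=
  ⟨(finRotate r).symm j, (finRotate r).apply_symm_apply j⟩

/-- partial sums -/
def psum {A : Type} [AddCommMonoid A] {r : ℕ} (a : Fin r → A) (j : Fin r) : A :=
  ∑ i ∈ Finset.univ.filter (fun i : Fin r => i < j), a i

theorem psum_zero {A : Type} [AddCommMonoid A] {r : ℕ} (a : Fin r → A) (j : Fin r)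
    (hj : j.val = 0) : psum a j = 0 := by
  unfold psum
  rw [Finset.filter_false_of_mem (fun i _ => by rw [Fin.lt_def, hj]; omega)]
  simp

theorem psum_nx {A : Type} [AddCommGroup A] {r : ℕ} (a : Fin r → A) (ha : ∑ i, a i = 0)
    (j : Fin r) : psum a (nx j) = psum a j + a j := by
  rcases Nat.lt_or_ge (j.val + 1) r with h | h
  · have h1 := (nx_spec j).1 h
    unfold psum
    have : (Finset.univ.filter fun i : Fin r => i < nx j) =
        insert j (Finset.univ.filter fun i : Fin r => i < j) := by
      ext i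
      simp only [Finset.mem_filter, Finset.mem_univ, true_and, Finset.mem_insert, Fin.lt_def, h1,
        Fin.ext_iff]
      omega
    rw [this, Finset.sum_insert (by simp), add_comm]
  · have h2 : j.val + 1 = r := by have := j.isLt; omega
    have h1 := (nx_spec j).2 h2
    rw [psum_zero a _ h1]
    unfold psum
    have : insert j (Finset.univ.filter fun i : Fin r => i < j) = Finset.univ := by
      ext i
      simp only [Finset.mem_filter, Finset.mem_univ, true_and, Finset.mem_insert, Fin.lt_def,
        Fin.ext_iff, iff_true]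
      have := i.isLt
      omega
    have h3 : ∑ i, a i = ∑ i ∈ insert j (Finset.univ.filter fun i : Fin r => i < j), a i := by
      rw [this]
    rw [← ha, h3, Finset.sum_insert (by simp), add_comm]

theorem psum_map {A B : Type} [AddCommMonoid A] [AddCommMonoid B] (f : A →+ B) {r : ℕ}
    (a : Fin r → A) (j : Fin r) : f (psum a j) = psum (fun i => f (a i)) j := by
  simp [psum, map_sum]

/-- monomials in the torus variables -/
noncomputable def mon {V K : Type} [Fintype V] [Field K] (u : V → K) (a : V → ℤ) : K :=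
  ∏ v, u v ^ a v

section mon
variable {V K : Type} [Fintype V] [Field K] {u : V → K}

theorem mon_add (hu : ∀ v, u v ≠ 0) (a b : V → ℤ) : mon u (a + b) = mon u a * mon u b := by
  simp [mon, zpow_add₀ (hu _), Finset.prod_mul_distrib]

theorem mon_sub (hu : ∀ v, u v ≠ 0) (a b : V → ℤ) : mon u (a - b) = mon u a / mon u b := by
  simp [mon, zpow_sub₀ (hu _), Finset.prod_div_distrib]

theorem mon_zero : mon u (0 : V → ℤ) = 1 := by simp [mon]

theorem mon_ne (hu : ∀ v, u v ≠ 0) (a : V → ℤ) : mon u a ≠ 0 :=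
  Finset.prod_ne_zero_iff.mpr fun v _ => zpow_ne_zero _ (hu v)

theorem mon_zsmul (a : V → ℤ) (n : ℤ) : mon u (n • a) = mon u a ^ n := by
  rw [mon, mon, ← Finset.prod_zpow]
  refine Finset.prod_congr rfl fun v _ => ?_
  rw [Pi.smul_apply, smul_eq_mul, mul_comm, zpow_mul]

theorem mon_sum (hu : ∀ v, u v ≠ 0) {S : Type} (s : Finset S) (a : S → V → ℤ) :
    mon u (∑ i ∈ s, a i) = ∏ i ∈ s, mon u (a i) := by
  classical
  induction s using Finset.induction_on with
  | empty => simp [mon_zero]
  | insert i s hi ih => rw [Finset.sum_insert hi, Finset.prod_insert hi, mon_add hu, ih]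

theorem mon_single [DecidableEq V] (v : V) (n : ℤ) : mon u (Pi.single v n) = u v ^ n := by
  rw [mon, Finset.prod_eq_single v]
  · simp
  · intro b _ hb; simp [Pi.single_apply, hb]
  · simp

end mon

section Sys

variable {ι : Type} (E : Type) (r : E → ℕ)

/-- index type of the torus variables -/
abbrev Vr (ι : Type) (E : Type) (r : E → ℕ) : Type := Bool ⊕ (ι × Bool) ⊕ (Σ l : E, Fin (r l))

/-- index type of the gates -/
abbrev Gt (ι : Type) (E : Type) (r : E → ℕ) : Type := Unit ⊕ ι ⊕ (Σ l : E, Fin (r l))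

end Sys

section point

variable {ι E : Type} [Fintype ι] [Fintype E] {r : E → ℕ} [DecidableEq ι] [DecidableEq E]

/-- the torus variables at a point -/
noncomputable def uu {F : Type} [Field F] (lam : Option E → F) (w : ι → F)
    (s : ∀ l, Fin (r l) → F) : Vr ι E r → F
  | Sum.inl false => lam none
  | Sum.inl true => 1 - lam none
  | Sum.inr (Sum.inl (i, false)) => w i
  | Sum.inr (Sum.inl (i, true)) => lam none + w i
  | Sum.inr (Sum.inr ⟨l, j⟩) => lam (some l) + s l j

/-- the gate points -/
noncomputable def oo {F : Type} [Field F] (lam : Option E → F) (w : ι → F)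
    (s : ∀ l, Fin (r l) → F) : Gt ι E r → F
  | Sum.inl _ => lam none
  | Sum.inr (Sum.inl i) => lam none / (lam none + w i)
  | Sum.inr (Sum.inr ⟨l, j⟩) => (lam (some l) + s l j) / (lam (some l) + s l (nx j))

/-- exponents of the gate points -/
def al : Gt ι E r → Vr ι E r → ℤ
  | Sum.inl _ => Pi.single (Sum.inl false) 1
  | Sum.inr (Sum.inl i) => Pi.single (Sum.inl false) 1 - Pi.single (Sum.inr (Sum.inl (i, true))) 1
  | Sum.inr (Sum.inr ⟨l, j⟩) => Pi.single (Sum.inr (Sum.inr ⟨l, j⟩)) 1 -
      Pi.single (Sum.inr (Sum.inr ⟨l, nx j⟩)) 1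

/-- exponents of one minus the gate points -/
def be (e : ∀ l, Fin (r l) → ι → ℕ) : Gt ι E r → Vr ι E r → ℤ
  | Sum.inl _ => Pi.single (Sum.inl true) 1
  | Sum.inr (Sum.inl i) => Pi.single (Sum.inr (Sum.inl (i, false))) 1 -
      Pi.single (Sum.inr (Sum.inl (i, true))) 1
  | Sum.inr (Sum.inr ⟨l, j⟩) => (∑ i, Pi.single (Sum.inr (Sum.inl (i, false))) (e l j i : ℤ)) -
      Pi.single (Sum.inr (Sum.inr ⟨l, nx j⟩)) 1

/-- the signs -/
def sg (ε : ∀ l, Fin (r l) → ℤ) : Gt ι E r → ℤ
  | Sum.inl _ => 1
  | Sum.inr (Sum.inl _) => 1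
  | Sum.inr (Sum.inr ⟨l, j⟩) => ε l j

variable {F : Type} [Field F] {lam : Option E → F} {w : ι → F} {s : ∀ l, Fin (r l) → F}

theorem oo_eq (hu : ∀ v, uu lam w s v ≠ 0) (g : Gt ι E r) :
    oo lam w s g = mon (uu lam w s) (al g) := by
  rcases g with g | i | ⟨l, j⟩
  · simp only [oo, al]
    rw [mon_single]; simp [uu]
  · simp only [oo, al]
    rw [mon_sub hu, mon_single, mon_single]; simp [uu]
  · simp only [oo, al]
    rw [mon_sub hu, mon_single, mon_single]; simp [uu]

theorem one_sub_oo_eq (hu : ∀ v, uu lam w s v ≠ 0) (e : ∀ l, Fin (r l) → ι → ℕ)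
    (ε : ∀ l, Fin (r l) → ℤ)
    (hs : ∀ l j, s l (nx j) = s l j + (ε l j : F) * ∏ i, w i ^ e l j i) (g : Gt ι E r) :
    1 - oo lam w s g = (sg ε g : F) * mon (uu lam w s) (be e g) := by
  rcases g with g | i | ⟨l, j⟩
  · simp only [oo, be, sg]
    rw [mon_single]; simp [uu]
  · simp only [oo, be, sg]
    rw [mon_sub hu, mon_single, mon_single]
    have h : lam none + w i ≠ 0 := by
      simpa [uu] using hu (Sum.inr (Sum.inl (i, true)))
    simp only [uu, zpow_one, Int.cast_one, one_mul]
    field_simp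
    ring
  · simp only [oo, be, sg]
    rw [mon_sub hu, mon_sum hu, mon_single]
    have h : lam (some l) + s l (nx j) ≠ 0 := by
      simpa [uu] using hu (Sum.inr (Sum.inr ⟨l, nx j⟩))
    have h2 : ∏ i, mon (uu lam w s) (Pi.single (Sum.inr (Sum.inl (i, false))) (e l j i : ℤ)) =
        ∏ i, w i ^ e l j i := by
      refine Finset.prod_congr rfl fun i _ => ?_
      rw [mon_single]; simp [uu]
    rw [h2]
    simp only [uu, zpow_one]
    rw [eq_comm, ← mul_div_assoc, div_eq_iff h, sub_mul, div_mul_cancel₀ _ h, hs l j]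
    ring

end point

end Pool.Agent.W206.CT
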