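import Pool.Agent.W206.CT.Sys

set_option autoImplicit false

namespace Pool.Agent.W206.CT

open MvPolynomial

section gen

variable {ι E : Type} [Fintype ι] [Fintype E] {r : E → ℕ} [DecidableEq ι] [DecidableEq E]
variable {Ω F : Type} [Field Ω] [Field F] [Algebra Ω F] {lam : Option E → F}
  {w : ι → Ω} {s : ∀ l, Fin (r l) → Ω}

omit [Fintype E] [DecidableEq E] in
theorem lam_add_ne (hl : AlgebraicIndependent Ω lam) (o : Option E) (c : Ω) :
    lam o + algebraMap Ω F c ≠ 0 := by
  intro h
  have h1 : lam o = algebraMap Ω F (-c) := by rw [map_neg]; exact eq_neg_of_add_eq_zero_left h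
  have := hl.transcendental o
  rw [h1] at this
  exact this (isAlgebraic_algebraMap _)

theorem uu_ne (hl : AlgebraicIndependent Ω lam) (hw : ∀ i, w i ≠ 0) (v : Vr ι E r) :
    uu lam (fun i => algebraMap Ω F (w i)) (fun l j => algebraMap Ω F (s l j)) v ≠ 0 := by
  rcases v with b | ⟨i, b⟩ | ⟨l, j⟩
  · cases b
    · have := lam_add_ne hl none 0
      simpa [uu] using this
    · have := lam_add_ne hl none (-1)
      rw [map_neg, map_one] at this
      simp only [uu]
      intro h
      exact this (by linear_combination -h)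
  · cases b
    · simp only [uu]
      exact fun h => hw i ((map_eq_zero _).mp h)
    · exact lam_add_ne hl none (w i)
  · exact lam_add_ne hl (some l) (s l j)

theorem uu_indep (hSI : S_SI) (hMI : S_MI) (hl : AlgebraicIndependent Ω lam)
    (hw : ∀ i, w i ≠ 0) (hwi : ∀ a : ι → ℤ, ∏ i, w i ^ a i = 1 → a = 0)
    (hs : ∀ l, Function.Injective (s l)) (a : Vr ι E r → ℤ)
    (ha : mon (uu lam (fun i => algebraMap Ω F (w i)) (fun l j => algebraMap Ω F (s l j))) a = 1) :
    a = 0 := by
  rw [mon, Fintype.prod_sum_type, Fintype.prod_sum_type, Fintype.prod_bool,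
    Fintype.prod_prod_type, Fintype.prod_sigma] at ha
  simp only [Fintype.prod_bool, Finset.prod_mul_distrib] at ha
  obtain ⟨h1, h2, h3, h4, h5⟩ := hSI hMI ι E Ω F lam hl w hw hwi r s hs (a (Sum.inl false))
    (a (Sum.inl true)) (fun i => a (Sum.inr (Sum.inl (i, false))))
    (fun i => a (Sum.inr (Sum.inl (i, true)))) (fun l j => a (Sum.inr (Sum.inr ⟨l, j⟩))) (by
      refine Eq.trans ?_ ha
      simp only [uu]
      ring)
  funext v
  rcases v with b | ⟨i, b⟩ | ⟨l, j⟩
  · cases b
    · exact h1
    · exact h2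
  · cases b
    · exact congrFun h3 i
    · exact congrFun h4 i
  · exact h5 l j

end gen

section lin

variable {ι E : Type} [Fintype ι] [Fintype E] {r : E → ℕ} [DecidableEq ι] [DecidableEq E]
variable {F : Type} [Field F] {lam : Option E → F} {w : ι → F} {s : ∀ l, Fin (r l) → F}

/-- pairing of integer vectors with a vector -/
def pr {V F : Type} [Fintype V] [Field F] (a : V → ℤ) (δ : V → F) : F := ∑ v, (a v : F) * δ v

theorem pr_add {V F : Type} [Fintype V] [Field F] (a b : V → ℤ) (δ : V → F) :
    pr (a + b) δ = pr a δ + pr b δ := by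
  simp [pr, add_mul, Finset.sum_add_distrib]

theorem pr_sub {V F : Type} [Fintype V] [Field F] (a b : V → ℤ) (δ : V → F) :
    pr (a - b) δ = pr a δ - pr b δ := by
  simp [pr, sub_mul, Finset.sum_sub_distrib]

theorem pr_single {V F : Type} [Fintype V] [DecidableEq V] [Field F] (v : V) (n : ℤ)
    (δ : V → F) : pr (Pi.single v n) δ = n * δ v := by
  rw [pr, Finset.sum_eq_single v]
  · simp
  · intro b _ hb; simp [hb]
  · simp

theorem pr_sum {V F S : Type} [Fintype V] [Field F] (t : Finset S) (a : S → V → ℤ)
    (δ : V → F) : pr (∑ i ∈ t, a i) δ = ∑ i ∈ t, pr (a i) δ := by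
  classical
  induction t using Finset.induction_on with
  | empty => simp [pr]
  | insert i t hi ih => rw [Finset.sum_insert hi, Finset.sum_insert hi, pr_add, ih]

theorem gam_indep (hLG : S_LG) (hu : ∀ v, uu lam w s v ≠ 0)
    (ε : ∀ l, Fin (r l) → ℤ) (e : ∀ l, Fin (r l) → ι → ℕ)
    (hs : ∀ l j, s l (nx j) = s l j + (ε l j : F) * ∏ i, w i ^ e l j i)
    (I : Finset ι) (loc : E → ι) (hloc : ∀ i, i ∉ I → ∃ l, loc l = i)
    (hsupp : ∀ l j i, i ∉ I → i ≠ loc l → e l j i = 0)
    (hgrad : ∀ l, ∑ j, (e l j (loc l) : F) * ((ε l j : F) * ∏ i, w i ^ e l j i) ≠ 0)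
    (hcard : I.card + Fintype.card E = Fintype.card ι) :
    LinearIndependent F (fun g : Gt ι E r => fun v : Vr ι E r =>
      oo lam w s g * (al g v : F) + (1 - oo lam w s g) * (be e g v : F)) := by
  classical
  have hr : ∀ l, 0 < r l := by
    intro l
    by_contra h
    have h0 : r l = 0 := by omega
    apply hgrad l
    refine Finset.sum_eq_zero fun j _ => ?_
    exact absurd j.isLt (by omega)
  let B : Finset (Vr ι E r) := {Sum.inl false} ∪ (I.image fun i => Sum.inr (Sum.inl (i, false))) ∪
    (Finset.univ.image fun l : E => Sum.inr (Sum.inr ⟨l, ⟨0, hr l⟩⟩))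
  refine hLG (Vr ι E r) (Gt ι E r) F _ B ?_ ?_
  · have h1 : B.card ≤ 1 + I.card + Fintype.card E := by
      refine (Finset.card_union_le _ _).trans ?_
      refine add_le_add ((Finset.card_union_le _ _).trans ?_) ?_
      · exact add_le_add (by simp) Finset.card_image_le
      · exact Finset.card_image_le.trans (by simp)
    have h2 : Fintype.card (Vr ι E r) = 2 + (Fintype.card ι * 2 + ∑ l, r l) := by
      simp [Fintype.card_sum, Fintype.card_prod, Fintype.card_sigma]
    have h3 : Fintype.card (Gt ι E r) = 1 + (Fintype.card ι + ∑ l, r l) := by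
      simp [Fintype.card_sum, Fintype.card_sigma]
    omega
  · intro δ hδ hB
    have key : ∀ g : Gt ι E r, oo lam w s g * pr (al g) δ + (1 - oo lam w s g) * pr (be e g) δ = 0 := by
      intro g
      rw [← hδ g]
      simp only [pr, Finset.mul_sum, ← Finset.sum_add_distrib]
      exact Finset.sum_congr rfl fun v _ => by ring
    have hf : δ (Sum.inl false) = 0 := hB _ (by simp [B])
    have hI : ∀ i ∈ I, δ (Sum.inr (Sum.inl (i, false))) = 0 := by
      intro i hi
      exact hB _ (by simp [B, hi])
    have h0 : ∀ l, δ (Sum.inr (Sum.inr ⟨l, ⟨0, hr l⟩⟩)) = 0 := by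
      intro l
      exact hB _ (by simp [B])
    -- chain gates
    have hT : ∀ l (j : Fin (r l)), (lam (some l) + s l (nx j)) * δ (Sum.inr (Sum.inr ⟨l, nx j⟩)) =
        (lam (some l) + s l j) * δ (Sum.inr (Sum.inr ⟨l, j⟩)) +
          ((ε l j : F) * ∏ i, w i ^ e l j i) *
            ∑ i, (e l j i : F) * δ (Sum.inr (Sum.inl (i, false))) := by
      intro l j
      have h := key (Sum.inr (Sum.inr ⟨l, j⟩))
      simp only [al, be, oo, pr_sub, pr_single, pr_sum, Int.cast_one, one_mul, Int.cast_natCast] at h
      have hD : lam (some l) + s l (nx j) ≠ 0 := by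
        simpa [uu] using hu (Sum.inr (Sum.inr ⟨l, nx j⟩))
      have h1 : (1 : F) - (lam (some l) + s l j) / (lam (some l) + s l (nx j)) =
          ((ε l j : F) * ∏ i, w i ^ e l j i) / (lam (some l) + s l (nx j)) := by
        rw [eq_div_iff hD, sub_mul, div_mul_cancel₀ _ hD, hs l j]
        ring
      rw [h1] at h
      have h2 := congrArg (· * (lam (some l) + s l (nx j))) h
      simp only [add_mul, zero_mul] at h2
      have h3 : ∀ a b : F, a / (lam (some l) + s l (nx j)) * b * (lam (some l) + s l (nx j)) =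
          a * b := by
        intro a b
        field_simp
      rw [← add_mul, add_mul, h3, h3] at h2
      have h4 := hs l j
      linear_combination (-1 : F) * h2 + δ (Sum.inr (Sum.inr ⟨l, nx j⟩)) * h4
    have hw0 : ∀ i, δ (Sum.inr (Sum.inl (i, false))) = 0 := by
      intro i
      by_cases hi : i ∈ I
      · exact hI i hi
      · obtain ⟨l, rfl⟩ := hloc i hi
        have h1 : ∀ j : Fin (r l), ∑ i, (e l j i : F) * δ (Sum.inr (Sum.inl (i, false))) =
            (e l j (loc l) : F) * δ (Sum.inr (Sum.inl (loc l, false))) := by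
          intro j
          refine Finset.sum_eq_single (loc l) (fun i _ hne => ?_) (by simp)
          by_cases hi' : i ∈ I
          · rw [hI i hi', mul_zero]
          · rw [hsupp l j i hi' hne]; simp
        have h2 : ∑ j : Fin (r l), (lam (some l) + s l (nx j)) *
            δ (Sum.inr (Sum.inr ⟨l, nx j⟩)) =
            ∑ j : Fin (r l), (lam (some l) + s l j) * δ (Sum.inr (Sum.inr ⟨l, j⟩)) :=
          Equiv.sum_comp (finRotate (r l)) (fun j => (lam (some l) + s l j) *
            δ (Sum.inr (Sum.inr ⟨l, j⟩)))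
        rw [Finset.sum_congr rfl (fun j _ => hT l j), Finset.sum_add_distrib] at h2
        have h3 := add_eq_left.mp h2
        rw [Finset.sum_congr rfl (fun j _ => by rw [h1 j])] at h3
        have h4 : (∑ j, (e l j (loc l) : F) * ((ε l j : F) * ∏ i, w i ^ e l j i)) *
            δ (Sum.inr (Sum.inl (loc l, false))) = 0 := by
          rw [← h3, Finset.sum_mul]
          exact Finset.sum_congr rfl fun j _ => by ring
        exact (mul_eq_zero.mp h4).resolve_left (hgrad l)
    have hT' : ∀ l (n : ℕ) (hn : n < r l), δ (Sum.inr (Sum.inr ⟨l, ⟨n, hn⟩⟩)) = 0 := by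
      intro l n
      induction n with
      | zero => intro hn; exact h0 l
      | succ n ih =>
        intro hn
        have h1 := hT l ⟨n, by omega⟩
        have h2 : nx (⟨n, by omega⟩ : Fin (r l)) = ⟨n + 1, hn⟩ :=
          Fin.ext ((nx_spec (⟨n, by omega⟩ : Fin (r l))).1 hn)
        rw [ih (by omega), h2] at h1
        simp only [hw0, mul_zero, Finset.sum_const_zero, add_zero] at h1
        refine (mul_eq_zero.mp h1).resolve_left ?_
        simpa [uu] using hu (Sum.inr (Sum.inr ⟨l, ⟨n + 1, hn⟩⟩))
    funext v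
    rcases v with b | ⟨i, b⟩ | ⟨l, j⟩
    · cases b
      · exact hf
      · have h := key (Sum.inl ())
        simp only [al, be, oo, pr_single, hf, Int.cast_one, one_mul, mul_zero, zero_add] at h
        refine (mul_eq_zero.mp h).resolve_left ?_
        simpa [uu] using hu (Sum.inl true)
    · cases b
      · exact hw0 i
      · have h := key (Sum.inr (Sum.inl i))
        simp only [al, be, oo, pr_sub, pr_single, hf, hw0, Int.cast_one, one_mul, zero_sub] at h
        simp only [Pi.zero_apply]
        linear_combination (-1 : F) * h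
    · exact hT' l j.val j.isLt

end lin

end Pool.Agent.W206.CT
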