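import Pool.Agent.W206.CT.Sys2

set_option autoImplicit false

namespace Pool.Agent.W206.CT

open MvPolynomial

section Phi

variable {ι E : Type} [Fintype ι] [Fintype E] {r : E → ℕ} [DecidableEq ι] [DecidableEq E]

/-- exponents of the monomial given by a character -/
noncomputable def Phi (e : ∀ l, Fin (r l) → ι → ℕ) :
    (Gt ι E r ⊕ Gt ι E r → ℤ) →ₗ[ℤ] (Vr ι E r → ℤ) :=
  Fintype.linearCombination ℤ (Sum.elim (al (ι := ι) (r := r)) (be e))

theorem Phi_surj (e : ∀ l, Fin (r l) → ι → ℕ) : Function.Surjective (Phi e) := by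
  classical
  rw [← LinearMap.range_eq_top, Phi, Fintype.range_linearCombination]
  set S := Submodule.span ℤ (Set.range (Sum.elim (al (ι := ι) (r := r)) (be e))) with hS
  have ha : ∀ g, al (ι := ι) (r := r) g ∈ S := fun g =>
    Submodule.subset_span ⟨Sum.inl g, rfl⟩
  have hb : ∀ g, be e g ∈ S := fun g => Submodule.subset_span ⟨Sum.inr g, rfl⟩
  have h1 : (Pi.single (Sum.inl false) 1 : Vr ι E r → ℤ) ∈ S := ha (Sum.inl ())
  have h2 : (Pi.single (Sum.inl true) 1 : Vr ι E r → ℤ) ∈ S := hb (Sum.inl ())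
  have h3 : ∀ i, (Pi.single (Sum.inr (Sum.inl (i, true))) 1 : Vr ι E r → ℤ) ∈ S := by
    intro i
    have := S.sub_mem h1 (ha (Sum.inr (Sum.inl i)))
    simpa [al] using this
  have h4 : ∀ i, (Pi.single (Sum.inr (Sum.inl (i, false))) 1 : Vr ι E r → ℤ) ∈ S := by
    intro i
    have := S.add_mem (hb (Sum.inr (Sum.inl i))) (h3 i)
    simpa [be] using this
  have h5 : ∀ l j, (Pi.single (Sum.inr (Sum.inr ⟨l, j⟩)) 1 : Vr ι E r → ℤ) ∈ S := by
    intro l j
    obtain ⟨j', rfl⟩ := exists_nx j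
    have h6 : (∑ i, Pi.single (Sum.inr (Sum.inl (i, false))) (e l j' i : ℤ) :
        Vr ι E r → ℤ) ∈ S := by
      refine S.sum_mem fun i _ => ?_
      have := S.smul_mem (e l j' i : ℤ) (h4 i)
      rwa [← Pi.single_smul, smul_eq_mul, mul_one] at this
    have := S.sub_mem h6 (hb (Sum.inr (Sum.inr ⟨l, j'⟩)))
    simpa [be] using this
  rw [eq_top_iff]
  rintro a -
  have ha' : a = ∑ v, a v • (Pi.single v 1 : Vr ι E r → ℤ) := by
    funext v
    simp [Finset.sum_apply, Pi.single_apply]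
  rw [ha']
  refine S.sum_mem fun v _ => S.smul_mem _ ?_
  rcases v with b | ⟨i, b⟩ | ⟨l, j⟩
  · cases b
    · exact h1
    · exact h2
  · cases b
    · exact h4 i
    · exact h3 i
  · exact h5 l j

variable {F : Type} [Field F] {lam : Option E → F} {w : ι → F} {s : ∀ l, Fin (r l) → F}

theorem chr_sq (hu : ∀ v, uu lam w s v ≠ 0) (e : ∀ l, Fin (r l) → ι → ℕ)
    (ε : ∀ l, Fin (r l) → ℤ) (hε : ∀ l j, ε l j = 1 ∨ ε l j = -1)
    (hs : ∀ l j, s l (nx j) = s l j + (ε l j : F) * ∏ i, w i ^ e l j i)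
    (a : Gt ι E r ⊕ Gt ι E r → ℤ) :
    chr (oo lam w s) a ^ 2 = mon (uu lam w s) (Phi e a) ^ 2 := by
  have h1 : mon (uu lam w s) (Phi e a) = (∏ g, mon (uu lam w s) (al g) ^ a (Sum.inl g)) *
      ∏ g, mon (uu lam w s) (be e g) ^ a (Sum.inr g) := by
    rw [Phi, Fintype.linearCombination_apply, Fintype.sum_sum_type, mon_add hu, mon_sum hu,
      mon_sum hu]
    simp only [Sum.elim_inl, Sum.elim_inr, mon_zsmul]
  have hsg : ∀ g, (sg (ι := ι) (E := E) (r := r) ε g : F) ^ 2 = 1 := by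
    rintro (g | i | ⟨l, j⟩)
    · simp [sg]
    · simp [sg]
    · rcases hε l j with h | h <;> simp [sg, h]
  rw [h1, chr]
  simp only [one_sub_oo_eq hu e ε hs, mul_zpow, Finset.prod_mul_distrib, mul_pow]
  have h2 : (∏ g : Gt ι E r, (sg ε g : F) ^ a (Sum.inr g)) ^ 2 = 1 := by
    rw [← Finset.prod_pow]
    refine Finset.prod_eq_one fun g _ => ?_
    rw [← zpow_natCast, ← zpow_mul, mul_comm, zpow_mul, zpow_natCast, hsg, one_zpow]
  rw [h2, one_mul]
  congr 2
  exact Finset.prod_congr rfl fun g _ => by rw [oo_eq hu]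

theorem chr_two_smul {κ : Type} [Fintype κ] (z : κ → F) (a : κ ⊕ κ → ℤ) :
    chr z ((2 : ℤ) • a) = chr z a ^ 2 := by
  simp only [chr, Pi.smul_apply, smul_eq_mul, mul_pow, ← Finset.prod_pow]
  congr 1 <;>
  · refine Finset.prod_congr rfl fun g _ => ?_
    rw [mul_comm, zpow_mul]
    norm_cast

end Phi

section incl

variable {ι E : Type} {r : E → ℕ}

/-- exponents of the original variables -/
def incF (a : ι → ℤ) : Vr ι E r → ℤ
  | Sum.inl _ => 0
  | Sum.inr (Sum.inl (i, false)) => a i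
  | Sum.inr (Sum.inl (_, true)) => 0
  | Sum.inr (Sum.inr _) => 0

/-- exponents of the original variables, linear -/
def incL : (ι → ℤ) →ₗ[ℤ] (Vr ι E r → ℤ) where
  toFun := incF
  map_add' a b := by
    funext v
    rcases v with b' | ⟨i, b'⟩ | ⟨l, j⟩
    · simp [incF]
    · cases b' <;> simp [incF]
    · simp [incF]
  map_smul' c a := by
    funext v
    rcases v with b' | ⟨i, b'⟩ | ⟨l, j⟩
    · simp [incF]
    · cases b' <;> simp [incF]
    · simp [incF]

end incl

section atyp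

variable {ι E : Type} [Fintype ι] [Fintype E] {r : E → ℕ} [DecidableEq ι] [DecidableEq E]
variable {Ω F : Type} [Field Ω] [Field F] [Algebra Ω F] [Algebra ℚ Ω] [Algebra ℚ F]
  [IsScalarTower ℚ Ω F] {lam : Option E → F} {w : ι → Ω} {s : ∀ l, Fin (r l) → Ω}

theorem oo_mem (hl : AlgebraicIndependent Ω lam) (hw : ∀ i, w i ≠ 0)
    (e : ∀ l, Fin (r l) → ι → ℕ) (ε : ∀ l, Fin (r l) → ℤ)
    (hε : ∀ l j, ε l j = 1 ∨ ε l j = -1)
    (hs : ∀ l j, s l (nx j) = s l j + (ε l j : Ω) * ∏ i, w i ^ e l j i)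
    (hs0 : ∀ l j, j.val = 0 → s l j = 0) (hr : ∀ l, 0 < r l)
    (K : IntermediateField ℚ F)
    (hK : ∀ g, oo lam (fun i => algebraMap Ω F (w i)) (fun l j => algebraMap Ω F (s l j)) g ∈ K) :
    (∀ o, lam o ∈ K) ∧ ∀ i, algebraMap Ω F (w i) ∈ K := by
  have hu := uu_ne (s := s) (r := r) hl hw
  have h0 : lam none ∈ K := hK (Sum.inl ())
  have h1 : ∀ i, algebraMap Ω F (w i) ∈ K := by
    intro i
    have h2 := hK (Sum.inr (Sum.inl i))
    simp only [oo] at h2
    have h3 : lam none + algebraMap Ω F (w i) ≠ 0 := lam_add_ne hl none (w i)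
    have h4 : lam none ≠ 0 := by simpa using lam_add_ne hl none 0
    have h5 : algebraMap Ω F (w i) = lam none / (lam none / (lam none + algebraMap Ω F (w i))) -
        lam none := by
      field_simp
      ring
    rw [h5]
    exact K.sub_mem (K.div_mem h0 h2) h0
  refine ⟨?_, h1⟩
  rintro (_ | l)
  · exact h0
  · obtain ⟨j, hj⟩ := exists_nx (⟨0, hr l⟩ : Fin (r l))
    have h2 := hK (Sum.inr (Sum.inr ⟨l, j⟩))
    have h3 := one_sub_oo_eq hu e ε (fun l j => by
      rw [hs l j]; simp [map_add, map_mul, map_prod, map_pow]) (Sum.inr (Sum.inr ⟨l, j⟩))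
    have hD := lam_add_ne hl (some l) (s l (nx j))
    have h4 : s l (nx j) = 0 := hs0 l _ (by rw [hj])
    simp only [oo] at h2
    have hM : (∏ i, algebraMap Ω F (w i) ^ e l j i) ≠ 0 :=
      Finset.prod_ne_zero_iff.mpr fun i _ => pow_ne_zero _ (fun h => hw i ((map_eq_zero _).mp h))
    have hεF : ((ε l j : ℤ) : F) ≠ 0 := by
      rcases hε l j with h | h <;> simp [h]
    have h6 : lam (some l) = ((ε l j : F) * ∏ i, algebraMap Ω F (w i) ^ e l j i) /
        (1 - (lam (some l) + algebraMap Ω F (s l j)) / (lam (some l) + algebraMap Ω F (s l (nx j)))) := by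
      have h7 : algebraMap Ω F (s l (nx j)) = algebraMap Ω F (s l j) +
          (ε l j : F) * ∏ i, algebraMap Ω F (w i) ^ e l j i := by
        rw [hs l j]; simp [map_add, map_mul, map_prod, map_pow]
      have h8 : (1 : F) - (lam (some l) + algebraMap Ω F (s l j)) /
          (lam (some l) + algebraMap Ω F (s l (nx j))) =
          ((ε l j : F) * ∏ i, algebraMap Ω F (w i) ^ e l j i) /
            (lam (some l) + algebraMap Ω F (s l (nx j))) := by
        rw [eq_div_iff hD, sub_mul, div_mul_cancel₀ _ hD, h7]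
        ring
      rw [h8, div_div_cancel₀ (mul_ne_zero hεF hM), h4, map_zero, add_zero]
    rw [h6]
    refine K.div_mem (K.mul_mem ?_ ?_) (K.sub_mem K.one_mem h2)
    · exact intCast_mem K _
    · exact prod_mem fun i _ => pow_mem (h1 i) _

theorem atyp (hRS : S_RS) (hl : AlgebraicIndependent Ω lam) (hw : ∀ i, w i ≠ 0)
    (e : ∀ l, Fin (r l) → ι → ℕ) (ε : ∀ l, Fin (r l) → ℤ)
    (hε : ∀ l j, ε l j = 1 ∨ ε l j = -1)
    (hs : ∀ l j, s l (nx j) = s l j + (ε l j : Ω) * ∏ i, w i ^ e l j i)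
    (hs0 : ∀ l j, j.val = 0 → s l j = 0) (hr : ∀ l, 0 < r l)
    (m : ℕ) (hm : TrGe ℚ w m) (Λ : Submodule ℤ (ι → ℤ)) (hΛ : ∀ a ∈ Λ, ∏ i, w i ^ a i = 1)
    (hcount : Fintype.card ι < m + Module.finrank ℤ Λ + Fintype.card E) :
    AtypPt ℚ (oo lam (fun i => algebraMap Ω F (w i)) (fun l j => algebraMap Ω F (s l j))) := by
  classical
  have hu := uu_ne (s := s) (r := r) hl hw
  have hs' : ∀ l j, algebraMap Ω F (s l (nx j)) = algebraMap Ω F (s l j) +
      (ε l j : F) * ∏ i, algebraMap Ω F (w i) ^ e l j i := fun l j => by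
    rw [hs l j]; simp [map_add, map_mul, map_prod, map_pow]
  refine ⟨fun g => ⟨?_, ?_⟩, m + (1 + Fintype.card E), ?_⟩
  · rw [oo_eq hu]; exact mon_ne hu _
  · have h1 := one_sub_oo_eq hu e ε hs' g
    intro h
    rw [h, sub_self] at h1
    refine mul_ne_zero ?_ (mon_ne hu (be e g)) h1.symm
    rcases g with g | i | ⟨l, j⟩
    · simp [sg]
    · simp [sg]
    · rcases hε l j with h | h <;> simp [sg, h]
  -- the lattice
  let inc : (ι → ℤ) →ₗ[ℤ] (Vr ι E r → ℤ) := incL
  have hinc : Function.Injective inc := by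
    intro a b hab
    funext i
    exact congrFun hab (Sum.inr (Sum.inl (i, false)))
  have hmon : ∀ a, mon (uu lam (fun i => algebraMap Ω F (w i)) (fun l j => algebraMap Ω F (s l j)))
      (inc a) = algebraMap Ω F (∏ i, w i ^ a i) := by
    intro a
    rw [mon, Fintype.prod_sum_type, Fintype.prod_sum_type, Fintype.prod_bool,
      Fintype.prod_prod_type, Fintype.prod_sigma]
    simp only [Fintype.prod_bool, inc, incL, incF, LinearMap.coe_mk, AddHom.coe_mk, zpow_zero,
      mul_one, Finset.prod_const_one, one_mul, uu, map_prod, map_zpow₀]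
  let Λ1 := Λ.map inc
  let Λ2 := Λ1.comap (Phi e)
  let dbl : (Gt ι E r ⊕ Gt ι E r → ℤ) →ₗ[ℤ] (Gt ι E r ⊕ Gt ι E r → ℤ) :=
    (2 : ℤ) • LinearMap.id
  have hdbl : Function.Injective dbl := by
    intro a b hab
    have : (2 : ℤ) • a = (2 : ℤ) • b := hab
    exact smul_right_injective _ (two_ne_zero) this
  refine ⟨Λ2.map dbl, ?_, ?_, ?_⟩
  · -- transcendence degree
    obtain ⟨y, hy1, hy2⟩ := hm
    have hsum : AlgebraicIndependent ℚ (Sum.elim lam (algebraMap Ω F ∘ y)) := hy1.sumElim_comp hl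
    let eq1 : Fin (m + (1 + Fintype.card E)) ≃ Option E ⊕ Fin m :=
      Fintype.equivOfCardEq (by simp [Fintype.card_sum]; ring)
    refine ⟨Sum.elim lam (algebraMap Ω F ∘ y) ∘ eq1, hsum.comp eq1 eq1.injective, fun i => ?_⟩
    set K := IntermediateField.adjoin ℚ (Set.range (oo lam (fun i => algebraMap Ω F (w i))
      (fun l j => algebraMap Ω F (s l j)) : Gt ι E r → F)) with hK
    obtain ⟨h1, h2⟩ := oo_mem hl hw e ε hε hs hs0 hr K
      (fun g => IntermediateField.subset_adjoin _ _ ⟨g, rfl⟩)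
    show Sum.elim lam (algebraMap Ω F ∘ y) (eq1 i) ∈ K
    rcases eq1 i with o | k
    · exact h1 o
    · show algebraMap Ω F (y k) ∈ K
      have h3 : IntermediateField.adjoin ℚ (Set.range w) ≤
          K.comap (IsScalarTower.toAlgHom ℚ Ω F) := by
        rw [IntermediateField.adjoin_le_iff]
        rintro _ ⟨i, rfl⟩
        exact h2 i
      exact h3 (hy2 k)
  · rintro _ ⟨a, ha, rfl⟩
    show chr _ ((2 : ℤ) • a) = 1
    rw [chr_two_smul, chr_sq hu e ε hε hs' a]
    obtain ⟨b, hb, hab⟩ := ha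
    rw [← hab, hmon, hΛ b hb]
    simp
  · have h1 : Module.finrank ℤ (Λ2.map dbl) = Module.finrank ℤ Λ2 :=
      (Submodule.equivMapOfInjective dbl hdbl Λ2).finrank_eq.symm
    have h2 : Module.finrank ℤ Λ1 = Module.finrank ℤ Λ :=
      (Submodule.equivMapOfInjective inc hinc Λ).finrank_eq.symm
    have h3 := hRS (Gt ι E r ⊕ Gt ι E r) (Vr ι E r) (Phi e) (Phi_surj e) Λ1
    have h4 : Fintype.card (Vr ι E r) = 2 + (Fintype.card ι * 2 + ∑ l, r l) := by
      simp [Fintype.card_sum, Fintype.card_prod, Fintype.card_sigma]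
    have h5 : Fintype.card (Gt ι E r) = 1 + (Fintype.card ι + ∑ l, r l) := by
      simp [Fintype.card_sum, Fintype.card_sigma]
    have h6 : Fintype.card (Gt ι E r ⊕ Gt ι E r) = Fintype.card (Gt ι E r) +
      Fintype.card (Gt ι E r) := Fintype.card_sum
    rw [h1]
    have h7 : Module.finrank ℤ Λ2 + Fintype.card (Vr ι E r) =
      Fintype.card (Gt ι E r ⊕ Gt ι E r) + Module.finrank ℤ Λ1 := h3
    omega

end atyp

end Pool.Agent.W206.CT
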