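import Pool.Agent.W206.CT.Stm

/-!
# Part TD: the transcendence degree does not change when the field of definition is replaced by `ℂ`
-/

set_option autoImplicit false

namespace Pool.Agent.W206.CT

open MvPolynomial

namespace TD

section

variable {k C : Type} [Field k] [Field C] [Algebra k C] (lam : C →ₗ[k] k)

/-- coefficientwise application of a linear functional -/
noncomputable def Lm {σ : Type} (f : MvPolynomial σ C) : MvPolynomial σ k :=
  ∑ s ∈ f.support, monomial s (lam (coeff s f))

theorem coeff_Lm {σ : Type} (f : MvPolynomial σ C) (s : σ →₀ ℕ) :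
    coeff s (Lm lam f) = lam (coeff s f) := by
  classical
  unfold Lm
  rw [coeff_sum]
  simp only [coeff_monomial]
  rw [Finset.sum_ite_eq']
  split_ifs with h
  · rfl
  · rw [notMem_support_iff.1 h, map_zero]

theorem Lm_zero {σ : Type} : Lm lam (0 : MvPolynomial σ C) = 0 := by
  ext s
  rw [coeff_Lm, coeff_zero, coeff_zero, map_zero]

theorem Lm_add {σ : Type} (f g : MvPolynomial σ C) : Lm lam (f + g) = Lm lam f + Lm lam g := by
  ext s
  rw [coeff_Lm, coeff_add, coeff_add, coeff_Lm, coeff_Lm, map_add]

theorem Lm_mul {σ : Type} (h : MvPolynomial σ C) (f0 : MvPolynomial σ k) :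
    Lm lam (h * map (algebraMap k C) f0) = Lm lam h * f0 := by
  classical
  ext s
  rw [coeff_Lm, coeff_mul, coeff_mul, map_sum]
  refine Finset.sum_congr rfl (fun u _ => ?_)
  rw [coeff_map, coeff_Lm, mul_comm (coeff u.1 h), ← Algebra.smul_def, map_smul, smul_eq_mul,
    mul_comm]

theorem Lm_monomial {σ : Type} (u : σ →₀ ℕ) (a : C) :
    Lm lam (monomial u a) = monomial u (lam a) := by
  classical
  ext s
  rw [coeff_Lm, coeff_monomial, coeff_monomial]
  split_ifs
  · rfl
  · exact map_zero lam

theorem Lm_rename {σ τ : Type} (e : σ → τ) (g : MvPolynomial σ C) :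
    Lm lam (rename e g) = rename e (Lm lam g) := by
  induction g using MvPolynomial.induction_on' with
  | monomial u a => rw [rename_monomial, Lm_monomial, Lm_monomial, rename_monomial]
  | add p q hp hq => rw [map_add, Lm_add, hp, hq, Lm_add, map_add]

theorem eval_Lm {σ L : Type} [Field L] [Algebra C L] [Algebra k L] [IsScalarTower k C L]
    (x : σ → L) (T : Set (MvPolynomial σ C))
    (hT : RingHom.ker (aeval x : MvPolynomial σ C →ₐ[C] L) = Ideal.span T)
    (hT0 : ∀ f ∈ T, ∃ f0 : MvPolynomial σ k, map (algebraMap k C) f0 = f)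
    (g : MvPolynomial σ C) (hg : aeval x g = 0) : aeval x (Lm lam g) = 0 := by
  have q : ∀ f ∈ Ideal.span T, ∀ h, aeval x (Lm lam (h * f)) = 0 := by
    intro f hf
    induction hf using Submodule.span_induction with
    | mem f hf =>
      intro h
      have hker : f ∈ RingHom.ker (aeval x : MvPolynomial σ C →ₐ[C] L) := by
        rw [hT]
        exact Ideal.subset_span hf
      obtain ⟨f0, rfl⟩ := hT0 f hf
      have h1 : aeval x (map (algebraMap k C) f0) = 0 := hker
      rw [aeval_map_algebraMap] at h1
      rw [Lm_mul, map_mul, h1, mul_zero]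
    | zero =>
      intro h
      rw [mul_zero, Lm_zero, map_zero]
    | add f g _ _ hf hg =>
      intro h
      rw [mul_add, Lm_add, map_add, hf, hg, add_zero]
    | smul a f _ hf =>
      intro h
      rw [smul_eq_mul, ← mul_assoc]
      exact hf _
  have hmem : g ∈ Ideal.span T := by
    rw [← hT]
    exact hg
  have := q g hmem 1
  rwa [one_mul] at this

end

/-- algebraic dependence over the large field gives algebraic dependence over the small field -/
theorem dep {k C L σ τ : Type} [Field k] [Field C] [Field L] [Algebra k C] [Algebra C L]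
    [Algebra k L] [IsScalarTower k C L] (x : σ → L) (T : Set (MvPolynomial σ C))
    (hT : RingHom.ker (aeval x : MvPolynomial σ C →ₐ[C] L) = Ideal.span T)
    (hT0 : ∀ f ∈ T, ∃ f0 : MvPolynomial σ k, map (algebraMap k C) f0 = f)
    (e : τ → σ) (h : ¬ AlgebraicIndependent C (x ∘ e)) : ¬ AlgebraicIndependent k (x ∘ e) := by
  intro hk
  apply h
  rw [algebraicIndependent_iff]
  intro g hg
  by_contra hg0
  obtain ⟨s, hs⟩ : ∃ s, coeff s g ≠ 0 := by
    by_contra hcon
    push Not at hcon
    apply hg0
    ext s
    rw [hcon s, coeff_zero]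
  obtain ⟨lam, hlam⟩ : ∃ lam : C →ₗ[k] k, lam (coeff s g) ≠ 0 := by
    by_contra hcon
    push Not at hcon
    exact hs ((Module.forall_dual_apply_eq_zero_iff k (coeff s g)).1 hcon)
  have h1 : aeval x (rename e g) = 0 := by
    rw [aeval_rename]
    exact hg
  have h2 := eval_Lm lam x T hT hT0 (rename e g) h1
  rw [Lm_rename, aeval_rename] at h2
  have h3 := (algebraicIndependent_iff.1 hk) _ h2
  apply hlam
  rw [← coeff_Lm, h3, coeff_zero]

/-- the small field -/
theorem lift_coeffs (n : ℕ) (K₀ : IntermediateField ℚ ℂ) (f : MvPolynomial (Fin n) ℂ)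
    (hf : ∀ s, coeff s f ∈ K₀) :
    ∃ f0 : MvPolynomial (Fin n) K₀, map (algebraMap K₀ ℂ) f0 = f := by
  classical
  refine ⟨∑ s ∈ f.support, monomial s (⟨coeff s f, hf s⟩ : K₀), ?_⟩
  rw [map_sum]
  conv_rhs => rw [← support_sum_monomial_coeff f]
  refine Finset.sum_congr rfl (fun s _ => ?_)
  rw [map_monomial]
  rfl

end TD

theorem t_td : S_TD := by
  classical
  intro n L _ _ _ _ x K₀ T hT hT0
  -- a maximal algebraically independent subfamily
  obtain ⟨J, hJ, hmax⟩ : ∃ J : Finset (Fin n), AlgebraicIndependent ℂ (fun j : J => x j) ∧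
      ∀ J' : Finset (Fin n), AlgebraicIndependent ℂ (fun j : J' => x j) → J'.card ≤ J.card := by
    have hne : ((Finset.univ : Finset (Finset (Fin n))).filter
        (fun J : Finset (Fin n) => AlgebraicIndependent ℂ (fun j : J => x j))).Nonempty := by
      refine ⟨∅, Finset.mem_filter.2 ⟨Finset.mem_univ _, ?_⟩⟩
      have : IsEmpty {j // j ∈ (∅ : Finset (Fin n))} := ⟨fun j => Finset.notMem_empty _ j.2⟩
      rw [algebraicIndependent_empty_type_iff]
      exact (algebraMap ℂ L).injective
    obtain ⟨J, hJ1, hJ2⟩ := Finset.exists_max_image _ Finset.card hne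
    exact ⟨J, (Finset.mem_filter.1 hJ1).2, fun J' hJ' =>
      hJ2 J' (Finset.mem_filter.2 ⟨Finset.mem_univ _, hJ'⟩)⟩
  refine ⟨J, hJ, ?_⟩
  intro i
  obtain ⟨S, hS⟩ : ∃ S : Set L, S = (algebraMap ℂ L) '' (K₀ : Set ℂ) ∪ x '' (J : Set (Fin n)) :=
    ⟨_, rfl⟩
  rw [← hS]
  by_cases hi : i ∈ J
  · have hmem : x i ∈ IntermediateField.adjoin ℚ S := by
      apply IntermediateField.subset_adjoin
      rw [hS]
      exact Or.inr ⟨i, hi, rfl⟩
    exact isAlgebraic_algebraMap (⟨x i, hmem⟩ : IntermediateField.adjoin ℚ S)
  · -- the family with `x i` is dependent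
    have hdep : ¬ AlgebraicIndependent ℂ
        (x ∘ fun o : Option J => o.elim i (fun j => (j : Fin n))) := by
      intro hind
      have hlt : J.card < (insert i J).card := by
        rw [Finset.card_insert_of_notMem hi]
        omega
      have h1 := hmax (insert i J) (by
        have h2 := hind.comp (fun j : (insert i J : Finset (Fin n)) =>
          if h : (j : Fin n) ∈ J then some ⟨j, h⟩ else none) (by
            intro a b hab
            by_cases ha : (a : Fin n) ∈ J
            · by_cases hb : (b : Fin n) ∈ J
              · simp only [dif_pos ha, dif_pos hb, Option.some.injEq, Subtype.mk.injEq] at hab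
                exact Subtype.ext hab
              · simp only [dif_pos ha, dif_neg hb] at hab
                cases hab
            · by_cases hb : (b : Fin n) ∈ J
              · simp only [dif_neg ha, dif_pos hb] at hab
                cases hab
              · have ha' : (a : Fin n) = i := (Finset.mem_insert.1 a.2).resolve_right ha
                have hb' : (b : Fin n) = i := (Finset.mem_insert.1 b.2).resolve_right hb
                exact Subtype.ext (ha'.trans hb'.symm))
        have h3 : ((x ∘ fun o : Option J => o.elim i (fun j => (j : Fin n))) ∘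
            (fun j : (insert i J : Finset (Fin n)) =>
              if h : (j : Fin n) ∈ J then some ⟨j, h⟩ else none)) =
            fun j : (insert i J : Finset (Fin n)) => x j := by
          funext j
          show x (Option.elim (if h : (j : Fin n) ∈ J then some (⟨j, h⟩ : J) else none) i
            (fun j => (j : Fin n))) = x j
          by_cases hj : (j : Fin n) ∈ J
          · rw [dif_pos hj]
            rfl
          · rw [dif_neg hj]
            have hj' : (j : Fin n) = i := (Finset.mem_insert.1 j.2).resolve_right hj
            rw [hj']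
            rfl
        rw [h3] at h2
        exact h2)
      omega
    have hdep0 : ¬ AlgebraicIndependent K₀
        (x ∘ fun o : Option J => o.elim i (fun j => (j : Fin n))) :=
      TD.dep x T hT (fun f hf => TD.lift_coeffs n K₀ f (hT0 f hf)) _ hdep
    have hJ0 : AlgebraicIndependent K₀ (fun j : J => x j) :=
      hJ.restrictScalars (algebraMap K₀ ℂ).injective
    have heq : (x ∘ fun o : Option J => o.elim i (fun j => (j : Fin n))) =
        fun o : Option J => o.elim (x i) (fun j : J => x j) := by
      funext o
      cases o <;> rfl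
    rw [heq, hJ0.option_iff_transcendental (x i)] at hdep0
    have halg : IsAlgebraic (Algebra.adjoin K₀ (Set.range (fun j : J => x j))) (x i) := by
      by_contra hcon
      exact hdep0 hcon
    -- transfer
    have hsub : ∀ a ∈ Algebra.adjoin K₀ (Set.range (fun j : J => x j)),
        a ∈ IntermediateField.adjoin ℚ S := by
      intro a ha
      induction ha using Algebra.adjoin_induction with
      | mem a ha =>
        obtain ⟨j, rfl⟩ := ha
        apply IntermediateField.subset_adjoin
        rw [hS]
        exact Or.inr ⟨j, j.2, rfl⟩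
      | algebraMap r =>
        apply IntermediateField.subset_adjoin
        rw [hS]
        exact Or.inl ⟨(r : ℂ), r.2, rfl⟩
      | add a b _ _ ha hb => exact add_mem ha hb
      | mul a b _ _ ha hb => exact mul_mem ha hb
    let φ : Algebra.adjoin K₀ (Set.range (fun j : J => x j)) →+* IntermediateField.adjoin ℚ S :=
      { toFun := fun a => ⟨a.1, hsub a.1 a.2⟩
        map_one' := rfl
        map_mul' := fun _ _ => rfl
        map_zero' := rfl
        map_add' := fun _ _ => rfl }
    have hφ : Function.Injective φ := by
      intro a b hab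
      exact Subtype.ext (congrArg (fun z : IntermediateField.adjoin ℚ S => (z : L)) hab)
    exact halg.ringHom_of_comp_eq φ (RingHom.id L) hφ rfl

end Pool.Agent.W206.CT
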